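import Mathlib

open Filter Asymptotics Topology
open scoped ContDiff

set_option linter.unusedSectionVars false

namespace Q191

section Basic

variable {V F G H : Type} [NormedAddCommGroup V] [NormedAddCommGroup F] [NormedAddCommGroup G]
  [NormedAddCommGroup H]

/-- Asymptotic relation at the punctured origin: little-o of `‖z‖ ^ a` if `b = true`,
big-O of `‖z‖ ^ a` if `b = false`. -/
def Asy (b : Bool) (a : ℤ) (f : V → F) : Prop :=
  cond b (f =o[𝓝[≠] (0:V)] fun z => ‖z‖ ^ a) (f =O[𝓝[≠] (0:V)] fun z => ‖z‖ ^ a)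

theorem Asy.isBigO {b : Bool} {a : ℤ} {f : V → F} (h : Asy b a f) :
    f =O[𝓝[≠] (0:V)] fun z => ‖z‖ ^ a := by
  cases b
  · exact h
  · exact IsLittleO.isBigO h

theorem Asy.weaken {b : Bool} {a : ℤ} {f : V → F} (h : Asy b a f) : Asy false a f := h.isBigO

theorem Asy.of_true {b : Bool} {a : ℤ} {f : V → F} (h : Asy true a f) : Asy b a f := by
  cases b
  · exact h.isBigO
  · exact h

theorem Asy.congr {b : Bool} {a : ℤ} {f g : V → F} (h : Asy b a f) (hfg : f =ᶠ[𝓝[≠] (0:V)] g) :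
    Asy b a g := by
  cases b
  · exact IsBigO.congr' h hfg (EventuallyEq.refl _ _)
  · exact IsLittleO.congr' h hfg (EventuallyEq.refl _ _)

theorem Asy.add {b : Bool} {a : ℤ} {f g : V → F} (hf : Asy b a f) (hg : Asy b a g) :
    Asy b a (fun z => f z + g z) := by
  cases b
  · exact IsBigO.add hf hg
  · exact IsLittleO.add hf hg

theorem Asy.of_isBigO {b : Bool} {a : ℤ} {f : V → F} {g : V → G} (hg : Asy b a g)
    (h : f =O[𝓝[≠] (0:V)] g) : Asy b a f := by
  cases b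
  · exact IsBigO.trans h hg
  · exact IsBigO.trans_isLittleO h hg

theorem eventually_ne_zero : ∀ᶠ z in 𝓝[≠] (0:V), z ≠ 0 := eventually_mem_nhdsWithin

theorem eventually_norm_lt (r : ℝ) (hr : 0 < r) : ∀ᶠ z in 𝓝[≠] (0:V), ‖z‖ < r := by
  refine eventually_nhdsWithin_of_eventually_nhds ?_
  have := Metric.ball_mem_nhds (0:V) hr
  filter_upwards [this] with z hz
  simpa using hz

theorem zpow_isBigO {a a' : ℤ} (h : a' ≤ a) :
    (fun z : V => ‖z‖ ^ a) =O[𝓝[≠] (0:V)] fun z => ‖z‖ ^ a' := by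
  refine IsBigO.of_bound 1 ?_
  filter_upwards [eventually_ne_zero, eventually_norm_lt 1 one_pos] with z hz hz1
  have hz0 : 0 < ‖z‖ := norm_pos_iff.2 hz
  rw [Real.norm_of_nonneg (by positivity), Real.norm_of_nonneg (by positivity), one_mul]
  exact zpow_le_zpow_right_of_le_one₀ hz0 hz1.le h

theorem zpow_isLittleO {a a' : ℤ} (h : a' < a) :
    (fun z : V => ‖z‖ ^ a) =o[𝓝[≠] (0:V)] fun z => ‖z‖ ^ a' := by
  have h1 : (fun z : V => ‖z‖ ^ (a' + 1)) =o[𝓝[≠] (0:V)] fun z => ‖z‖ ^ a' := by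
    have h2 : (fun z : V => ‖z‖) =o[𝓝[≠] (0:V)] fun _ => (1:ℝ) := by
      rw [isLittleO_one_iff]
      have : Tendsto (fun z : V => ‖z‖) (𝓝 (0:V)) (𝓝 ‖(0:V)‖) := continuous_norm.tendsto _
      rw [norm_zero] at this
      exact this.mono_left nhdsWithin_le_nhds
    have h3 := (isBigO_refl (fun z : V => ‖z‖ ^ a') (𝓝[≠] (0:V))).mul_isLittleO h2
    refine h3.congr' ?_ ?_
    · filter_upwards [eventually_ne_zero] with z hz
      rw [zpow_add₀ (norm_ne_zero_iff.2 hz), zpow_one]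
    · filter_upwards with z
      ring
  exact (zpow_isBigO (by omega)).trans_isLittleO h1

theorem Asy.mono {b : Bool} {a a' : ℤ} {f : V → F} (h : Asy b a f) (haa : a' ≤ a) :
    Asy b a' f := by
  cases b
  · exact IsBigO.trans h (zpow_isBigO haa)
  · exact IsLittleO.trans_isBigO h (zpow_isBigO haa)

theorem Asy.gain {b : Bool} {a a' : ℤ} {f : V → F} (h : Asy b a f) (haa : a' < a) :
    Asy true a' f :=
  h.isBigO.trans_isLittleO (zpow_isLittleO haa)

theorem Asy.mul_norm {b b' : Bool} {a a' : ℤ} {f : V → F} {g : V → G} (hf : Asy b a f)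
    (hg : Asy b' a' g) : Asy (b || b') (a + a') (fun z => ‖f z‖ * ‖g z‖) := by
  have key : (fun z : V => ‖z‖ ^ a * ‖z‖ ^ a') =ᶠ[𝓝[≠] (0:V)] fun z => ‖z‖ ^ (a + a') := by
    filter_upwards [eventually_ne_zero] with z hz
    rw [zpow_add₀ (norm_ne_zero_iff.2 hz)]
  cases b <;> cases b'
  · exact (IsBigO.mul (IsBigO.norm_left hf) (IsBigO.norm_left hg)).congr'
      (EventuallyEq.refl _ _) key
  · exact (IsBigO.mul_isLittleO (IsBigO.norm_left hf) (IsLittleO.norm_left hg)).congr'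
      (EventuallyEq.refl _ _) key
  · exact (IsLittleO.mul_isBigO (IsLittleO.norm_left hf) (IsBigO.norm_left hg)).congr'
      (EventuallyEq.refl _ _) key
  · exact (IsLittleO.mul (IsLittleO.norm_left hf) (IsLittleO.norm_left hg)).congr'
      (EventuallyEq.refl _ _) key

end Basic

section Classes

variable {V F G H : Type} [NormedAddCommGroup V] [NormedSpace ℝ V]
  [NormedAddCommGroup F] [NormedSpace ℝ F] [NormedAddCommGroup G] [NormedSpace ℝ G]
  [NormedAddCommGroup H] [NormedSpace ℝ H]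

theorem Asy.clm {b : Bool} {a : ℤ} {f : V → F} (hf : Asy b a f) (L : F →L[ℝ] G) :
    Asy b a (fun z => L (f z)) :=
  hf.of_isBigO (L.isBigO_comp f _)

theorem Asy.bilin {b b' : Bool} {a a' : ℤ} {f : V → F} {g : V → G} (hf : Asy b a f)
    (hg : Asy b' a' g) (B : F →L[ℝ] G →L[ℝ] H) :
    Asy (b || b') (a + a') (fun z => B (f z) (g z)) := by
  refine (hf.mul_norm hg).of_isBigO ?_
  refine IsBigO.of_bound ‖B‖ ?_
  filter_upwards with z
  rw [Real.norm_of_nonneg (by positivity), ← mul_assoc]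
  exact B.le_opNorm₂ _ _

/-- Smooth on a punctured neighbourhood of the origin. -/
def Sm (f : V → F) : Prop := ∀ᶠ z in 𝓝[≠] (0:V), ContDiffAt ℝ ∞ f z

theorem eventually_punctured {p : V → Prop} (h : ∀ᶠ z in 𝓝[≠] (0:V), p z) :
    ∀ᶠ z in 𝓝[≠] (0:V), ∀ᶠ y in 𝓝 z, p y := by
  have h1 := eventually_eventually_nhdsWithin.2 h
  filter_upwards [h1, eventually_ne_zero] with z hz hz0
  rwa [IsOpen.nhdsWithin_eq isOpen_compl_singleton (by simpa using hz0)] at hz

theorem Sm.congr {f g : V → F} (hf : Sm f) (hfg : f =ᶠ[𝓝[≠] (0:V)] g) : Sm g := by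
  filter_upwards [hf, eventually_punctured hfg] with z hz h
  exact hz.congr_of_eventuallyEq (Filter.EventuallyEq.symm h)

theorem Sm.fderiv {f : V → F} (hf : Sm f) : Sm (fderiv ℝ f) := by
  filter_upwards [hf] with z hz
  exact hz.fderiv_right (by simp)

theorem Sm.differentiableAt {f : V → F} (hf : Sm f) :
    ∀ᶠ z in 𝓝[≠] (0:V), DifferentiableAt ℝ f z := by
  filter_upwards [hf] with z hz
  exact hz.differentiableAt (by simp)

theorem fderiv_congr_punctured {f g : V → F} (hfg : f =ᶠ[𝓝[≠] (0:V)] g) :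
    fderiv ℝ f =ᶠ[𝓝[≠] (0:V)] fderiv ℝ g := by
  filter_upwards [eventually_punctured hfg] with z h
  exact Filter.EventuallyEq.fderiv_eq h

/-- The recursive asymptotic class: `f` is smooth on a punctured neighbourhood of `0`, and for
`i ≤ j` its `i`-th derivative is little-o (if `b = true`) or big-O (if `b = false`) of
`‖z‖ ^ (a - i)`. -/
def Cl (V : Type) [NormedAddCommGroup V] [NormedSpace ℝ V] (b : Bool) :
    ℕ → ℤ → ∀ {F : Type} [NormedAddCommGroup F] [NormedSpace ℝ F], (V → F) → Prop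
  | 0, a, _, _, _, f => Sm f ∧ Asy b a f
  | (j+1), a, _, _, _, f => (Sm f ∧ Asy b a f) ∧ Cl V b j (a-1) (fderiv ℝ f)

theorem Cl.base {b : Bool} {j : ℕ} {a : ℤ} {f : V → F} (h : Cl V b j a f) : Sm f ∧ Asy b a f := by
  cases j with
  | zero => exact h
  | succ j => exact h.1

theorem Cl.sm {b : Bool} {j : ℕ} {a : ℤ} {f : V → F} (h : Cl V b j a f) : Sm f := h.base.1

theorem Cl.asy {b : Bool} {j : ℕ} {a : ℤ} {f : V → F} (h : Cl V b j a f) : Asy b a f := h.base.2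

theorem Cl.down {b : Bool} : ∀ {j : ℕ} {a : ℤ} {F : Type} [NormedAddCommGroup F]
    [NormedSpace ℝ F] {f : V → F}, Cl V b (j+1) a f → Cl V b j a f
  | 0, _, _, _, _, _, h => h.1
  | (_+1), _, _, _, _, _, h => ⟨h.1, Cl.down h.2⟩

theorem Cl.le {b : Bool} {i j : ℕ} (hij : i ≤ j) {a : ℤ} {f : V → F} (h : Cl V b j a f) :
    Cl V b i a f := by
  induction j, hij using Nat.le_induction with
  | base => exact h
  | succ j _ ih => exact ih h.down

theorem Cl.congr {b : Bool} : ∀ {j : ℕ} {a : ℤ} {F : Type} [NormedAddCommGroup F]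
    [NormedSpace ℝ F] {f g : V → F}, Cl V b j a f → f =ᶠ[𝓝[≠] (0:V)] g → Cl V b j a g
  | 0, _, _, _, _, _, _, h, hfg => ⟨h.1.congr hfg, h.2.congr hfg⟩
  | (_+1), _, _, _, _, _, _, h, hfg =>
      ⟨⟨h.1.1.congr hfg, h.1.2.congr hfg⟩, Cl.congr h.2 (fderiv_congr_punctured hfg)⟩

theorem Cl.mono {b : Bool} : ∀ {j : ℕ} {a a' : ℤ} {F : Type} [NormedAddCommGroup F]
    [NormedSpace ℝ F] {f : V → F}, Cl V b j a f → a' ≤ a → Cl V b j a' f
  | 0, _, _, _, _, _, _, h, haa => ⟨h.1, h.2.mono haa⟩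
  | (_+1), _, _, _, _, _, _, h, haa => ⟨⟨h.1.1, h.1.2.mono haa⟩, Cl.mono h.2 (by omega)⟩

theorem Cl.gain {b : Bool} : ∀ {j : ℕ} {a a' : ℤ} {F : Type} [NormedAddCommGroup F]
    [NormedSpace ℝ F] {f : V → F}, Cl V b j a f → a' < a → Cl V true j a' f
  | 0, _, _, _, _, _, _, h, haa => ⟨h.1, h.2.gain haa⟩
  | (_+1), _, _, _, _, _, _, h, haa => ⟨⟨h.1.1, h.1.2.gain haa⟩, Cl.gain h.2 (by omega)⟩

theorem Cl.weaken {b : Bool} : ∀ {j : ℕ} {a : ℤ} {F : Type} [NormedAddCommGroup F]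
    [NormedSpace ℝ F] {f : V → F}, Cl V b j a f → Cl V false j a f
  | 0, _, _, _, _, _, h => ⟨h.1, h.2.weaken⟩
  | (_+1), _, _, _, _, _, h => ⟨⟨h.1.1, h.1.2.weaken⟩, Cl.weaken h.2⟩

theorem Cl.of_true {b : Bool} : ∀ {j : ℕ} {a : ℤ} {F : Type} [NormedAddCommGroup F]
    [NormedSpace ℝ F] {f : V → F}, Cl V true j a f → Cl V b j a f
  | 0, _, _, _, _, _, h => ⟨h.1, h.2.of_true⟩
  | (_+1), _, _, _, _, _, h => ⟨⟨h.1.1, h.1.2.of_true⟩, Cl.of_true h.2⟩

theorem Sm.add {f g : V → F} (hf : Sm f) (hg : Sm g) : Sm (fun z => f z + g z) := by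
  filter_upwards [hf, hg] with z h1 h2
  exact h1.add h2

theorem Cl.add {b : Bool} : ∀ {j : ℕ} {a : ℤ} {F : Type} [NormedAddCommGroup F]
    [NormedSpace ℝ F] {f g : V → F}, Cl V b j a f → Cl V b j a g →
    Cl V b j a (fun z => f z + g z)
  | 0, _, _, _, _, _, _, hf, hg => ⟨hf.1.add hg.1, hf.2.add hg.2⟩
  | (_+1), _, _, _, _, f, g, hf, hg => by
      refine ⟨⟨hf.1.1.add hg.1.1, hf.1.2.add hg.1.2⟩, ?_⟩
      refine (Cl.add hf.2 hg.2).congr ?_
      filter_upwards [hf.1.1.differentiableAt, hg.1.1.differentiableAt] with z h1 h2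
      exact (fderiv_add h1 h2).symm

theorem Sm.clm {f : V → F} (hf : Sm f) (L : F →L[ℝ] G) : Sm (fun z => L (f z)) := by
  filter_upwards [hf] with z h1
  exact L.contDiff.contDiffAt.comp z h1

theorem Cl.clm {b : Bool} : ∀ {j : ℕ} {a : ℤ} {F G : Type} [NormedAddCommGroup F]
    [NormedSpace ℝ F] [NormedAddCommGroup G] [NormedSpace ℝ G] {f : V → F}, Cl V b j a f →
    ∀ L : F →L[ℝ] G, Cl V b j a (fun z => L (f z))
  | 0, _, _, _, _, _, _, _, _, hf, L => ⟨hf.1.clm L, hf.2.clm L⟩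
  | (_+1), _, F, G, _, _, _, _, f, hf, L => by
      refine ⟨⟨hf.1.1.clm L, hf.1.2.clm L⟩, ?_⟩
      refine (Cl.clm hf.2 (ContinuousLinearMap.compL ℝ V F G L)).congr ?_
      filter_upwards [hf.1.1.differentiableAt] with z h1
      exact ((L.hasFDerivAt.comp z h1.hasFDerivAt).fderiv).symm

theorem Sm.bilin {f : V → F} {g : V → G} (hf : Sm f) (hg : Sm g) (B : F →L[ℝ] G →L[ℝ] H) :
    Sm (fun z => B (f z) (g z)) := by
  filter_upwards [hf, hg] with z h1 h2
  exact B.isBoundedBilinearMap.contDiff.contDiffAt.comp z (h1.prodMk h2)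

theorem Cl.bilin {b b' : Bool} : ∀ {j : ℕ} {a a' : ℤ} {F G H : Type} [NormedAddCommGroup F]
    [NormedSpace ℝ F] [NormedAddCommGroup G] [NormedSpace ℝ G] [NormedAddCommGroup H]
    [NormedSpace ℝ H] {f : V → F} {g : V → G}, Cl V b j a f → Cl V b' j a' g →
    ∀ B : F →L[ℝ] G →L[ℝ] H, Cl V (b || b') j (a + a') (fun z => B (f z) (g z))
  | 0, _, _, _, _, _, _, _, _, _, _, _, _, _, hf, hg, B => ⟨hf.1.bilin hg.1 B, hf.2.bilin hg.2 B⟩
  | (j+1), a, a', F, G, H, _, _, _, _, _, _, f, g, hf, hg, B => by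
      refine ⟨⟨hf.1.1.bilin hg.1.1 B, hf.1.2.bilin hg.1.2 B⟩, ?_⟩
      have h1 : Cl V (b || b') j (a + a' - 1) (fun z => B.precompR V (f z) (fderiv ℝ g z)) := by
        have := Cl.bilin hf.down hg.2 (B.precompR V)
        rwa [show a + (a' - 1) = a + a' - 1 by ring] at this
      have h2 : Cl V (b || b') j (a + a' - 1) (fun z => B.precompL V (fderiv ℝ f z) (g z)) := by
        have := Cl.bilin hf.2 hg.down (B.precompL V)
        rwa [show a - 1 + a' = a + a' - 1 by ring] at this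
      refine (h1.add h2).congr ?_
      filter_upwards [hf.1.1.differentiableAt, hg.1.1.differentiableAt] with z h1 h2
      exact (B.fderiv_of_bilinear h1 h2).symm

theorem Cl.smul {b b' : Bool} {j : ℕ} {a a' : ℤ} {f : V → ℝ} {g : V → G} (hf : Cl V b j a f)
    (hg : Cl V b' j a' g) : Cl V (b || b') j (a + a') (fun z => f z • g z) :=
  hf.bilin hg (ContinuousLinearMap.lsmul ℝ ℝ)

theorem Cl.mul {b b' : Bool} {j : ℕ} {a a' : ℤ} {f : V → ℝ} {g : V → ℝ} (hf : Cl V b j a f)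
    (hg : Cl V b' j a' g) : Cl V (b || b') j (a + a') (fun z => f z * g z) :=
  hf.bilin hg (ContinuousLinearMap.mul ℝ ℝ)

theorem Cl.neg {b : Bool} {j : ℕ} {a : ℤ} {f : V → F} (hf : Cl V b j a f) :
    Cl V b j a (fun z => - f z) := by
  have := hf.clm (-(ContinuousLinearMap.id ℝ F))
  simpa using this

theorem Cl.sub {b : Bool} {j : ℕ} {a : ℤ} {f g : V → F} (hf : Cl V b j a f) (hg : Cl V b j a g) :
    Cl V b j a (fun z => f z - g z) := by
  have := hf.add hg.neg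
  simpa [sub_eq_add_neg] using this

theorem Cl.const_smul {b : Bool} {j : ℕ} {a : ℤ} {f : V → F} (hf : Cl V b j a f) (c : ℝ) :
    Cl V b j a (fun z => c • f z) := by
  have := hf.clm (c • (ContinuousLinearMap.id ℝ F))
  simpa using this

theorem Cl.succ {b : Bool} {j : ℕ} {a : ℤ} {f : V → F} {f' : V → V →L[ℝ] F}
    (h0 : Sm f) (h1 : Asy b a f) (hf' : fderiv ℝ f =ᶠ[𝓝[≠] (0:V)] f')
    (h2 : Cl V b j (a - 1) f') : Cl V b (j + 1) a f :=
  ⟨⟨h0, h1⟩, h2.congr hf'.symm⟩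

theorem Cl.of_contDiff : ∀ {j : ℕ} {F : Type} [NormedAddCommGroup F]
    [NormedSpace ℝ F] {f : V → F}, ContDiff ℝ ∞ f → Cl V false j 0 f := by
  intro j
  induction j with
  | zero =>
    intro F _ _ f hf
    refine ⟨?_, ?_⟩
    · exact Filter.Eventually.of_forall fun z => hf.contDiffAt
    · have h1 : f =O[𝓝 (0:V)] fun _ => (1:ℝ) := hf.continuous.continuousAt.isBigO_one ℝ
      have h2 := h1.mono (nhdsWithin_le_nhds (s := {(0:V)}ᶜ))
      show f =O[𝓝[≠] (0:V)] fun z => ‖z‖ ^ (0:ℤ)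
      simpa using h2
  | succ j ih =>
    intro F _ _ f hf
    have h0 := @ih F _ _ f hf
    refine ⟨h0.base, ?_⟩
    have h1 : ContDiff ℝ ∞ (fderiv ℝ f) := hf.fderiv_right (by simp)
    exact (ih h1).mono (by norm_num)

theorem Cl.of_contDiff_zero {j : ℕ} {f : V → F} (hf : ContDiff ℝ ∞ f) (h0 : f 0 = 0) :
    Cl V false j 1 f := by
  have hb : Asy false 1 f := by
    have h1 := ((hf.differentiable (by simp)) 0).isBigO_sub
    have h2 := h1.mono (nhdsWithin_le_nhds (s := {(0:V)}ᶜ))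
    show f =O[𝓝[≠] (0:V)] fun z => ‖z‖ ^ (1:ℤ)
    simp only [h0, sub_zero, zpow_one] at h2 ⊢
    exact h2.trans (isBigO_refl _ _).norm_right
  cases j with
  | zero => exact ⟨(Cl.of_contDiff (j := 0) hf).sm, hb⟩
  | succ j =>
    refine ⟨⟨(Cl.of_contDiff (j := 0) hf).sm, hb⟩, ?_⟩
    have h1 : ContDiff ℝ ∞ (_root_.fderiv ℝ f) := hf.fderiv_right (by simp)
    exact Cl.of_contDiff h1

theorem Cl.of_clm {j : ℕ} (L : V →L[ℝ] F) : Cl V false j 1 (fun z => L z) :=
  Cl.of_contDiff_zero L.contDiff (by simp)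

theorem Cl.of_const {j : ℕ} (c : F) : Cl V false j 0 (fun _ : V => c) :=
  Cl.of_contDiff contDiff_const

/-- inverse of a scalar function bounded below by a power of the norm. -/
theorem Cl.inv {j : ℕ} {a : ℤ} {u : V → ℝ} (hu : Cl V false j a u) {c : ℝ} (hc : 0 < c)
    (hlow : ∀ᶠ z in 𝓝[≠] (0:V), c * ‖z‖ ^ a ≤ |u z|) : Cl V false j (-a) (fun z => (u z)⁻¹) := by
  have hne : ∀ᶠ z in 𝓝[≠] (0:V), u z ≠ 0 := by
    filter_upwards [hlow, eventually_ne_zero] with z hz hz0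
    have hpos : 0 < c * ‖z‖ ^ a := mul_pos hc (zpow_pos (norm_pos_iff.2 hz0) _)
    intro h
    rw [h, abs_zero] at hz
    linarith
  induction j with
  | zero =>
    refine ⟨?_, ?_⟩
    · filter_upwards [hu.sm, hne] with z h1 h2
      exact h1.inv h2
    · show (fun z => (u z)⁻¹) =O[𝓝[≠] (0:V)] fun z => ‖z‖ ^ (-a)
      refine IsBigO.of_bound c⁻¹ ?_
      filter_upwards [hlow, eventually_ne_zero] with z hz hz0
      have hz1 : 0 < ‖z‖ ^ a := zpow_pos (norm_pos_iff.2 hz0) _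
      rw [norm_inv, Real.norm_eq_abs, zpow_neg, norm_inv, Real.norm_of_nonneg hz1.le, ← mul_inv]
      exact inv_anti₀ (by positivity) hz
  | succ j ih =>
    have ih' := ih hu.down
    have h1 : Cl V false j (-a - 1) (fun z => -(((u z)⁻¹ * (u z)⁻¹) • _root_.fderiv ℝ u z)) := by
      have := ((ih'.mul ih').smul hu.2).neg
      have h3 : -a + -a + (a - 1) = -a - 1 := by ring
      rw [h3] at this
      exact this
    refine Cl.succ ?_ ih'.asy ?_ h1
    · filter_upwards [hu.sm, hne] with z h1 h2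
      exact h1.inv h2
    · filter_upwards [hu.sm.differentiableAt, hne] with z h1 h2
      have := (hasDerivAt_inv h2).comp_hasFDerivAt z h1.hasFDerivAt
      rw [show (fun z => (u z)⁻¹) = Inv.inv ∘ u from rfl, this.fderiv]
      rw [← neg_smul]
      congr 1
      field_simp

end Classes

end Q191
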