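import Pool.Agent.Q191.Asym

open Filter Asymptotics Topology
open scoped ContDiff

set_option linter.unusedSectionVars false

namespace Q191

theorem zpow_le_of_between {x y c C : ℝ} (hx : 0 < x) (hc : 0 < c) (h1 : c * x ≤ y)
    (h2 : y ≤ C * x) (a : ℤ) : y ^ a ≤ (c ^ a + C ^ a) * x ^ a := by
  have hcx : 0 < c * x := mul_pos hc hx
  have hy : 0 < y := lt_of_lt_of_le hcx h1
  have hCx : 0 < C * x := lt_of_lt_of_le hy h2
  have hC : 0 < C := by
    by_contra h
    push Not at h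
    have := mul_nonpos_of_nonpos_of_nonneg h hx.le
    linarith
  have hca : 0 < c ^ a := zpow_pos hc a
  have hCa : 0 < C ^ a := zpow_pos hC a
  have hxa : 0 < x ^ a := zpow_pos hx a
  rcases le_or_gt 0 a with ha | ha
  · have : y ^ a ≤ (C * x) ^ a := zpow_le_zpow_left₀ ha hy.le h2
    rw [mul_zpow] at this
    nlinarith [mul_pos hca hxa]
  · have h3 : (c * x) ^ (-a) ≤ y ^ (-a) := zpow_le_zpow_left₀ (by omega) hcx.le h1
    have h4 : y ^ a ≤ (c * x) ^ a := by
      have h5 : 0 < (c * x) ^ (-a) := zpow_pos hcx _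
      have h6 := inv_anti₀ h5 h3
      rwa [← zpow_neg, ← zpow_neg, neg_neg] at h6
    rw [mul_zpow] at h4
    nlinarith [mul_pos hCa hxa]

section

variable {V F G H : Type} [NormedAddCommGroup V] [NormedSpace ℝ V]
  [NormedAddCommGroup F] [NormedSpace ℝ F] [NormedAddCommGroup G] [NormedSpace ℝ G]
  [NormedAddCommGroup H] [NormedSpace ℝ H]

theorem upper_of_asy {φ : V → V} (h : Asy false 1 φ) :
    ∃ C : ℝ, 0 < C ∧ ∀ᶠ z in 𝓝[≠] (0:V), ‖φ z‖ ≤ C * ‖z‖ := by
  have h1 : φ =O[𝓝[≠] (0:V)] fun z => ‖z‖ ^ (1:ℤ) := h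
  obtain ⟨C, hC, hb⟩ := h1.exists_pos
  refine ⟨C, hC, ?_⟩
  filter_upwards [hb.bound] with z hz
  simpa using hz

theorem tendsto_of_comparable {φ : V → V} (h : Asy false 1 φ) {c : ℝ} (hc : 0 < c)
    (hlow : ∀ᶠ z in 𝓝[≠] (0:V), c * ‖z‖ ≤ ‖φ z‖) : Tendsto φ (𝓝[≠] (0:V)) (𝓝[≠] (0:V)) := by
  obtain ⟨C, hC, hup⟩ := upper_of_asy h
  refine tendsto_nhdsWithin_iff.2 ⟨?_, ?_⟩
  · rw [tendsto_zero_iff_norm_tendsto_zero]
    have h1 : Tendsto (fun z : V => C * ‖z‖) (𝓝 (0:V)) (𝓝 0) := by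
      have : Tendsto (fun z : V => C * ‖z‖) (𝓝 (0:V)) (𝓝 (C * ‖(0:V)‖)) :=
        (continuous_const.mul continuous_norm).tendsto _
      simpa using this
    refine squeeze_zero' (Eventually.of_forall fun z => norm_nonneg _) hup
      (h1.mono_left nhdsWithin_le_nhds)
  · filter_upwards [hlow, eventually_ne_zero] with z hz hz0
    have : 0 < c * ‖z‖ := mul_pos hc (norm_pos_iff.2 hz0)
    simp only [Set.mem_compl_iff, Set.mem_singleton_iff]
    intro h0
    rw [h0, norm_zero] at hz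
    linarith

theorem Asy.comp {b : Bool} {a : ℤ} {q : V → F} {φ : V → V} (hq : Asy b a q)
    (h : Asy false 1 φ) {c : ℝ} (hc : 0 < c)
    (hlow : ∀ᶠ z in 𝓝[≠] (0:V), c * ‖z‖ ≤ ‖φ z‖) : Asy b a (fun z => q (φ z)) := by
  obtain ⟨C, hC, hup⟩ := upper_of_asy h
  have ht := tendsto_of_comparable h hc hlow
  have key : (fun z : V => ‖φ z‖ ^ a) =O[𝓝[≠] (0:V)] fun z => ‖z‖ ^ a := by
    refine IsBigO.of_bound (c ^ a + C ^ a) ?_
    filter_upwards [hlow, hup, eventually_ne_zero] with z h1 h2 h3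
    have hz : 0 < ‖z‖ := norm_pos_iff.2 h3
    rw [Real.norm_of_nonneg (by positivity), Real.norm_of_nonneg (by positivity)]
    exact zpow_le_of_between hz hc h1 h2 a
  cases b
  · exact (IsBigO.comp_tendsto hq ht).trans key
  · exact (IsLittleO.comp_tendsto hq ht).trans_isBigO key

theorem Sm.comp {q : V → F} {φ : V → V} (hq : Sm q) (hφ : Sm φ)
    (ht : Tendsto φ (𝓝[≠] (0:V)) (𝓝[≠] (0:V))) : Sm (fun z => q (φ z)) := by
  filter_upwards [ht.eventually hq, hφ] with z h1 h2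
  exact ContDiffAt.comp z h1 h2

theorem fderiv_comp_punctured {q : V → F} {φ : V → V} (hq : Sm q) (hφ : Sm φ)
    (ht : Tendsto φ (𝓝[≠] (0:V)) (𝓝[≠] (0:V))) :
    (fun z => ContinuousLinearMap.compL ℝ V V F (fderiv ℝ q (φ z)) (fderiv ℝ φ z))
      =ᶠ[𝓝[≠] (0:V)] fderiv ℝ (fun z => q (φ z)) := by
  filter_upwards [ht.eventually hq.differentiableAt, hφ.differentiableAt] with z h1 h2
  exact (fderiv_comp z h1 h2).symm

theorem Cl.comp {b : Bool} {φ : V → V} {c : ℝ} (hc : 0 < c)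
    (hlow : ∀ᶠ z in 𝓝[≠] (0:V), c * ‖z‖ ≤ ‖φ z‖) : ∀ {j : ℕ} {a : ℤ} {F : Type}
    [NormedAddCommGroup F] [NormedSpace ℝ F] {q : V → F}, Cl V b j a q → Cl V false j 1 φ →
    Cl V b j a (fun z => q (φ z)) := by
  intro j
  induction j with
  | zero =>
    intro a F _ _ q hq hφ
    exact ⟨hq.sm.comp hφ.sm (tendsto_of_comparable hφ.asy hc hlow), hq.asy.comp hφ.asy hc hlow⟩
  | succ j ih =>
    intro a F _ _ q hq hφ
    refine ⟨⟨hq.sm.comp hφ.sm (tendsto_of_comparable hφ.asy hc hlow),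
      hq.asy.comp hφ.asy hc hlow⟩, ?_⟩
    have h1 := ih hq.2 hφ.down
    have h2 := h1.bilin hφ.2 (ContinuousLinearMap.compL ℝ V V F)
    rw [Bool.or_false, show a - 1 + (1 - 1) = a - 1 by ring] at h2
    exact h2.congr (fderiv_comp_punctured hq.sm hφ.sm (tendsto_of_comparable hφ.asy hc hlow))

theorem Asy.diff {a : ℤ} {q : V → F} {φ A : V → V} (hqs : Sm q) (hq : Asy false (a - 1) (fderiv ℝ q))
    (hA : Asy false 1 A) {c : ℝ} (hc : 0 < c)
    (hlowA : ∀ᶠ z in 𝓝[≠] (0:V), c * ‖z‖ ≤ ‖A z‖)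
    (hd : Asy true 1 (fun z => φ z - A z)) : Asy true a (fun z => q (φ z) - q (A z)) := by
  obtain ⟨C, hC, hupA⟩ := upper_of_asy hA
  have hq1 : (fderiv ℝ q) =O[𝓝[≠] (0:V)] fun z => ‖z‖ ^ (a - 1) := hq
  obtain ⟨K, hK, hKb⟩ := hq1.exists_pos
  have hall := hKb.bound.and hqs.differentiableAt
  rw [eventually_nhdsWithin_iff, Metric.eventually_nhds_iff] at hall
  obtain ⟨r, hr, hball⟩ := hall
  have hd1 : (fun z => φ z - A z) =o[𝓝[≠] (0:V)] fun z => ‖z‖ ^ (1:ℤ) := hd
  have hsmall := hd1.bound (half_pos hc)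
  set c' := c / 2 with hc'
  set C' := C + c / 2 with hC'
  have hc'pos : 0 < c' := by positivity
  have hC'pos : 0 < C' := by positivity
  have hmain : (fun z => q (φ z) - q (A z)) =O[𝓝[≠] (0:V)]
      fun z => ‖z‖ ^ (a - 1) * ‖φ z - A z‖ := by
    refine IsBigO.of_bound (K * (c' ^ (a - 1) + C' ^ (a - 1))) ?_
    have hrr : 0 < r / C' := by positivity
    filter_upwards [hupA, hlowA, hsmall, eventually_ne_zero, eventually_norm_lt (r / C') hrr]
      with z h1 h2 h3 h4 h5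
    have hz : 0 < ‖z‖ := norm_pos_iff.2 h4
    simp only [zpow_one, norm_norm] at h3
    have hseg : ∀ w ∈ segment ℝ (A z) (φ z), c' * ‖z‖ ≤ ‖w‖ ∧ ‖w‖ ≤ C' * ‖z‖ := by
      intro w hw
      have h6 : ‖w - A z‖ ≤ ‖φ z - A z‖ := by
        obtain ⟨t, ⟨ht0, ht1⟩, rfl⟩ := (segment_eq_image' ℝ (A z) (φ z)) ▸ hw
        rw [add_sub_cancel_left, norm_smul, Real.norm_of_nonneg ht0]
        exact mul_le_of_le_one_left (norm_nonneg _) ht1
      have h7 : ‖w - A z‖ ≤ c / 2 * ‖z‖ := h6.trans h3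
      constructor
      · have : ‖A z‖ ≤ ‖w‖ + ‖w - A z‖ := by
          have := norm_sub_le w (w - A z)
          simpa using this
        rw [hc']
        nlinarith
      · have : ‖w‖ ≤ ‖A z‖ + ‖w - A z‖ := by
          have := norm_add_le (A z) (w - A z)
          simpa using this
        rw [hC']
        nlinarith
    have hw2 : ∀ w ∈ segment ℝ (A z) (φ z), DifferentiableAt ℝ q w ∧
        ‖fderiv ℝ q w‖ ≤ K * (c' ^ (a - 1) + C' ^ (a - 1)) * ‖z‖ ^ (a - 1) := by
      intro w hw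
      obtain ⟨h6, h7⟩ := hseg w hw
      have hw0 : 0 < ‖w‖ := lt_of_lt_of_le (by positivity) h6
      have hwr : dist w 0 < r := by
        rw [dist_zero_right]
        calc ‖w‖ ≤ C' * ‖z‖ := h7
          _ < C' * (r / C') := by gcongr
          _ = r := by field_simp
      have h8 := hball hwr (by simpa using norm_pos_iff.1 hw0)
      refine ⟨h8.2, h8.1.trans ?_⟩
      rw [Real.norm_of_nonneg (by positivity), mul_assoc]
      gcongr
      exact zpow_le_of_between hz hc'pos h6 h7 _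
    have hmv := Convex.norm_image_sub_le_of_norm_fderiv_le (fun w hw => (hw2 w hw).1)
      (fun w hw => (hw2 w hw).2) (convex_segment (𝕜 := ℝ) (A z) (φ z))
      (left_mem_segment ℝ _ _) (right_mem_segment ℝ _ _)
    refine hmv.trans (le_of_eq ?_)
    rw [Real.norm_of_nonneg (by positivity)]
    ring
  have hlast : (fun z => ‖z‖ ^ (a - 1) * ‖φ z - A z‖) =o[𝓝[≠] (0:V)] fun z => ‖z‖ ^ a := by
    have h1 := (isBigO_refl (fun z : V => ‖z‖ ^ (a - 1)) (𝓝[≠] (0:V))).mul_isLittleO hd1.norm_left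
    refine h1.congr' (EventuallyEq.refl _ _) ?_
    filter_upwards [eventually_ne_zero] with z hz
    rw [← zpow_add₀ (norm_ne_zero_iff.2 hz)]
    congr 1
    ring
  exact hmain.trans_isLittleO hlast

theorem Cl.diff {φ A : V → V} {c c₂ : ℝ} (hc : 0 < c) (hc₂ : 0 < c₂)
    (hlowA : ∀ᶠ z in 𝓝[≠] (0:V), c * ‖z‖ ≤ ‖A z‖)
    (hlowφ : ∀ᶠ z in 𝓝[≠] (0:V), c₂ * ‖z‖ ≤ ‖φ z‖) : ∀ {j : ℕ} {a : ℤ} {F : Type}
    [NormedAddCommGroup F] [NormedSpace ℝ F] {q : V → F}, Cl V false (j+1) a q →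
    Cl V false j 1 φ → Cl V false j 1 A → Cl V true j 1 (fun z => φ z - A z) →
    Cl V true j a (fun z => q (φ z) - q (A z)) := by
  intro j
  induction j with
  | zero =>
    intro a F _ _ q hq hφ hA hd
    have hsub : Sm (fun z => q (φ z) - q (A z)) := by
      filter_upwards [hq.sm.comp hφ.sm (tendsto_of_comparable hφ.asy hc₂ hlowφ),
        hq.sm.comp hA.sm (tendsto_of_comparable hA.asy hc hlowA)] with z h1 h2
      exact h1.sub h2
    exact ⟨hsub, Asy.diff hq.sm hq.2.asy hA.asy hc hlowA hd.asy⟩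
  | succ j ih =>
    intro a F _ _ q hq hφ hA hd
    have hsub : Sm (fun z => q (φ z) - q (A z)) := by
      filter_upwards [hq.sm.comp hφ.sm (tendsto_of_comparable hφ.asy hc₂ hlowφ),
        hq.sm.comp hA.sm (tendsto_of_comparable hA.asy hc hlowA)] with z h1 h2
      exact h1.sub h2
    refine ⟨⟨hsub, Asy.diff hq.sm hq.2.asy hA.asy hc hlowA hd.asy⟩, ?_⟩
    -- first term
    have e1 := (ih hq.2 hφ.down hA.down hd.down).bilin hφ.2 (ContinuousLinearMap.compL ℝ V V F)
    have e2 := (Cl.comp (b := false) hc hlowA hq.2.down hA.down).bilin hd.2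
      (ContinuousLinearMap.compL ℝ V V F)
    rw [show a - 1 + (1 - 1) = a - 1 by ring] at e1 e2
    have e3 : Cl V true j (a - 1) _ := Cl.add e1 e2
    refine e3.congr ?_
    filter_upwards [(tendsto_of_comparable hφ.asy hc₂ hlowφ).eventually hq.sm.differentiableAt,
      (tendsto_of_comparable hA.asy hc hlowA).eventually hq.sm.differentiableAt,
      hφ.sm.differentiableAt, hA.sm.differentiableAt] with z h1 h2 h3 h4
    have k1 : HasFDerivAt (fun z => q (φ z) - q (A z))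
        ((fderiv ℝ q (φ z)).comp (fderiv ℝ φ z) - (fderiv ℝ q (A z)).comp (fderiv ℝ A z)) z :=
      (h1.hasFDerivAt.comp z h3.hasFDerivAt).sub (h2.hasFDerivAt.comp z h4.hasFDerivAt)
    have k2 : fderiv ℝ (fun z => φ z - A z) z = fderiv ℝ φ z - fderiv ℝ A z :=
      fderiv_fun_sub h3 h4
    rw [k1.fderiv, k2]
    ext v
    simp [ContinuousLinearMap.compL_apply]

/-- A function which is smooth off the origin, vanishes there and whose derivatives up to order
`k` are `o(‖z‖ ^ (k - i))`, is of class `C^k`. -/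
theorem contDiff_of_Cl : ∀ (k : ℕ) {F : Type} [NormedAddCommGroup F] [NormedSpace ℝ F]
    {f : V → F}, (∀ z ≠ 0, ContDiffAt ℝ ∞ f z) → f 0 = 0 → Cl V true k k f →
    ContDiff ℝ k f := by
  intro k
  induction k with
  | zero =>
    intro F _ _ f hf h0 hcl
    have : ContDiff ℝ 0 f := by
      rw [contDiff_zero]
      rw [continuous_iff_continuousAt]
      intro z
      by_cases hz : z = 0
      · subst hz
        rw [continuousAt_iff_punctured_nhds, h0]
        have h1 : f =o[𝓝[≠] (0:V)] fun z => ‖z‖ ^ ((0:ℕ):ℤ) := hcl.asy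
        simp only [Nat.cast_zero, zpow_zero] at h1
        exact (isLittleO_one_iff ℝ).1 h1
      · exact (hf z hz).continuousAt
    exact_mod_cast this
  | succ k ih =>
    intro F _ _ f hf h0 hcl
    have h1 : f =o[𝓝[≠] (0:V)] fun z => ‖z‖ ^ (((k+1:ℕ):ℤ)) := hcl.asy
    have h2 : f =o[𝓝[≠] (0:V)] fun z => ‖z‖ ^ (1:ℤ) := by
      refine h1.trans_isBigO (zpow_isBigO ?_)
      push_cast
      omega
    have hd0 : HasFDerivAt f (0 : V →L[ℝ] F) 0 := by
      rw [hasFDerivAt_iff_isLittleO_nhds_zero]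
      simp only [zero_add, h0, sub_zero, _root_.zero_apply]
      rw [isLittleO_iff]
      intro ε hε
      have h3 := h2.bound hε
      rw [eventually_nhdsWithin_iff] at h3
      filter_upwards [h3] with z hz
      by_cases hz0 : z = 0
      · subst hz0
        simp [h0]
      · simpa using hz hz0
    have hdiff : Differentiable ℝ f := by
      intro z
      by_cases hz : z = 0
      · subst hz
        exact hd0.differentiableAt
      · exact (hf z hz).differentiableAt (by simp)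
    have hk : ContDiff ℝ k (fderiv ℝ f) := by
      refine ih ?_ hd0.fderiv ?_
      · intro z hz
        exact (hf z hz).fderiv_right (by simp)
      · have := hcl.2
        have e : (((k+1:ℕ):ℤ) - 1) = ((k:ℕ):ℤ) := by push_cast; ring
        rwa [e] at this
    have := (contDiff_succ_iff_fderiv (𝕜 := ℝ) (f := f) (n := (k : WithTop ℕ∞))).2
      ⟨hdiff, by simp, hk⟩
    exact_mod_cast this

end

end Q191
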