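import Pool.Agent.Q191.Ell

open Filter Asymptotics Topology
open scoped ContDiff

set_option linter.unusedSectionVars false

namespace Q191

variable {V : Type} [NormedAddCommGroup V] [InnerProductSpace ℝ V]

/-- the constant -/
noncomputable def cst (k : ℕ) : ℝ := 1 / (2 * (k + 2))

theorem cst_pos (k : ℕ) : 0 < cst k := by unfold cst; positivity

/-- the perturbation function -/
noncomputable def pert (k : ℕ) (t : V →L[ℝ] ℝ) (z : V) : ℝ :=
  cst k * Real.sin (t z) ^ k * ell z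

theorem pert_zero {k : ℕ} (hk : 1 ≤ k) (t : V →L[ℝ] ℝ) : pert k t 0 = 0 := by
  have : k ≠ 0 := by omega
  simp [pert, this]

theorem sinpow_contDiff (k : ℕ) (t : V →L[ℝ] ℝ) : ContDiff ℝ ∞ (fun z => Real.sin (t z) ^ k) :=
  (t.contDiff.sin).pow k

theorem pert_contDiffAt (k : ℕ) (t : V →L[ℝ] ℝ) {z : V} (hz : z ≠ 0) :
    ContDiffAt ℝ ∞ (pert k t) z :=
  (contDiffAt_const.mul (sinpow_contDiff k t).contDiffAt).mul (ell_contDiffAt hz)

theorem ell_abs_le (z : V) : |ell z| ≤ 1 := Real.abs_sin_le_one _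

theorem abs_sin_le_norm (t : V →L[ℝ] ℝ) (ht : ‖t‖ ≤ 1) (z : V) : |Real.sin (t z)| ≤ ‖z‖ := by
  have h1 : |Real.sin (t z)| ≤ |t z| := Real.abs_sin_le_abs
  have h2 : |t z| ≤ ‖t‖ * ‖z‖ := t.le_opNorm z
  have h3 : ‖t‖ * ‖z‖ ≤ 1 * ‖z‖ := by gcongr
  linarith

theorem abs_sinpow_le {k : ℕ} (hk : 1 ≤ k) (t : V →L[ℝ] ℝ) (ht : ‖t‖ ≤ 1) (z : V) :
    |Real.sin (t z) ^ k| ≤ ‖z‖ := by
  rw [abs_pow]
  have h1 : |Real.sin (t z)| ≤ 1 := Real.abs_sin_le_one _
  have h2 : |Real.sin (t z)| ^ k ≤ |Real.sin (t z)| ^ 1 :=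
    pow_le_pow_of_le_one (abs_nonneg _) h1 hk
  rw [pow_one] at h2
  exact h2.trans (abs_sin_le_norm t ht z)

theorem pert_abs_le {k : ℕ} (hk : 1 ≤ k) (t : V →L[ℝ] ℝ) (ht : ‖t‖ ≤ 1) (z : V) :
    |pert k t z| ≤ 1 / 2 * ‖z‖ := by
  unfold pert
  rw [abs_mul, abs_mul, abs_of_pos (cst_pos k)]
  have h1 := abs_sinpow_le hk t ht z
  have h2 := ell_abs_le z
  have h3 : cst k ≤ 1 / 2 := by
    unfold cst
    rw [div_le_div_iff₀ (by positivity) (by norm_num)]
    have : (0:ℝ) ≤ k := Nat.cast_nonneg k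
    linarith
  have h4 := cst_pos k
  calc cst k * |Real.sin (t z) ^ k| * |ell z| ≤ (1/2) * ‖z‖ * 1 := by gcongr
    _ = 1 / 2 * ‖z‖ := by ring

theorem pert_hasFDerivAt (k : ℕ) (t : V →L[ℝ] ℝ) {z : V} (hz : z ≠ 0) :
    HasFDerivAt (pert k t)
      ((cst k * Real.sin (t z) ^ k) • fderiv ℝ (ell : V → ℝ) z +
        (ell z * (cst k * (k * Real.sin (t z) ^ (k - 1) * Real.cos (t z)))) • t) z := by
  have h1 : HasFDerivAt (fun z => Real.sin (t z)) (Real.cos (t z) • t) z := t.hasFDerivAt.sin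
  have h2 := (h1.pow k).const_mul (cst k)
  have h3 := (ell_hasFDerivAt hz).differentiableAt.hasFDerivAt
  have h4 := h2.mul h3
  refine h4.congr_fderiv ?_
  ext v
  simp
  ring

theorem pert_fderiv_norm {k : ℕ} (hk : 1 ≤ k) (t : V →L[ℝ] ℝ) (ht : ‖t‖ ≤ 1) {z : V}
    (hz : z ≠ 0) : ‖fderiv ℝ (pert k t) z‖ ≤ 1 / 2 := by
  have hz' : 0 < ‖z‖ := norm_pos_iff.2 hz
  rw [(pert_hasFDerivAt k t hz).fderiv]
  refine (norm_add_le _ _).trans ?_
  rw [norm_smul, norm_smul]
  have h1 := abs_sinpow_le hk t ht z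
  have h2 := ell_abs_le z
  have h3 := ell_fderiv_norm hz
  have h4 := cst_pos k
  have h5 : |Real.sin (t z) ^ (k-1)| ≤ 1 := by
    rw [abs_pow]
    exact pow_le_one₀ (abs_nonneg _) (Real.abs_sin_le_one _)
  have h6 : |Real.cos (t z)| ≤ 1 := Real.abs_cos_le_one _
  rw [Real.norm_eq_abs, Real.norm_eq_abs, abs_mul, abs_mul, abs_mul, abs_mul, abs_mul,
    abs_of_pos h4, Nat.abs_cast]
  calc cst k * |Real.sin (t z) ^ k| * ‖fderiv ℝ (ell : V → ℝ) z‖ +
        |ell z| * (cst k * (k * |Real.sin (t z) ^ (k - 1)| * |Real.cos (t z)|)) * ‖t‖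
      ≤ cst k * ‖z‖ * (2 / ‖z‖) + 1 * (cst k * (k * 1 * 1)) * 1 := by gcongr
    _ = cst k * (k + 2) := by field_simp; ring
    _ = 1 / 2 := by unfold cst; field_simp

theorem pert_lipschitz {k : ℕ} (hk : 1 ≤ k) (t : V →L[ℝ] ℝ) (ht : ‖t‖ ≤ 1) (z w : V) :
    |pert k t z - pert k t w| ≤ 1 / 2 * ‖z - w‖ := by
  by_cases h : (0:V) ∈ segment ℝ w z
  · have h1 := dist_add_dist_of_mem_segment h
    rw [dist_zero_right, dist_zero_left, dist_eq_norm, norm_sub_rev] at h1
    have h2 := pert_abs_le hk t ht z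
    have h3 := pert_abs_le hk t ht w
    have h4 := abs_sub (pert k t z) (pert k t w)
    rw [← h1]
    linarith
  · have hne : ∀ x ∈ segment ℝ w z, x ≠ 0 := by
      intro x hx h0
      exact h (h0 ▸ hx)
    have := Convex.norm_image_sub_le_of_norm_fderiv_le (𝕜 := ℝ) (f := pert k t) (C := 1 / 2)
      (fun x hx => (pert_hasFDerivAt k t (hne x hx)).differentiableAt)
      (fun x hx => pert_fderiv_norm hk t ht (hne x hx)) (convex_segment (𝕜 := ℝ) w z)
      (left_mem_segment ℝ _ _) (right_mem_segment ℝ _ _)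
    simpa using this

theorem pert_Cl {k : ℕ} (t : V →L[ℝ] ℝ) {j : ℕ} : Cl V false j k (pert k t) := by
  have h1 : Cl V false j 1 (fun z => Real.sin (t z)) :=
    Cl.of_contDiff_zero t.contDiff.sin (by simp)
  have h2 : ∀ i : ℕ, Cl V false j i (fun z => Real.sin (t z) ^ i) := by
    intro i
    induction i with
    | zero =>
      simpa using (Cl.of_const (V := V) (j := j) (1:ℝ))
    | succ i ih =>
      have := ih.mul h1
      refine (show Cl V false j ((i:ℤ) + 1) _ from this).congr ?_ |> fun h => by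
        simpa using h
      filter_upwards with z
      rw [pow_succ]
  have h3 := ((h2 k).mul (ell_cos_Cl (V := V) (j := j)).1).const_smul (cst k)
  have h4 : Cl V false j k (fun z => cst k • (Real.sin (t z) ^ k * ell z)) := by
    simpa using h3
  refine h4.congr ?_
  filter_upwards with z
  simp [pert, mul_assoc]

theorem pert_sub_Cl {k : ℕ} (t : V →L[ℝ] ℝ) {j : ℕ} (A : V →L[ℝ] V) (hA : ∀ z, t (A z) = t z)
    {c : ℝ} (hc : 0 < c) (hlow : ∀ z, c * ‖z‖ ≤ ‖A z‖) :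
    Cl V true j k (fun z => pert k t z - pert k t (A z)) := by
  have h1 : Cl V false j 1 (fun z => Real.sin (t z)) :=
    Cl.of_contDiff_zero t.contDiff.sin (by simp)
  have h2 : ∀ i : ℕ, Cl V false j i (fun z => Real.sin (t z) ^ i) := by
    intro i
    induction i with
    | zero =>
      simpa using (Cl.of_const (V := V) (j := j) (1:ℝ))
    | succ i ih =>
      have := ih.mul h1
      refine (show Cl V false j ((i:ℤ) + 1) _ from this).congr ?_ |> fun h => by
        simpa using h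
      filter_upwards with z
      rw [pow_succ]
  have h5 := ell_sub_Cl (j := j) (A := fun z => A z) hc (Eventually.of_forall hlow) (Cl.of_clm A)
  have h3 := ((h2 k).mul h5).const_smul (cst k)
  have h4 : Cl V true j k (fun z => cst k • (Real.sin (t z) ^ k * (ell z - ell (A z)))) := by
    simpa using h3
  refine h4.congr ?_
  filter_upwards with z
  simp only [pert, hA, smul_eq_mul]
  ring

/-- the perturbed identity -/
noncomputable def psiFun (k : ℕ) (t : V →L[ℝ] ℝ) (e : V) (z : V) : V := z + pert k t z • e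

theorem psiFun_approx {k : ℕ} (hk : 1 ≤ k) (t : V →L[ℝ] ℝ) (ht : ‖t‖ ≤ 1) {e : V}
    (he : ‖e‖ ≤ 1) : ApproximatesLinearOn (psiFun k t e)
      ((ContinuousLinearEquiv.refl ℝ V : V ≃L[ℝ] V) : V →L[ℝ] V) Set.univ (1/2) := by
  intro x _ y _
  have h1 : psiFun k t e x - psiFun k t e y -
      ((ContinuousLinearEquiv.refl ℝ V : V ≃L[ℝ] V) : V →L[ℝ] V) (x - y)
      = (pert k t x - pert k t y) • e := by
    simp only [psiFun, ContinuousLinearEquiv.coe_refl, ContinuousLinearMap.id_apply, sub_smul]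
    abel
  rw [h1, norm_smul, Real.norm_eq_abs]
  have h2 := pert_lipschitz hk t ht x y
  have h3 : ((1/2 : NNReal) : ℝ) = 1/2 := by norm_num
  rw [h3]
  calc |pert k t x - pert k t y| * ‖e‖ ≤ (1 / 2 * ‖x - y‖) * 1 := by gcongr
    _ = 1 / 2 * ‖x - y‖ := by ring

section Homeo

variable [CompleteSpace V] [Nontrivial V]

theorem half_lt : (1/2 : NNReal) <
    ‖(((ContinuousLinearEquiv.refl ℝ V : V ≃L[ℝ] V).symm : V ≃L[ℝ] V) : V →L[ℝ] V)‖₊⁻¹ := by
  have : ‖(((ContinuousLinearEquiv.refl ℝ V : V ≃L[ℝ] V).symm : V ≃L[ℝ] V) : V →L[ℝ] V)‖₊ = 1 := by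
    simp
  rw [this]
  rw [inv_one]
  exact NNReal.half_lt_self one_ne_zero

/-- the homeomorphism `Psi z = z + f(z) e` -/
noncomputable def psi {k : ℕ} (hk : 1 ≤ k) (t : V →L[ℝ] ℝ) (ht : ‖t‖ ≤ 1) {e : V}
    (he : ‖e‖ ≤ 1) : V ≃ₜ V :=
  (psiFun_approx hk t ht he).toHomeomorph _ (Or.inr half_lt)

variable {k : ℕ} (hk : 1 ≤ k) (t : V →L[ℝ] ℝ) (ht : ‖t‖ ≤ 1) {e : V} (he : ‖e‖ ≤ 1)

theorem psi_apply (z : V) : psi hk t ht he z = z + pert k t z • e := rfl

theorem psi_zero : psi hk t ht he 0 = 0 := by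
  rw [psi_apply, pert_zero hk]
  simp

theorem psi_symm_zero : (psi hk t ht he).symm 0 = 0 := by
  rw [Homeomorph.symm_apply_eq, psi_zero]

theorem psi_ne_zero {z : V} (hz : z ≠ 0) : psi hk t ht he z ≠ 0 := by
  intro h
  apply hz
  have := (psi hk t ht he).injective (h.trans (psi_zero hk t ht he).symm)
  exact this

theorem psi_symm_ne_zero {z : V} (hz : z ≠ 0) : (psi hk t ht he).symm z ≠ 0 := by
  intro h
  apply hz
  rw [Homeomorph.symm_apply_eq, psi_zero] at h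
  exact h

theorem psi_contDiffAt {z : V} (hz : z ≠ 0) : ContDiffAt ℝ ∞ (psi hk t ht he) z :=
  contDiffAt_id.add ((pert_contDiffAt k t hz).smul contDiffAt_const)

theorem psi_norm_sub_le (z : V) : ‖psi hk t ht he z - z‖ ≤ 1 / 2 * ‖z‖ := by
  rw [psi_apply, add_sub_cancel_left, norm_smul, Real.norm_eq_abs]
  calc |pert k t z| * ‖e‖ ≤ (1 / 2 * ‖z‖) * 1 := by
        gcongr
        exact pert_abs_le hk t ht z
    _ = 1 / 2 * ‖z‖ := by ring

theorem psi_norm_le (z : V) : ‖psi hk t ht he z‖ ≤ 3 / 2 * ‖z‖ := by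
  have h1 := psi_norm_sub_le hk t ht he z
  have h2 := norm_add_le (psi hk t ht he z - z) z
  rw [sub_add_cancel] at h2
  linarith

theorem psi_norm_ge (z : V) : 1 / 2 * ‖z‖ ≤ ‖psi hk t ht he z‖ := by
  have h1 := psi_norm_sub_le hk t ht he z
  have h2 := norm_sub_le (psi hk t ht he z) (psi hk t ht he z - z)
  rw [sub_sub_cancel] at h2
  linarith

theorem psi_symm_norm_le (z : V) : ‖(psi hk t ht he).symm z‖ ≤ 2 * ‖z‖ := by
  have := psi_norm_ge hk t ht he ((psi hk t ht he).symm z)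
  rw [Homeomorph.apply_symm_apply] at this
  linarith

theorem psi_symm_norm_ge (z : V) : 2 / 3 * ‖z‖ ≤ ‖(psi hk t ht he).symm z‖ := by
  have := psi_norm_le hk t ht he ((psi hk t ht he).symm z)
  rw [Homeomorph.apply_symm_apply] at this
  linarith

theorem psi_symm_contDiffAt {z : V} (hz : z ≠ 0) : ContDiffAt ℝ ∞ (psi hk t ht he).symm z := by
  set Φ := (psi hk t ht he).toOpenPartialHomeomorph with hΦ
  have hz' := psi_symm_ne_zero hk t ht he hz
  set x := (psi hk t ht he).symm z with hx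
  set T : V →L[ℝ] V := -((fderiv ℝ (pert k t) x).smulRight e) with hT
  have hTn : ‖T‖ < 1 := by
    rw [hT, norm_neg, ContinuousLinearMap.norm_smulRight_apply]
    have h1 := pert_fderiv_norm hk t ht hz'
    calc ‖fderiv ℝ (pert k t) x‖ * ‖e‖ ≤ 1 / 2 * 1 := by gcongr
      _ < 1 := by norm_num
  set U := ContinuousLinearEquiv.unitsEquiv ℝ V (Units.oneSub T hTn) with hU
  have hUc : (U : V →L[ℝ] V) = ContinuousLinearMap.id ℝ V + (fderiv ℝ (pert k t) x).smulRight e := by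
    ext v
    rw [ContinuousLinearEquiv.coe_coe, hU, ContinuousLinearEquiv.unitsEquiv_apply,
      Units.val_oneSub]
    simp [hT]
  have hfd : HasFDerivAt (psi hk t ht he) (U : V →L[ℝ] V) x := by
    rw [hUc]
    exact (hasFDerivAt_id x).add
      (((pert_hasFDerivAt k t hz').differentiableAt.hasFDerivAt).smul_const e)
  exact Φ.contDiffAt_symm (a := z) (by simp [hΦ]) (f₀' := U) hfd (psi_contDiffAt hk t ht he hz')

end Homeo

end Q191
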