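import Pool.Agent.Q191.Conj

open Filter Asymptotics Topology
open scoped ContDiff

set_option linter.unusedSectionVars false

namespace Q191

theorem hasFDerivAt_zero_of_asy {V F : Type} [NormedAddCommGroup V] [NormedSpace ℝ V]
    [NormedAddCommGroup F] [NormedSpace ℝ F] {f : V → F} (h0 : f 0 = 0) (h2 : Asy true 1 f) :
    HasFDerivAt f (0 : V →L[ℝ] F) 0 := by
  have h2' : f =o[𝓝[≠] (0:V)] fun z => ‖z‖ ^ (1:ℤ) := h2
  rw [hasFDerivAt_iff_isLittleO_nhds_zero]
  simp only [zero_add, h0, sub_zero, _root_.zero_apply]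
  rw [isLittleO_iff]
  intro ε hε
  have h3 := h2'.bound hε
  rw [eventually_nhdsWithin_iff] at h3
  filter_upwards [h3] with z hz
  by_cases hz0 : z = 0
  · subst hz0
    simp [h0]
  · simpa using hz hz0

variable {V : Type} [NormedAddCommGroup V] [InnerProductSpace ℝ V] [CompleteSpace V] [Nontrivial V]

variable {k : ℕ} (hk : 1 ≤ k) (t : V →L[ℝ] ℝ) (ht : ‖t‖ ≤ 1) {e : V} (he : ‖e‖ ≤ 1)

/-- the conjugated linear map -/
noncomputable def beta (A : V →L[ℝ] V) (z : V) : V :=
  (psi hk t ht he).symm (A (psi hk t ht he z))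

theorem psi_beta (A : V →L[ℝ] V) (z : V) :
    psi hk t ht he (beta hk t ht he A z) = A (psi hk t ht he z) := by
  simp [beta]

theorem beta_id (z : V) : beta hk t ht he (ContinuousLinearMap.id ℝ V) z = z := by
  simp [beta]

theorem beta_comp (A B : V →L[ℝ] V) (z : V) :
    beta hk t ht he (A.comp B) z = beta hk t ht he A (beta hk t ht he B z) := by
  simp [beta]

theorem beta_zero (A : V →L[ℝ] V) : beta hk t ht he A 0 = 0 := by
  simp [beta, psi_zero, psi_symm_zero]

/-- the vertical displacement -/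
noncomputable def hgt (A : V →L[ℝ] V) (z : V) : ℝ := pert k t z - pert k t (beta hk t ht he A z)

theorem hgt_zero (A : V →L[ℝ] V) : hgt hk t ht he A 0 = 0 := by
  simp [hgt, beta_zero]

section fixedA

variable {A : V →L[ℝ] V} (hAe : A e = e)

include hAe in
theorem beta_eq (z : V) : beta hk t ht he A z = A z + hgt hk t ht he A z • e := by
  have h1 := psi_beta hk t ht he A z
  rw [psi_apply, psi_apply, map_add, map_smul, hAe] at h1
  rw [hgt, sub_smul, ← add_sub_assoc, ← h1]
  abel

include hAe in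
theorem hgt_abs_le (z : V) : |hgt hk t ht he A z| ≤ 2 * |pert k t z - pert k t (A z)| := by
  have h1 := beta_eq hk t ht he hAe z
  have h2 := pert_lipschitz hk t ht (A z) (beta hk t ht he A z)
  have h3 : ‖A z - beta hk t ht he A z‖ ≤ |hgt hk t ht he A z| := by
    rw [h1, sub_add_cancel_left, norm_neg, norm_smul, Real.norm_eq_abs]
    exact mul_le_of_le_one_right (abs_nonneg _) he
  have h4 : hgt hk t ht he A z = (pert k t z - pert k t (A z)) +
      (pert k t (A z) - pert k t (beta hk t ht he A z)) := by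
    rw [hgt]; ring
  have h5 := abs_add_le (pert k t z - pert k t (A z))
      (pert k t (A z) - pert k t (beta hk t ht he A z))
  rw [← h4] at h5
  linarith

variable {c : ℝ} (hc : 0 < c) (hlow : ∀ z, c * ‖z‖ ≤ ‖A z‖)

include hc hlow in
theorem A_ne_zero {z : V} (hz : z ≠ 0) : A z ≠ 0 := by
  intro h
  have h1 := hlow z
  rw [h, norm_zero] at h1
  have : 0 < c * ‖z‖ := mul_pos hc (norm_pos_iff.2 hz)
  linarith

include hc hlow in
theorem beta_ne_zero {z : V} (hz : z ≠ 0) : beta hk t ht he A z ≠ 0 :=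
  psi_symm_ne_zero hk t ht he (A_ne_zero hc hlow (psi_ne_zero hk t ht he hz))

include hc hlow in
theorem beta_norm_ge (z : V) : (c / 3) * ‖z‖ ≤ ‖beta hk t ht he A z‖ := by
  have h1 := psi_symm_norm_ge hk t ht he (A (psi hk t ht he z))
  have h2 := hlow (psi hk t ht he z)
  have h3 := psi_norm_ge hk t ht he z
  have h4 : c * (1 / 2 * ‖z‖) ≤ c * ‖psi hk t ht he z‖ := by gcongr
  unfold beta
  linarith

include hc hlow in
theorem beta_contDiffAt {z : V} (hz : z ≠ 0) : ContDiffAt ℝ ∞ (beta hk t ht he A) z := by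
  have h1 := psi_contDiffAt hk t ht he hz
  have h2 := psi_symm_contDiffAt hk t ht he (A_ne_zero hc hlow (psi_ne_zero hk t ht he hz))
  exact h2.comp z (A.contDiff.contDiffAt.comp z h1)

include hc hlow in
theorem hgt_contDiffAt {z : V} (hz : z ≠ 0) : ContDiffAt ℝ ∞ (hgt hk t ht he A) z := by
  have h1 := pert_contDiffAt k t (beta_ne_zero hk t ht he hc hlow hz)
  have h2 := beta_contDiffAt hk t ht he hc hlow hz
  exact (pert_contDiffAt k t hz).sub (h1.comp z h2)

include hAe hc hlow in
theorem hgt_fderiv {z : V} (hz : z ≠ 0) :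
    fderiv ℝ (hgt hk t ht he A) z =
      (1 + fderiv ℝ (pert k t) (beta hk t ht he A z) e)⁻¹ •
        (fderiv ℝ (pert k t) z - (fderiv ℝ (pert k t) (beta hk t ht he A z)).comp A) := by
  have hb0 := beta_ne_zero hk t ht he hc hlow hz
  set w := beta hk t ht he A z with hw
  have hh := (hgt_contDiffAt hk t ht he hc hlow hz).differentiableAt (by simp)
  set h' := fderiv ℝ (hgt hk t ht he A) z with hh'
  have hfun : beta hk t ht he A = fun z => A z + hgt hk t ht he A z • e := by
    funext z
    exact beta_eq hk t ht he hAe z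
  have hbeta : HasFDerivAt (beta hk t ht he A) (A + h'.smulRight e) z := by
    rw [hfun]
    exact A.hasFDerivAt.add (hh.hasFDerivAt.smul_const e)
  have hpw := (pert_hasFDerivAt k t hb0).differentiableAt.hasFDerivAt
  have hpz := (pert_hasFDerivAt k t hz).differentiableAt.hasFDerivAt
  have hcomp : HasFDerivAt (fun z => pert k t (beta hk t ht he A z))
      ((fderiv ℝ (pert k t) w).comp (A + h'.smulRight e)) z :=
    HasFDerivAt.comp (g := pert k t) (f := beta hk t ht he A) z hpw hbeta
  have h2 : HasFDerivAt (hgt hk t ht he A)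
      (fderiv ℝ (pert k t) z - (fderiv ℝ (pert k t) w).comp (A + h'.smulRight e)) z :=
    hpz.sub hcomp
  have h3 := h2.fderiv
  rw [← hh'] at h3
  have hk1 : |fderiv ℝ (pert k t) w e| ≤ 1 / 2 := by
    have := (fderiv ℝ (pert k t) w).le_opNorm e
    have h5 := pert_fderiv_norm hk t ht hb0
    calc |fderiv ℝ (pert k t) w e| ≤ ‖fderiv ℝ (pert k t) w‖ * ‖e‖ := this
      _ ≤ 1 / 2 * 1 := by gcongr
      _ = 1 / 2 := by ring
  have hne : (1 + fderiv ℝ (pert k t) w e) ≠ 0 := by
    have := (abs_le.1 hk1).1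
    intro h
    linarith
  rw [eq_inv_smul_iff₀ hne]
  ext v
  have h4 := DFunLike.congr_fun h3 v
  simp only [_root_.sub_apply, ContinuousLinearMap.comp_apply, _root_.add_apply,
    ContinuousLinearMap.smulRight_apply, map_add, map_smul, smul_eq_mul,
    _root_.smul_apply] at h4 ⊢
  linarith

include hc hlow hAe in
theorem hgt_Cl (hAt : ∀ z, t (A z) = t z) : ∀ j : ℕ, Cl V true j k (hgt hk t ht he A) := by
  have hc3 : 0 < c / 3 := by positivity
  have hsm : Sm (hgt hk t ht he A) := Sm_of fun z hz => hgt_contDiffAt hk t ht he hc hlow hz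
  have hasy : Asy true k (hgt hk t ht he A) := by
    have h1 : Asy true k (fun z => pert k t z - pert k t (A z)) :=
      (pert_sub_Cl (j := 0) t A hAt hc hlow).asy
    refine h1.of_isBigO (IsBigO.of_bound 2 (Eventually.of_forall fun z => ?_))
    exact hgt_abs_le hk t ht he hAe z
  have hk1 : (1:ℤ) ≤ k := by exact_mod_cast hk
  intro j
  induction j with
  | zero => exact ⟨hsm, hasy⟩
  | succ j ih =>
    have hAcl : Cl V false j 1 (fun z => A z) := Cl.of_clm A
    have hd : Cl V true j 1 (fun z => hgt hk t ht he A z • e) := by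
      have := (ih.mono hk1).clm ((ContinuousLinearMap.id ℝ ℝ).smulRight e)
      simpa using this
    have hbcl : Cl V false j 1 (beta hk t ht he A) := by
      have := hAcl.add hd.weaken
      refine this.congr ?_
      filter_upwards with z
      exact (beta_eq hk t ht he hAe z).symm
    have hblow : ∀ᶠ z in 𝓝[≠] (0:V), (c / 3) * ‖z‖ ≤ ‖beta hk t ht he A z‖ :=
      Eventually.of_forall (beta_norm_ge hk t ht he hc hlow)
    have hAlow : ∀ᶠ z in 𝓝[≠] (0:V), c * ‖z‖ ≤ ‖A z‖ := Eventually.of_forall hlow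
    -- kappa
    have hD : Cl V false (j+1) ((k:ℤ) - 1) (fderiv ℝ (pert k t)) := (pert_Cl (j := j + 2) t).2
    have hkap : Cl V false j 0 (fun z => fderiv ℝ (pert k t) (beta hk t ht he A z) e) := by
      have h1 := (Cl.comp hc3 hblow hD.down hbcl).mono (show (0:ℤ) ≤ (k:ℤ) - 1 by omega)
      exact h1.clm (ContinuousLinearMap.apply ℝ ℝ e)
    have hkap1 : Cl V false j 0
        (fun z => 1 + fderiv ℝ (pert k t) (beta hk t ht he A z) e) := (Cl.of_const 1).add hkap
    have hinv := hkap1.inv (c := 1/2) (by norm_num) (by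
      filter_upwards [eventually_ne_zero] with z hz
      have hb0 := beta_ne_zero hk t ht he hc hlow hz
      have hk1 : |fderiv ℝ (pert k t) (beta hk t ht he A z) e| ≤ 1 / 2 := by
        have := (fderiv ℝ (pert k t) (beta hk t ht he A z)).le_opNorm e
        have h5 := pert_fderiv_norm hk t ht hb0
        calc |fderiv ℝ (pert k t) (beta hk t ht he A z) e|
            ≤ ‖fderiv ℝ (pert k t) (beta hk t ht he A z)‖ * ‖e‖ := this
          _ ≤ 1 / 2 * 1 := by gcongr
          _ = 1 / 2 := by ring
      rw [zpow_zero, mul_one]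
      have := (abs_le.1 hk1).1
      exact le_trans (by linarith) (le_abs_self _))
    -- G
    have hF : Cl V true j ((k:ℤ) - 1) (fderiv ℝ (fun z => pert k t z - pert k t (A z))) :=
      (pert_sub_Cl (k := k) (j := j + 1) t A hAt hc hlow).2
    have hdiff : Cl V true j ((k:ℤ) - 1) (fun z => fderiv ℝ (pert k t) (beta hk t ht he A z)
        - fderiv ℝ (pert k t) (A z)) := by
      refine Cl.diff hc hc3 hAlow hblow hD hbcl hAcl ?_
      refine hd.congr ?_
      filter_upwards with z
      rw [beta_eq hk t ht he hAe z]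
      abel
    have hG2 := (hdiff.neg).clm ((ContinuousLinearMap.compL ℝ V V ℝ).flip A)
    have hG := hF.add hG2
    have hfin := hinv.smul hG
    rw [show (-0 + ((k:ℤ) - 1)) = (k:ℤ) - 1 by ring] at hfin
    refine ⟨⟨hsm, hasy⟩, ?_⟩
    refine (show Cl V true j ((k:ℤ) - 1) _ from hfin).congr ?_
    filter_upwards [eventually_ne_zero] with z hz
    rw [hgt_fderiv hk t ht he hAe hc hlow hz]
    congr 1
    have hA0 := A_ne_zero hc hlow hz
    have hFd : fderiv ℝ (fun z => pert k t z - pert k t (A z)) z =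
        fderiv ℝ (pert k t) z - (fderiv ℝ (pert k t) (A z)).comp A := by
      have hpA := (pert_hasFDerivAt k t hA0).differentiableAt.hasFDerivAt
      have hpz := (pert_hasFDerivAt k t hz).differentiableAt.hasFDerivAt
      exact (hpz.sub (hpA.comp z A.hasFDerivAt)).fderiv
    rw [hFd]
    ext v
    simp

include hc hlow hAe in
theorem hgt_contDiff (hAt : ∀ z, t (A z) = t z) : ContDiff ℝ k (hgt hk t ht he A) :=
  contDiff_of_Cl k (fun _ hz => hgt_contDiffAt hk t ht he hc hlow hz) (hgt_zero hk t ht he A)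
    (hgt_Cl hk t ht he hAe hc hlow hAt k)

include hc hlow hAe in
theorem beta_contDiff (hAt : ∀ z, t (A z) = t z) : ContDiff ℝ k (beta hk t ht he A) := by
  have hfun : beta hk t ht he A = fun z => A z + hgt hk t ht he A z • e := by
    funext z
    exact beta_eq hk t ht he hAe z
  rw [hfun]
  exact A.contDiff.add ((hgt_contDiff hk t ht he hAe hc hlow hAt).smul contDiff_const)

include hc hlow hAe in
theorem beta_fderiv_zero (hAt : ∀ z, t (A z) = t z) : fderiv ℝ (beta hk t ht he A) 0 = A := by
  have hfun : beta hk t ht he A = fun z => A z + hgt hk t ht he A z • e := by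
    funext z
    exact beta_eq hk t ht he hAe z
  have hk1 : (1:ℤ) ≤ k := by exact_mod_cast hk
  have h0 : HasFDerivAt (hgt hk t ht he A) (0 : V →L[ℝ] ℝ) 0 :=
    hasFDerivAt_zero_of_asy (hgt_zero hk t ht he A)
      ((hgt_Cl hk t ht he hAe hc hlow hAt 0).asy.mono hk1)
  rw [hfun]
  have h1 : HasFDerivAt (fun z => A z + hgt hk t ht he A z • e)
      (A + (0 : V →L[ℝ] ℝ).smulRight e) 0 := A.hasFDerivAt.add (h0.smul_const e)
  rw [h1.fderiv]
  ext v
  simp

end fixedA

end Q191
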