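import Pool.Agent.Q191.AsymComp

open Filter Asymptotics Topology
open scoped ContDiff

set_option linter.unusedSectionVars false

namespace Q191

variable {V : Type} [NormedAddCommGroup V] [InnerProductSpace ℝ V]

/-- the slowly growing logarithm -/
noncomputable def bigL (z : V) : ℝ := Real.log (1 + (‖z‖ ^ 2)⁻¹)

noncomputable def theta (z : V) : ℝ := Real.log (1 + bigL z)

/-- the oscillating slowly varying function -/
noncomputable def ell (z : V) : ℝ := Real.sin (theta z)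

theorem bigL_nonneg (z : V) : 0 ≤ bigL z := by
  refine Real.log_nonneg ?_
  have : 0 ≤ (‖z‖ ^ 2)⁻¹ := by positivity
  linarith

theorem sq_hasFDerivAt (z : V) :
    HasFDerivAt (fun z : V => ‖z‖ ^ 2) (2 • (innerSL ℝ z)) z :=
  (hasStrictFDerivAt_norm_sq z).hasFDerivAt

theorem sq_contDiff : ContDiff ℝ ∞ (fun z : V => ‖z‖ ^ 2) := contDiff_norm_sq ℝ

theorem bigL_contDiffAt {z : V} (hz : z ≠ 0) : ContDiffAt ℝ ∞ (bigL : V → ℝ) z := by
  have hz' : 0 < ‖z‖ ^ 2 := by
    have := norm_pos_iff.2 hz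
    positivity
  refine ContDiffAt.log ?_ (by positivity)
  exact contDiffAt_const.add (sq_contDiff.contDiffAt.inv hz'.ne')

theorem theta_contDiffAt {z : V} (hz : z ≠ 0) : ContDiffAt ℝ ∞ (theta : V → ℝ) z := by
  refine ContDiffAt.log (contDiffAt_const.add (bigL_contDiffAt hz)) ?_
  have := bigL_nonneg z
  positivity

theorem ell_contDiffAt {z : V} (hz : z ≠ 0) : ContDiffAt ℝ ∞ (ell : V → ℝ) z :=
  (theta_contDiffAt hz).sin

theorem bigL_hasFDerivAt {z : V} (hz : z ≠ 0) :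
    HasFDerivAt (bigL : V → ℝ)
      (-(((‖z‖ ^ 2)⁻¹ * (1 + ‖z‖ ^ 2)⁻¹) • fderiv ℝ (fun z : V => ‖z‖ ^ 2) z)) z := by
  have hz' : 0 < ‖z‖ ^ 2 := by
    have := norm_pos_iff.2 hz
    positivity
  have h1 := sq_hasFDerivAt z
  have h2 := (hasDerivAt_inv hz'.ne').comp_hasFDerivAt z h1
  have h3 := (h2.const_add 1).log (by simp only [Function.comp]; positivity)
  have h4 : (fderiv ℝ (fun z : V => ‖z‖ ^ 2) z) = 2 • (innerSL ℝ z) := h1.fderiv
  rw [h4]
  refine h3.congr_fderiv ?_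
  simp only [Function.comp, smul_smul, ← neg_smul]
  congr 1
  field_simp
  ring

theorem theta_hasFDerivAt {z : V} (hz : z ≠ 0) :
    HasFDerivAt (theta : V → ℝ) ((1 + bigL z)⁻¹ • fderiv ℝ (bigL : V → ℝ) z) z := by
  have h1 := (bigL_hasFDerivAt hz).differentiableAt.hasFDerivAt
  have h2 := bigL_nonneg z
  exact (h1.const_add 1).log (by positivity)

theorem ell_hasFDerivAt {z : V} (hz : z ≠ 0) :
    HasFDerivAt (ell : V → ℝ) (Real.cos (theta z) • fderiv ℝ (theta : V → ℝ) z) z := by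
  have h1 := (theta_hasFDerivAt hz).differentiableAt.hasFDerivAt
  exact h1.sin

theorem cosTheta_hasFDerivAt {z : V} (hz : z ≠ 0) :
    HasFDerivAt (fun z : V => Real.cos (theta z))
      (-(ell z • fderiv ℝ (theta : V → ℝ) z)) z := by
  have h1 := (theta_hasFDerivAt hz).differentiableAt.hasFDerivAt
  have := h1.cos
  refine this.congr_fderiv ?_
  exact neg_smul (Real.sin (theta z)) (fderiv ℝ (theta : V → ℝ) z)

theorem bigL_fderiv_norm {z : V} (hz : z ≠ 0) : ‖fderiv ℝ (bigL : V → ℝ) z‖ ≤ 2 / ‖z‖ := by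
  have hz' : 0 < ‖z‖ := norm_pos_iff.2 hz
  rw [(bigL_hasFDerivAt hz).fderiv, norm_neg, norm_smul, (sq_hasFDerivAt z).fderiv,
    Real.norm_of_nonneg (by positivity)]
  have h1 : ‖(2:ℕ) • (innerSL ℝ z)‖ ≤ 2 * ‖z‖ := by
    rw [← Nat.cast_smul_eq_nsmul ℝ, norm_smul]
    simp
  calc ((‖z‖ ^ 2)⁻¹ * (1 + ‖z‖ ^ 2)⁻¹) * ‖(2:ℕ) • (innerSL ℝ z)‖
      ≤ ((‖z‖ ^ 2)⁻¹ * 1) * (2 * ‖z‖) := by
        gcongr
        rw [inv_le_one₀ (by positivity)]
        nlinarith [sq_nonneg ‖z‖]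
    _ = 2 / ‖z‖ := by field_simp

theorem ell_fderiv_norm {z : V} (hz : z ≠ 0) : ‖fderiv ℝ (ell : V → ℝ) z‖ ≤ 2 / ‖z‖ := by
  have hz' : 0 < ‖z‖ := norm_pos_iff.2 hz
  have hL := bigL_nonneg z
  rw [(ell_hasFDerivAt hz).fderiv, (theta_hasFDerivAt hz).fderiv, norm_smul, norm_smul]
  have h1 : ‖Real.cos (theta z)‖ ≤ 1 := Real.abs_cos_le_one _
  have h2 : ‖(1 + bigL z)⁻¹‖ ≤ 1 := by
    rw [Real.norm_of_nonneg (by positivity), inv_le_one₀ (by positivity)]
    linarith
  have h3 := bigL_fderiv_norm hz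
  calc _ ≤ 1 * (1 * (2 / ‖z‖)) := by gcongr
    _ = 2 / ‖z‖ := by ring

/-! ### classes -/

theorem sq_Cl {j : ℕ} : Cl V false j 2 (fun z : V => ‖z‖ ^ 2) := by
  have h1 : Cl V false j 1 (fun z : V => (ContinuousLinearMap.id ℝ V) z) := Cl.of_clm _
  have h2 := h1.bilin h1 (innerSL ℝ)
  refine (h2.congr ?_)
  filter_upwards with z
  simp only [ContinuousLinearMap.id_apply]
  exact real_inner_self_eq_norm_sq z

theorem sqInv_Cl {j : ℕ} : Cl V false j (-2) (fun z : V => (‖z‖ ^ 2)⁻¹) := by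
  refine (sq_Cl (V := V)).inv one_pos ?_
  filter_upwards with z
  rw [one_mul, abs_of_nonneg (by positivity)]
  exact le_of_eq (by norm_cast)

theorem oneSqInv_Cl {j : ℕ} : Cl V false j 0 (fun z : V => (1 + ‖z‖ ^ 2)⁻¹) := by
  have h1 : Cl V false j 0 (fun z : V => 1 + ‖z‖ ^ 2) :=
    Cl.of_contDiff (contDiff_const.add sq_contDiff)
  have h2 := h1.inv (c := 1) one_pos ?_
  · simpa using h2
  filter_upwards with z
  rw [one_mul, zpow_zero, abs_of_nonneg (by positivity)]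
  nlinarith [sq_nonneg ‖z‖]

theorem eventually_fderiv {F : Type} [NormedAddCommGroup F] [NormedSpace ℝ F]
    {f : V → F} {f' : V → V →L[ℝ] F} (h : ∀ z, z ≠ 0 → HasFDerivAt f (f' z) z) :
    fderiv ℝ f =ᶠ[𝓝[≠] (0:V)] f' := by
  filter_upwards [eventually_ne_zero] with z hz
  exact (h z hz).fderiv

theorem Sm_of {F : Type} [NormedAddCommGroup F] [NormedSpace ℝ F]
    {f : V → F} (h : ∀ z, z ≠ 0 → ContDiffAt ℝ ∞ f z) : Sm f := by
  filter_upwards [eventually_ne_zero] with z hz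
  exact h z hz

theorem DbigL_Cl {j : ℕ} : Cl V false j (-1) (fderiv ℝ (bigL : V → ℝ)) := by
  have h1 := (((sqInv_Cl (V := V) (j := j)).mul oneSqInv_Cl).smul
    (sq_Cl (V := V) (j := j + 1)).2).neg
  rw [show (-2 + 0 + (2 - 1) : ℤ) = -1 by norm_num] at h1
  exact h1.congr (eventually_fderiv fun z hz => bigL_hasFDerivAt hz).symm

theorem bigL_tendsto : Tendsto (bigL : V → ℝ) (𝓝[≠] (0:V)) atTop := by
  refine Real.tendsto_log_atTop.comp ?_
  refine tendsto_atTop_add_const_left _ _ ?_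
  refine Tendsto.comp (tendsto_inv_nhdsGT_zero) ?_
  rw [tendsto_nhdsWithin_iff]
  refine ⟨?_, ?_⟩
  · have : Tendsto (fun z : V => ‖z‖ ^ 2) (𝓝 (0:V)) (𝓝 (‖(0:V)‖ ^ 2)) :=
      (continuous_norm.pow 2).tendsto _
    simp only [norm_zero, ne_eq, OfNat.ofNat_ne_zero, not_false_eq_true, zero_pow] at this
    exact this.mono_left nhdsWithin_le_nhds
  · filter_upwards [eventually_ne_zero] with z hz
    have := norm_pos_iff.2 hz
    exact Set.mem_Ioi.2 (by positivity)

theorem u_hasFDerivAt {z : V} (hz : z ≠ 0) :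
    HasFDerivAt (fun z : V => (1 + bigL z)⁻¹)
      (-(((1 + bigL z)⁻¹ * (1 + bigL z)⁻¹) • fderiv ℝ (bigL : V → ℝ) z)) z := by
  have h1 := (bigL_hasFDerivAt hz).differentiableAt.hasFDerivAt
  have h2 := bigL_nonneg z
  have h3 : (1 + bigL z) ≠ 0 := by positivity
  have h4 := (hasDerivAt_inv h3).comp_hasFDerivAt z (h1.const_add 1)
  refine h4.congr_fderiv ?_
  rw [← neg_smul]
  congr 1
  field_simp

theorem u_Cl {j : ℕ} : Cl V true j 0 (fun z : V => (1 + bigL z)⁻¹) := by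
  have hsm : Sm (fun z : V => (1 + bigL z)⁻¹) := Sm_of fun z hz =>
    (contDiffAt_const.add (bigL_contDiffAt hz)).inv (by
      have := bigL_nonneg z
      positivity)
  have hasy : Asy true 0 (fun z : V => (1 + bigL z)⁻¹) := by
    show (fun z : V => (1 + bigL z)⁻¹) =o[𝓝[≠] (0:V)] fun z => ‖z‖ ^ (0:ℤ)
    simp only [zpow_zero]
    rw [isLittleO_one_iff]
    exact tendsto_inv_atTop_zero.comp (tendsto_atTop_add_const_left _ _ bigL_tendsto)
  induction j with
  | zero => exact ⟨hsm, hasy⟩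
  | succ j ih =>
    refine Cl.succ hsm hasy (eventually_fderiv fun z hz => u_hasFDerivAt hz) ?_
    have := ((ih.mul ih).smul (DbigL_Cl (V := V) (j := j))).neg
    simpa using this

theorem Dtheta_Cl {j : ℕ} : Cl V true j (-1) (fderiv ℝ (theta : V → ℝ)) := by
  have h1 := (u_Cl (V := V) (j := j)).smul (DbigL_Cl (V := V) (j := j))
  have h2 : Cl V true j (-1) (fun z : V => (1 + bigL z)⁻¹ • fderiv ℝ (bigL : V → ℝ) z) := by
    simpa using h1
  exact h2.congr (eventually_fderiv fun z hz => theta_hasFDerivAt hz).symm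

theorem ell_cos_Cl {j : ℕ} : Cl V false j 0 (ell : V → ℝ) ∧
    Cl V false j 0 (fun z : V => Real.cos (theta z)) := by
  have hs1 : Sm (ell : V → ℝ) := Sm_of fun z hz => ell_contDiffAt hz
  have hs2 : Sm (fun z : V => Real.cos (theta z)) := Sm_of fun z hz => (theta_contDiffAt hz).cos
  have ha1 : Asy false 0 (ell : V → ℝ) := by
    show (ell : V → ℝ) =O[𝓝[≠] (0:V)] fun z => ‖z‖ ^ (0:ℤ)
    refine IsBigO.of_bound 1 (Eventually.of_forall fun z => ?_)
    simpa [ell] using Real.abs_sin_le_one _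
  have ha2 : Asy false 0 (fun z : V => Real.cos (theta z)) := by
    show (fun z : V => Real.cos (theta z)) =O[𝓝[≠] (0:V)] fun z => ‖z‖ ^ (0:ℤ)
    refine IsBigO.of_bound 1 (Eventually.of_forall fun z => ?_)
    simpa using Real.abs_cos_le_one _
  induction j with
  | zero => exact ⟨⟨hs1, ha1⟩, ⟨hs2, ha2⟩⟩
  | succ j ih =>
    constructor
    · refine Cl.succ hs1 ha1 (eventually_fderiv fun z hz => ell_hasFDerivAt hz) ?_
      have := (ih.2.smul (Dtheta_Cl (V := V) (j := j))).weaken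
      simpa using this
    · refine Cl.succ hs2 ha2 (eventually_fderiv fun z hz => cosTheta_hasFDerivAt hz) ?_
      have := (ih.1.smul (Dtheta_Cl (V := V) (j := j))).weaken.neg
      simpa using this

theorem Dell_Cl {j : ℕ} : Cl V true j (-1) (fderiv ℝ (ell : V → ℝ)) := by
  have h1 := (ell_cos_Cl (V := V) (j := j)).2.smul (Dtheta_Cl (V := V) (j := j))
  have h2 : Cl V true j (-1) (fun z : V => Real.cos (theta z) • fderiv ℝ (theta : V → ℝ) z) := by
    simpa using h1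
  exact h2.congr (eventually_fderiv fun z hz => ell_hasFDerivAt hz).symm

/-- comparison of `bigL` at two comparable points. -/
theorem bigL_sub_le {z w : V} {C : ℝ} (hC : 1 ≤ C) (hz : z ≠ 0) (hw : w ≠ 0)
    (h : ‖w‖ ≤ C * ‖z‖) : bigL z - bigL w ≤ 2 * Real.log C := by
  have hz' : 0 < ‖z‖ := norm_pos_iff.2 hz
  have hw' : 0 < ‖w‖ := norm_pos_iff.2 hw
  have hC0 : 0 < C := by linarith
  have h1 : 1 + (‖z‖ ^ 2)⁻¹ ≤ C ^ 2 * (1 + (‖w‖ ^ 2)⁻¹) := by
    have h2 : (‖z‖ ^ 2)⁻¹ ≤ C ^ 2 * (‖w‖ ^ 2)⁻¹ := by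
      rw [← div_eq_mul_inv, inv_eq_one_div, div_le_div_iff₀ (by positivity) (by positivity),
        one_mul]
      calc ‖w‖ ^ 2 ≤ (C * ‖z‖) ^ 2 := by gcongr
        _ = C ^ 2 * ‖z‖ ^ 2 := by ring
    nlinarith
  have h3 : Real.log (1 + (‖z‖ ^ 2)⁻¹) ≤ Real.log (C ^ 2 * (1 + (‖w‖ ^ 2)⁻¹)) :=
    Real.log_le_log (by positivity) h1
  rw [Real.log_mul (by positivity) (by positivity), Real.log_pow] at h3
  unfold bigL
  push_cast at h3
  linarith

theorem theta_sub_abs_le (z w : V) :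
    |theta z - theta w| ≤ |bigL z - bigL w| * ((1 + bigL z)⁻¹ + (1 + bigL w)⁻¹) := by
  have hz := bigL_nonneg z
  have hw := bigL_nonneg w
  have key : ∀ a b : ℝ, 0 ≤ a → 0 ≤ b → Real.log (1 + a) - Real.log (1 + b)
      ≤ |a - b| * ((1 + a)⁻¹ + (1 + b)⁻¹) := by
    intro a b ha hb
    have ha' : 0 < 1 + a := by positivity
    have hb' : 0 < 1 + b := by positivity
    rw [← Real.log_div ha'.ne' hb'.ne']
    have h1 := Real.log_le_sub_one_of_pos (div_pos ha' hb')
    have h2 : (1 + a) / (1 + b) - 1 = (a - b) * (1 + b)⁻¹ := by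
      field_simp
      ring
    rw [h2] at h1
    have h3 : (a - b) * (1 + b)⁻¹ ≤ |a - b| * (1 + b)⁻¹ := by
      gcongr
      exact le_abs_self _
    have h4 : 0 ≤ |a - b| * (1 + a)⁻¹ := by positivity
    nlinarith
  rw [abs_le]
  constructor
  · have := key (bigL w) (bigL z) hw hz
    rw [abs_sub_comm] at this
    unfold theta
    linarith [this, add_comm (1 + bigL z)⁻¹ (1 + bigL w)⁻¹,
      congrArg (fun x => |bigL z - bigL w| * x) (add_comm (1 + bigL z)⁻¹ (1 + bigL w)⁻¹)]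
  · exact key (bigL z) (bigL w) hz hw

/-- `ell - ell ∘ A` belongs to the little-o class of exponent `0`. -/
theorem ell_sub_Cl {j : ℕ} {A : V → V} {c : ℝ} (hc : 0 < c)
    (hlow : ∀ᶠ z in 𝓝[≠] (0:V), c * ‖z‖ ≤ ‖A z‖) (hA : Cl V false j 1 A) :
    Cl V true j 0 (fun z => ell z - ell (A z)) := by
  have ht := tendsto_of_comparable hA.asy hc hlow
  obtain ⟨C, hC, hup⟩ := upper_of_asy hA.asy
  have hsm : Sm (fun z => ell z - ell (A z)) := by
    have h1 : Sm (ell : V → ℝ) := Sm_of fun z hz => ell_contDiffAt hz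
    filter_upwards [h1, h1.comp hA.sm ht] with z h2 h3
    exact h2.sub h3
  have hasy : Asy true 0 (fun z => ell z - ell (A z)) := by
    show (fun z => ell z - ell (A z)) =o[𝓝[≠] (0:V)] fun z => ‖z‖ ^ (0:ℤ)
    simp only [zpow_zero]
    rw [isLittleO_one_iff, tendsto_zero_iff_norm_tendsto_zero]
    set M : ℝ := max 1 (max C c⁻¹) with hM
    have hM1 : 1 ≤ M := le_max_left _ _
    have hMC : C ≤ M := (le_max_left _ _).trans (le_max_right _ _)
    have hMc : c⁻¹ ≤ M := (le_max_right _ _).trans (le_max_right _ _)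
    have hlim : Tendsto (fun z : V => (2 * Real.log M) * ((1 + bigL z)⁻¹ + (1 + bigL (A z))⁻¹))
        (𝓝[≠] (0:V)) (𝓝 0) := by
      have h1 : Tendsto (fun z : V => (1 + bigL z)⁻¹) (𝓝[≠] (0:V)) (𝓝 0) :=
        tendsto_inv_atTop_zero.comp (tendsto_atTop_add_const_left _ _ bigL_tendsto)
      have h2 := (h1.add (h1.comp ht)).const_mul (2 * Real.log M)
      simpa using h2
    refine squeeze_zero' (Eventually.of_forall fun z => norm_nonneg _) ?_ hlim
    filter_upwards [hlow, hup, eventually_ne_zero, ht.eventually eventually_ne_zero]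
      with z h1 h2 h3 h4
    have hLz := bigL_nonneg z
    have hLw := bigL_nonneg (A z)
    have hb : |bigL z - bigL (A z)| ≤ 2 * Real.log M := by
      rw [abs_le]
      constructor
      · have h5 : ‖z‖ ≤ M * ‖A z‖ := by
          calc ‖z‖ = c⁻¹ * (c * ‖z‖) := by field_simp
            _ ≤ c⁻¹ * ‖A z‖ := by gcongr
            _ ≤ M * ‖A z‖ := by gcongr
        have := bigL_sub_le hM1 h4 h3 h5
        linarith
      · have h5 : ‖A z‖ ≤ M * ‖z‖ := h2.trans (by gcongr)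
        exact bigL_sub_le hM1 h3 h4 h5
    calc ‖ell z - ell (A z)‖ ≤ |theta z - theta (A z)| := by
          unfold ell
          rw [Real.norm_eq_abs]
          exact Real.abs_sin_sub_sin_le _ _
      _ ≤ |bigL z - bigL (A z)| * ((1 + bigL z)⁻¹ + (1 + bigL (A z))⁻¹) := theta_sub_abs_le _ _
      _ ≤ (2 * Real.log M) * ((1 + bigL z)⁻¹ + (1 + bigL (A z))⁻¹) := by gcongr
  cases j with
  | zero => exact ⟨hsm, hasy⟩
  | succ j =>
    refine ⟨⟨hsm, hasy⟩, ?_⟩
    have e1 : Cl V true j (0 - 1) (fderiv ℝ (ell : V → ℝ)) := by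
      simpa using (Dell_Cl (V := V) (j := j))
    have e2 := (Cl.comp hc hlow e1 hA.down).bilin hA.2 (ContinuousLinearMap.compL ℝ V V ℝ)
    rw [Bool.or_false, show (0 - 1 + (1 - 1) : ℤ) = 0 - 1 by ring] at e2
    refine (e1.sub e2).congr ?_
    filter_upwards [eventually_ne_zero, ht.eventually eventually_ne_zero,
      hA.sm.differentiableAt] with z h1 h2 h3
    have k1 : HasFDerivAt (fun z => ell z - ell (A z))
        (fderiv ℝ ell z - (fderiv ℝ ell (A z)).comp (fderiv ℝ A z)) z :=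
      ((ell_hasFDerivAt h1).differentiableAt.hasFDerivAt).sub
        (((ell_hasFDerivAt h2).differentiableAt.hasFDerivAt).comp z h3.hasFDerivAt)
    rw [k1.fderiv]
    rfl

end Q191
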