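import Mathlib

set_option autoImplicit false

open Set Topology
open scoped Cardinal

namespace Q191.KRefl

/-!
A Keimel-Lawson category in which the reflection does not preserve countable products.

`XX n` is the regular cardinal `aleph (n+1)` with the upper topology, `RR n` is `XX n` with a top
element added, `YY` is the subspace of the product of all `RR n` of points with only finitely many
coordinates equal to the top element.
-/

/-- the regular cardinals used -/
noncomputable def kap (n : ℕ) : Cardinal.{0} := Cardinal.aleph ((n : Ordinal.{0}) + 1)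

lemma kap_reg (n : ℕ) : (kap n).IsRegular := Cardinal.isRegular_aleph_add_one _

lemma kap_lt {m n : ℕ} (h : m < n) : kap m < kap n := by
  unfold kap
  rw [Cardinal.aleph_lt_aleph]
  have h1 : (m : Ordinal.{0}) < (n : Ordinal.{0}) := by exact_mod_cast h
  have h2 := Order.succ_lt_succ h1
  rwa [Order.succ_eq_add_one, Order.succ_eq_add_one] at h2

/-- the underlying well order of the `n`-th space -/
def XX (n : ℕ) : Type := (kap n).ord.ToType

noncomputable instance (n : ℕ) : LinearOrder (XX n) := by unfold XX; infer_instance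
instance (n : ℕ) : WellFoundedLT (XX n) := by unfold XX; infer_instance

lemma cof_XX (n : ℕ) : Order.cof (XX n) = kap n := by
  have h := Ordinal.cof_toType (kap n).ord
  rw [(kap_reg n).cof_ord] at h
  exact h

lemma mk_XX (n : ℕ) : #(XX n) = kap n := Cardinal.mk_ord_toType _

instance (n : ℕ) : Nonempty (XX n) := by
  rw [← Order.cof_ne_zero_iff, cof_XX]
  exact (kap_reg n).ne_zero

/-- a set of size smaller than the cofinality is bounded -/
lemma small_bdd {ι : Type} (n : ℕ) (g : ι → XX n) (h : #ι < kap n) : ∃ b, ∀ i, g i ≤ b := by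
  by_contra hcon
  push Not at hcon
  have hc : IsCofinal (Set.range g) := by
    intro x
    obtain ⟨i, hi⟩ := hcon x
    exact ⟨g i, ⟨i, rfl⟩, hi.le⟩
  have h1 := Order.cof_le hc
  rw [cof_XX] at h1
  exact absurd (h1.trans Cardinal.mk_range_le) (not_le.2 h)

lemma exists_gt' (n : ℕ) (x : XX n) : ∃ y, x < y := by
  by_contra hcon
  push Not at hcon
  have hc : IsCofinal ({x} : Set (XX n)) := fun y => ⟨x, rfl, hcon y⟩
  have h1 := Order.cof_le hc
  rw [cof_XX, Cardinal.mk_singleton] at h1
  exact absurd h1 (not_le.2 (by simpa using (kap_reg n).nat_lt 1))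

noncomputable instance (n : ℕ) : TopologicalSpace (XX n) := Topology.upper (XX n)
instance (n : ℕ) : Topology.IsUpper (XX n) := ⟨rfl⟩

/-- the sobrification of `XX n` -/
def RR (n : ℕ) : Type := WithTop (XX n)

noncomputable instance (n : ℕ) : LinearOrder (RR n) := inferInstanceAs (LinearOrder (WithTop (XX n)))
instance (n : ℕ) : WellFoundedLT (RR n) := inferInstanceAs (WellFoundedLT (WithTop (XX n)))
noncomputable instance (n : ℕ) : OrderTop (RR n) := inferInstanceAs (OrderTop (WithTop (XX n)))
noncomputable instance (n : ℕ) : TopologicalSpace (RR n) := Topology.upper (RR n)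
instance (n : ℕ) : Topology.IsUpper (RR n) := ⟨rfl⟩

/-- the inclusion -/
def eta (n : ℕ) (x : XX n) : RR n := WithTop.some x

lemma eta_le {n : ℕ} {x y : XX n} : eta n x ≤ eta n y ↔ x ≤ y := WithTop.coe_le_coe
lemma eta_lt {n : ℕ} {x y : XX n} : eta n x < eta n y ↔ x < y := WithTop.coe_lt_coe
lemma eta_ne_top {n : ℕ} (x : XX n) : eta n x ≠ ⊤ := WithTop.coe_ne_top
lemma eta_lt_top {n : ℕ} (x : XX n) : eta n x < ⊤ := WithTop.coe_lt_top x
lemma ne_top_iff {n : ℕ} {y : RR n} (h : y ≠ ⊤) : ∃ x, eta n x = y := by
  obtain ⟨x, hx⟩ := WithTop.ne_top_iff_exists.1 h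
  exact ⟨x, hx⟩

/-- every subset of `RR n` has a least upper bound -/
lemma exists_lub {n : ℕ} (S : Set (RR n)) : ∃ y, IsLUB S y := by
  have hne : (upperBounds S).Nonempty := ⟨⊤, fun _ _ => le_top⟩
  refine ⟨WellFounded.min (wellFounded_lt (α := RR n)) _ hne, ?_, ?_⟩
  · exact WellFounded.min_mem _ _ _
  · intro z hz
    exact WellFounded.min_le _ hz

/-- open sets of a linear order with the upper topology: membership at a point gives a ray -/
lemma open_ray {α : Type} [LinearOrder α] [TopologicalSpace α] [Topology.IsUpper α] {U : Set α}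
    (hU : IsOpen U) {x : α} (hx : x ∈ U) : U = univ ∨ ∃ a, a < x ∧ Ioi a ⊆ U := by
  obtain ⟨V, hV, hxV, hVU⟩ :=
    (Topology.IsUpper.isTopologicalBasis_insert_univ_subbasis (α := α)).exists_subset_of_mem_open
      hx hU
  rcases hV with rfl | ⟨a, rfl⟩
  · left; exact univ_subset_iff.1 hVU
  · right
    refine ⟨a, by simpa using hxV, ?_⟩
    intro z hz
    exact hVU (by simpa using hz)

lemma isOpen_Ioi' {α : Type} [LinearOrder α] [TopologicalSpace α] [Topology.IsUpper α] (a : α) :
    IsOpen (Ioi a) := by
  have : IsClosed (Iic a) := isClosed_Iic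
  have h2 := this.isOpen_compl
  rwa [compl_Iic] at h2

/-- a nonempty open set of an upper topology contains the top -/
lemma top_mem {n : ℕ} {U : Set (RR n)} (hU : IsOpen U) (hne : U.Nonempty) : (⊤ : RR n) ∈ U := by
  obtain ⟨x, hx⟩ := hne
  exact Topology.IsUpper.isUpperSet_of_isOpen hU le_top hx

lemma continuous_eta (n : ℕ) : Continuous (eta n) := by
  rw [Topology.IsUpper.continuous_iff_Iic]
  intro a
  by_cases ha : a = ⊤
  · subst ha; simp
  · obtain ⟨x, rfl⟩ := ne_top_iff ha
    have : eta n ⁻¹' Iic (eta n x) = Iic x := by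
      ext y; simp [eta_le]
    rw [this]; exact isClosed_Iic

lemma mono_of_cont {α β : Type} [LinearOrder α] [TopologicalSpace α] [Topology.IsUpper α]
    [LinearOrder β] [TopologicalSpace β] [Topology.IsUpper β] {f : α → β} (hf : Continuous f) :
    Monotone f := by
  intro x y hxy
  have h1 : y ⤳ x := by
    rw [specializes_iff_mem_closure]
    rw [Topology.IsUpper.closure_singleton]; exact hxy
  have h2 := h1.map hf
  rw [specializes_iff_mem_closure, Topology.IsUpper.closure_singleton] at h2
  exact h2

instance soberRR (n : ℕ) : QuasiSober (RR n) where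
  sober := by
    intro S hS hcl
    obtain ⟨y, hy⟩ := exists_lub S
    refine ⟨y, ?_⟩
    have hlow := Topology.IsUpper.isLowerSet_of_isClosed hcl
    have hmem : y ∈ S := by
      rw [← hcl.closure_eq, mem_closure_iff]
      intro U hU hyU
      rcases open_ray hU hyU with rfl | ⟨a, ha, haU⟩
      · simpa using hS.1
      · obtain ⟨s, hs, has⟩ : ∃ s ∈ S, a < s := by
          by_contra hcon
          push Not at hcon
          exact absurd (hy.2 hcon) (not_le.2 ha)
        exact ⟨s, haU has, hs⟩
    rw [IsGenericPoint, Topology.IsUpper.closure_singleton]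
    ext z
    constructor
    · intro hz; exact hlow hz hmem
    · intro hz; exact hy.1 hz

/-- a monotone map between different regular cardinals is not cofinal unless it reaches the top -/
lemma reach_top {i j : ℕ} (hij : i ≠ j) (f : XX j → RR i) (hf : Monotone f)
    (hl : IsLUB (range f) (⊤ : RR i)) : ∃ x, f x = ⊤ := by
  by_contra hcon
  push Not at hcon
  choose g hg using fun x => ne_top_iff (hcon x)
  have hunb : ∀ a : XX i, ∃ x, a ≤ g x := by
    intro a
    by_contra hc
    push Not at hc
    have : (⊤ : RR i) ≤ eta i a := hl.2 (by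
      rintro _ ⟨x, rfl⟩
      rw [← hg x, eta_le]
      exact (hc x).le)
    exact absurd this (not_le.2 (eta_lt_top a))
  rcases lt_or_gt_of_ne hij with h | h
  · choose x hx using hunb
    obtain ⟨b, hb⟩ := small_bdd j x (by rw [mk_XX]; exact kap_lt h)
    obtain ⟨c, hc⟩ := exists_gt' i (g b)
    have h1 : g (x c) ≤ g b := by
      rw [← eta_le, hg, hg]; exact hf (hb c)
    exact absurd ((hx c).trans h1) (not_le.2 hc)
  · obtain ⟨b, hb⟩ := small_bdd i g (by rw [mk_XX]; exact kap_lt h)
    obtain ⟨c, hc⟩ := exists_gt' i b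
    obtain ⟨x, hx⟩ := hunb c
    exact absurd (hx.trans (hb x)) (not_le.2 hc)

/-- The test space. -/
abbrev YY : Type := {y : ∀ n, RR n // {n | y n = ⊤}.Finite}


/-- Key lemma: every continuous image of `XX j` in `YY` has a generic point. -/
lemma key (j : ℕ) (f : XX j → YY) (hf : Continuous f) :
    ∃ y : YY, closure (f '' univ) = closure {y} := by
  have hfi : ∀ i, Continuous fun x => (f x).1 i := fun i =>
    (continuous_apply i).comp (continuous_subtype_val.comp hf)
  have hmi : ∀ i, Monotone fun x => (f x).1 i := fun i => mono_of_cont (hfi i)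
  choose y hy using fun i => exists_lub (range fun x => (f x).1 i)
  have hfin : {i | y i = ⊤}.Finite := by
    by_contra hinf
    have hinf' : {i | y i = ⊤ ∧ i ≠ j}.Infinite := by
      intro h
      apply hinf
      refine (h.union (finite_singleton j)).subset ?_
      intro i hi
      by_cases hij : i = j
      · right; exact hij
      · left; exact ⟨hi, hij⟩
    have hx : ∀ i : {i | y i = ⊤ ∧ i ≠ j}, ∃ x, (f x).1 i.1 = ⊤ := by
      rintro ⟨i, hi, hij⟩
      refine reach_top hij _ (hmi i) ?_
      have := hy i
      rwa [hi] at this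
    choose x hx using hx
    obtain ⟨b, hb⟩ := small_bdd j x (by
      refine lt_of_le_of_lt (Cardinal.mk_le_aleph0) ?_
      refine lt_of_lt_of_le ?_ (le_refl _)
      unfold kap
      rw [← Cardinal.aleph_zero, Cardinal.aleph_lt_aleph]
      exact lt_of_le_of_lt (zero_le) (lt_add_one _))
    refine hinf' ((f b).2.subset ?_)
    intro i hi
    have h1 := hmi i (hb ⟨i, hi⟩)
    have h2 : (f (x ⟨i, hi⟩)).1 i = ⊤ := hx ⟨i, hi⟩
    simp only [h2] at h1
    exact top_le_iff.1 h1
  refine ⟨⟨y, hfin⟩, ?_⟩
  apply subset_antisymm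
  · refine closure_minimal ?_ isClosed_closure
    rintro _ ⟨x, -, rfl⟩
    rw [← specializes_iff_mem_closure]
    have : IsInducing (Subtype.val : YY → ∀ n, RR n) := IsInducing.subtypeVal
    rw [← this.specializes_iff, specializes_pi]
    intro i
    rw [specializes_iff_mem_closure, Topology.IsUpper.closure_singleton]
    exact (hy i).1 ⟨x, rfl⟩
  · refine closure_minimal ?_ isClosed_closure
    rw [singleton_subset_iff, mem_closure_iff]
    intro U hU hyU
    obtain ⟨V, hV, rfl⟩ := isOpen_induced_iff.1 hU
    rw [isOpen_pi_iff] at hV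
    obtain ⟨I, u, hu, huV⟩ := hV y hyU
    have hx : ∀ i ∈ I, ∃ x, ∀ z, x ≤ z → (f z).1 i ∈ u i := by
      intro i hi
      obtain ⟨ho, hmem⟩ := hu i hi
      rcases open_ray ho hmem with h | ⟨a, ha, hau⟩
      · exact ⟨Classical.arbitrary _, fun z _ => by rw [h]; trivial⟩
      · obtain ⟨x, hx⟩ : ∃ x, a < (f x).1 i := by
          by_contra hcon
          push Not at hcon
          refine absurd ((hy i).2 ?_) (not_le.2 ha)
          rintro _ ⟨x, rfl⟩
          exact hcon x
        exact ⟨x, fun z hz => hau (lt_of_lt_of_le hx (hmi i hz))⟩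
    choose! x hx using hx
    obtain ⟨b, hb⟩ := (I.image x).finite_toSet.bddAbove
    refine ⟨f b, ?_, ⟨b, trivial, rfl⟩⟩
    apply huV
    intro i hi
    exact hx i hi b (hb (by
      simp only [Finset.coe_image]
      exact ⟨i, hi, rfl⟩))

/-- The category: `T0` spaces in which every irreducible closed set all whose continuous images
in `YY` have a generic point is itself the closure of a point. -/
def KK (X : Type) [TopologicalSpace X] : Prop :=
  T0Space X ∧ ∀ A : Set X, IsIrreducible A → IsClosed A →
    (∀ f : X → YY, Continuous f → ∃ y, closure (f '' A) = closure {y}) → ∃ x, A = closure {x}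

lemma KK_YY : KK YY := by
  refine ⟨inferInstance, ?_⟩
  intro A _ hcl h
  obtain ⟨y, hy⟩ := h id continuous_id
  rw [image_id, hcl.closure_eq] at hy
  exact ⟨y, hy⟩

lemma KK_sober (X : Type) [TopologicalSpace X] (h0 : T0Space X) (hs : QuasiSober X) : KK X := by
  refine ⟨h0, ?_⟩
  intro A hA hcl _
  obtain ⟨x, hx⟩ := hs.sober hA hcl
  exact ⟨x, hx.symm⟩

/-- irreducible sets all of whose images in `YY` have generic points have generic points in any
space of the category -/
lemma KK_gen {X Y : Type} [TopologicalSpace X] [TopologicalSpace Y] (hY : KK Y) {A : Set X}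
    (hA : IsIrreducible A) (h : ∀ f : X → YY, Continuous f → ∃ y, closure (f '' A) = closure {y})
    (f : X → Y) (hf : Continuous f) : ∃! y, closure (f '' A) = closure ({y} : Set Y) := by
  have := hY.1
  have hirr : IsIrreducible (closure (f '' A)) := (hA.image f hf.continuousOn).closure
  obtain ⟨y, hy⟩ := hY.2 _ hirr isClosed_closure (by
    intro g hg
    obtain ⟨z, hz⟩ := h (g ∘ f) (hg.comp hf)
    refine ⟨z, ?_⟩
    rw [closure_image_closure hg, ← image_comp]
    exact hz)
  refine ⟨y, hy, ?_⟩
  intro z hz
  have hz' : closure ({z} : Set Y) = closure {y} := by rw [← hy]; exact hz.symm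
  exact (inseparable_iff_closure_eq.2 hz').eq

lemma irr_univ (n : ℕ) : IsIrreducible (univ : Set (XX n)) := by
  refine ⟨univ_nonempty, ?_⟩
  intro u v hu hv hu' hv'
  obtain ⟨x, -, hx⟩ := hu'
  obtain ⟨y, -, hy⟩ := hv'
  refine ⟨max x y, trivial, ?_, ?_⟩
  · exact Topology.IsUpper.isUpperSet_of_isOpen hu (le_max_left _ _) hx
  · exact Topology.IsUpper.isUpperSet_of_isOpen hv (le_max_right _ _) hy

/-- `univ` in `XX n` is determined for the category -/
lemma univ_det (n : ℕ) {Y : Type} [TopologicalSpace Y] (hY : KK Y) (f : XX n → Y)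
    (hf : Continuous f) : ∃! y, closure (f '' univ) = closure ({y} : Set Y) :=
  KK_gen hY (irr_univ n) (fun g hg => key n g hg) f hf

/-- the inclusion of the product into the test space -/
def incl (x : ∀ n, XX n) : YY :=
  ⟨fun n => eta n (x n), by
    have : {n | eta n (x n) = ⊤} = ∅ := by
      ext n; simp [eta_ne_top]
    rw [this]; exact finite_empty⟩

lemma continuous_incl : Continuous incl := by
  refine Continuous.subtype_mk ?_ _
  exact continuous_pi fun n => (continuous_eta n).comp (continuous_apply n)

/-- the product of all `XX n` has no generic point in `YY` -/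
lemma incl_no_gen (y : YY) (h : ∀ x, incl x ∈ closure ({y} : Set YY)) : False := by
  have hinf : {n | y.1 n = ⊤} = univ := by
    ext n
    simp only [mem_ofPred_eq, mem_univ, iff_true]
    by_contra hne
    obtain ⟨a, ha⟩ := ne_top_iff hne
    obtain ⟨b, hb⟩ := exists_gt' n a
    obtain ⟨x0⟩ : Nonempty (∀ n, XX n) := inferInstance
    have h1 := h (Function.update x0 n b)
    rw [← specializes_iff_mem_closure] at h1
    have h2 := h1.map (continuous_subtype_val)
    have h3 := h2.map (continuous_apply n)
    rw [specializes_iff_mem_closure, Topology.IsUpper.closure_singleton] at h3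
    have h4 : (incl (Function.update x0 n b)).1 n = eta n b := by
      simp [incl]
    rw [mem_Iic] at h3
    have h5 : eta n b ≤ eta n a := by
      rw [ha, ← h4]; exact h3
    exact absurd (eta_le.1 h5) (not_le.2 hb)
  have := y.2
  rw [hinf] at this
  exact Set.infinite_univ this

/-- the specialization of points of the product -/
lemma spec_pi {x z : ∀ n, XX n} (h : ∀ n, x n ≤ z n) : z ⤳ x := by
  rw [specializes_pi]
  intro i
  rw [specializes_iff_mem_closure, Topology.IsUpper.closure_singleton]
  exact h i

lemma irr_pi : IsIrreducible (univ : Set (∀ n, XX n)) := by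
  refine ⟨univ_nonempty, ?_⟩
  intro u v hu hv hu' hv'
  obtain ⟨x, -, hx⟩ := hu'
  obtain ⟨y, -, hy⟩ := hv'
  refine ⟨fun n => max (x n) (y n), trivial, ?_, ?_⟩
  · exact (spec_pi (fun n => le_max_left _ _)).mem_open hu hx
  · exact (spec_pi (fun n => le_max_right _ _)).mem_open hv hy

/-- irreducible closed subsets of `XX n` are the whole space or point closures -/
lemma irr_cases (n : ℕ) {A : Set (XX n)} (hA : IsIrreducible A) (hcl : IsClosed A) :
    A = univ ∨ ∃ a, A = closure {a} := by
  by_cases hu : A = univ
  · left; exact hu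
  right
  obtain ⟨b, hb⟩ := (ne_univ_iff_exists_notMem A).1 hu
  have hlow := Topology.IsUpper.isLowerSet_of_isClosed hcl
  have hne : (upperBounds A).Nonempty := by
    refine ⟨b, fun a ha => ?_⟩
    by_contra hcon
    exact hb (hlow (not_le.1 hcon).le ha)
  have hy : IsLUB A (WellFounded.min (wellFounded_lt (α := XX n)) _ hne) :=
    ⟨WellFounded.min_mem _ _ _, fun z hz => WellFounded.min_le _ hz⟩
  set y := WellFounded.min (wellFounded_lt (α := XX n)) _ hne
  have hmem : y ∈ A := by
    rw [← hcl.closure_eq, mem_closure_iff]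
    intro U hU hyU
    rcases open_ray hU hyU with rfl | ⟨a, ha, haU⟩
    · simpa using hA.1
    · obtain ⟨s, hs, has⟩ : ∃ s ∈ A, a < s := by
        by_contra hcon
        push Not at hcon
        exact absurd (hy.2 hcon) (not_le.2 ha)
      exact ⟨s, haU has, hs⟩
  refine ⟨y, ?_⟩
  rw [Topology.IsUpper.closure_singleton]
  ext z
  constructor
  · intro hz; exact hy.1 hz
  · intro hz; exact hlow hz hmem

lemma irr_det (n : ℕ) {A : Set (XX n)} (hA : IsIrreducible A) (hcl : IsClosed A) {Y : Type}
    [TopologicalSpace Y] (hY : KK Y) (f : XX n → Y) (hf : Continuous f) :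
    ∃! y, closure (f '' A) = closure ({y} : Set Y) := by
  rcases irr_cases n hA hcl with rfl | ⟨a, rfl⟩
  · exact univ_det n hY f hf
  · have := hY.1
    refine ⟨f a, ?_, ?_⟩
    · show closure (f '' closure {a}) = closure {f a}
      rw [closure_image_closure hf, image_singleton]
    · intro z hz
      rw [closure_image_closure hf, image_singleton] at hz
      exact (inseparable_iff_closure_eq.2 hz.symm).eq

end Q191.KRefl
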