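import Mathlib

open Filter Asymptotics Topology
open scoped ContDiff

namespace Q191

theorem poly_coeff_zero : ∀ (k : ℕ) (c : ℕ → ℝ),
    (fun x : ℝ => ∑ i ∈ Finset.range k, c i * x ^ i) =O[𝓝[≠] (0:ℝ)] (fun x => x ^ k) →
    ∀ i < k, c i = 0 := by
  intro k
  induction k with
  | zero => intro c _ i hi; omega
  | succ k ih =>
    intro c h i hi
    have hc0 : c 0 = 0 := by
      have h1 : Tendsto (fun x : ℝ => ∑ i ∈ Finset.range (k+1), c i * x ^ i) (𝓝[≠] (0:ℝ))
          (𝓝 (∑ i ∈ Finset.range (k+1), c i * (0:ℝ) ^ i)) := by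
        have : Continuous (fun x : ℝ => ∑ i ∈ Finset.range (k+1), c i * x ^ i) := by fun_prop
        exact (this.tendsto 0).mono_left nhdsWithin_le_nhds
      have h2 : Tendsto (fun x : ℝ => x ^ (k+1)) (𝓝[≠] (0:ℝ)) (𝓝 0) := by
        have : Continuous (fun x : ℝ => x ^ (k+1)) := by fun_prop
        have h3 := (this.tendsto 0).mono_left (nhdsWithin_le_nhds (s := {(0:ℝ)}ᶜ))
        simpa using h3
      have h3 := h.trans_tendsto h2
      have h4 := tendsto_nhds_unique h1 h3
      rw [Finset.sum_range_succ'] at h4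
      simpa using h4
    cases i with
    | zero => exact hc0
    | succ i =>
      refine ih (fun j => c (j+1)) ?_ i (by omega)
      have h5 : (fun x : ℝ => x⁻¹ * ∑ i ∈ Finset.range (k+1), c i * x ^ i) =O[𝓝[≠] (0:ℝ)]
          (fun x => x⁻¹ * x ^ (k+1)) := (isBigO_refl (fun x : ℝ => x⁻¹) _).mul h
      refine h5.congr' ?_ ?_
      · filter_upwards [eventually_mem_nhdsWithin] with x hx
        have hx0 : x ≠ 0 := hx
        rw [Finset.sum_range_succ', hc0]
        simp only [zero_mul, add_zero, Finset.mul_sum]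
        refine Finset.sum_congr rfl fun j _ => ?_
        field_simp
        ring
      · filter_upwards [eventually_mem_nhdsWithin] with x hx
        have hx0 : x ≠ 0 := hx
        field_simp
        ring

theorem taylor_limit {k : ℕ} {q : ℝ → ℝ} (hq : ContDiffAt ℝ k q 0)
    (hO : q =O[𝓝[≠] (0:ℝ)] fun x => x ^ k) :
    ∃ a, Tendsto (fun x => q x / x ^ k) (𝓝[≠] (0:ℝ)) (𝓝 a) := by
  obtain ⟨u, hu, hqu⟩ := hq.contDiffOn (m := k) le_rfl (by simp)
  have hu' : u ∈ 𝓝 (0:ℝ) := by simpa using hu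
  obtain ⟨r, hr, hru⟩ := Metric.mem_nhds_iff.1 hu'
  have h1 := taylor_isLittleO (convex_ball (0:ℝ) r) (Metric.mem_ball_self hr) (hqu.mono hru)
  rw [nhdsWithin_eq_nhds.2 (Metric.ball_mem_nhds _ hr)] at h1
  simp only [taylor_within_apply, sub_zero, smul_eq_mul] at h1
  set c : ℕ → ℝ := fun i => ((i.factorial : ℝ)⁻¹) * iteratedDerivWithin i q (Metric.ball 0 r) 0
    with hc
  have h2 : (fun x => q x - ∑ i ∈ Finset.range (k+1), c i * x ^ i) =o[𝓝[≠] (0:ℝ)]
      fun x => x ^ k := by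
    refine (h1.mono nhdsWithin_le_nhds).congr' ?_ (EventuallyEq.refl _ _)
    filter_upwards with x
    congr 1
    refine Finset.sum_congr rfl fun i _ => ?_
    simp only [hc]
    ring
  have h3 : (fun x : ℝ => ∑ i ∈ Finset.range k, c i * x ^ i) =O[𝓝[≠] (0:ℝ)]
      (fun x => x ^ k) := by
    have h4 : (fun x : ℝ => c k * x ^ k) =O[𝓝[≠] (0:ℝ)] (fun x => x ^ k) :=
      (isBigO_refl _ _).const_mul_left _
    refine ((hO.sub h2.isBigO).sub h4).congr' ?_ (EventuallyEq.refl _ _)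
    filter_upwards with x
    rw [Finset.sum_range_succ]
    ring
  have h4 := poly_coeff_zero k c h3
  refine ⟨c k, ?_⟩
  have h5 : Tendsto (fun x => (q x - ∑ i ∈ Finset.range (k+1), c i * x ^ i) / x ^ k)
      (𝓝[≠] (0:ℝ)) (𝓝 0) := h2.tendsto_div_nhds_zero
  have h6 := h5.add_const (c k)
  rw [zero_add] at h6
  refine h6.congr' ?_
  filter_upwards [eventually_mem_nhdsWithin] with x hx
  have hx0 : x ≠ 0 := hx
  have h7 : ∑ i ∈ Finset.range (k+1), c i * x ^ i = c k * x ^ k := by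
    rw [Finset.sum_range_succ, Finset.sum_eq_zero, zero_add]
    intro i hi
    rw [h4 i (Finset.mem_range.1 hi), zero_mul]
  rw [h7]
  field_simp
  ring

theorem oneDim {k : ℕ} (hk : 1 ≤ k) {β γ q : ℝ → ℝ} (hβ : ContDiffAt ℝ k β 0)
    (hγ : ContDiffAt ℝ k γ 0) (hγ' : deriv γ 0 ≠ 0) (hq : q =O[𝓝 (0:ℝ)] fun x => x ^ k)
    (h : ∀ᶠ x in 𝓝 (0:ℝ), γ x = β (x + q x)) :
    ∃ a, Tendsto (fun x => q x / x ^ k) (𝓝[≠] (0:ℝ)) (𝓝 a) := by
  have hk0 : (k : WithTop ℕ∞) ≠ 0 := by
    have : k ≠ 0 := by omega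
    exact_mod_cast this
  have hk1 : (1 : WithTop ℕ∞) ≤ (k : WithTop ℕ∞) := by exact_mod_cast hk
  have hq0 : q 0 = 0 := by
    obtain ⟨C, hC⟩ := hq.bound
    have h1 := hC.self_of_nhds
    have : k ≠ 0 := by omega
    simpa [this] using h1
  have hqx : q =O[𝓝 (0:ℝ)] fun x => x := by
    refine hq.trans ?_
    have h1 : (fun x : ℝ => x ^ k) =O[𝓝 (0:ℝ)] fun x => x ^ 1 := by
      refine IsBigO.of_bound 1 ?_
      filter_upwards [Metric.ball_mem_nhds (0:ℝ) one_pos] with x hx
      have hx1 : |x| ≤ 1 := by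
        have : |x| < 1 := by simpa using hx
        exact this.le
      rw [one_mul, norm_pow, norm_pow, Real.norm_eq_abs]
      exact pow_le_pow_of_le_one (abs_nonneg _) hx1 hk
    simpa using h1
  have hxq : (fun x => x + q x) =O[𝓝 (0:ℝ)] fun x => x := (isBigO_refl _ _).add hqx
  have ht : Tendsto (fun x => x + q x) (𝓝 (0:ℝ)) (𝓝 0) := hxq.trans_tendsto tendsto_id
  have h00 : γ 0 = β 0 := by
    have := h.self_of_nhds
    simpa [hq0] using this
  have hβd : HasDerivAt β (deriv β 0) 0 := (hβ.differentiableAt hk0).hasDerivAt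
  have hγd : HasDerivAt γ (deriv γ 0) 0 := (hγ.differentiableAt hk0).hasDerivAt
  have hβ' : deriv β 0 ≠ 0 := by
    intro h0
    apply hγ'
    rw [h0] at hβd
    have h1 : (fun s => β s - β 0) =o[𝓝 (0:ℝ)] fun s => s := by
      have := hasDerivAt_iff_isLittleO.1 hβd
      simpa using this
    have h2 : (fun x => β (x + q x) - β 0) =o[𝓝 (0:ℝ)] fun x => x :=
      (h1.comp_tendsto ht).trans_isBigO hxq
    have h3 : HasDerivAt γ 0 0 := by
      rw [hasDerivAt_iff_isLittleO]
      simp only [smul_zero, sub_zero]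
      refine h2.congr' ?_ (EventuallyEq.refl _ _)
      filter_upwards [h] with x hx
      rw [hx, h00]
    exact h3.deriv
  set f' : ℝ ≃L[ℝ] ℝ := ContinuousLinearEquiv.unitsEquivAut ℝ (Units.mk0 (deriv β 0) hβ') with hf'
  have hfd : HasFDerivAt β (f' : ℝ →L[ℝ] ℝ) 0 := by
    refine hβd.hasFDerivAt.congr_fderiv ?_
    ext
    simp [hf']
  have hinv := hβ.to_localInverse hfd hk0
  have hleft : ∀ᶠ s in 𝓝 (0:ℝ), hβ.localInverse hfd hk0 (β s) = s := by
    have hmem := hβ.mem_toOpenPartialHomeomorph_source hfd hk0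
    have hop := (hβ.toOpenPartialHomeomorph β hfd hk0).open_source
    filter_upwards [hop.mem_nhds hmem] with s hs
    exact (hβ.toOpenPartialHomeomorph β hfd hk0).left_inv hs
  have hqe : (fun x => hβ.localInverse hfd hk0 (γ x) - x) =ᶠ[𝓝 (0:ℝ)] q := by
    filter_upwards [ht.eventually hleft, h] with x h1 h2
    rw [h2, h1]
    ring
  have hqc : ContDiffAt ℝ k q 0 := by
    refine ContDiffAt.congr_of_eventuallyEq ?_ hqe.symm
    refine ContDiffAt.sub ?_ contDiffAt_id
    have : ContDiffAt ℝ k (hβ.localInverse hfd hk0) (γ 0) := by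
      rw [h00]
      exact hinv
    exact this.comp (0:ℝ) hγ
  exact taylor_limit hqc (hq.mono nhdsWithin_le_nhds)

/-- the one-variable profile -/
noncomputable def prof (x : ℝ) : ℝ := Real.sin (Real.log (1 + Real.log (1 + (x ^ 2)⁻¹)))

theorem prof_no_limit (a : ℝ) : ¬ Tendsto prof (𝓝[≠] (0:ℝ)) (𝓝 a) := by
  intro h
  set τ : ℝ → ℝ := fun y => (Real.sqrt (Real.exp (Real.exp y - 1) - 1))⁻¹ with hτ
  have hpos : ∀ y : ℝ, 0 < y → 0 < Real.exp (Real.exp y - 1) - 1 := by
    intro y hy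
    have h1 : 1 < Real.exp y := Real.one_lt_exp_iff.2 hy
    have h2 : 1 < Real.exp (Real.exp y - 1) := Real.one_lt_exp_iff.2 (by linarith)
    linarith
  have hinf : Tendsto (fun y => Real.exp (Real.exp y - 1) - 1) atTop atTop := by
    have h1 : Tendsto (fun y => Real.exp y - 1) atTop atTop :=
      tendsto_atTop_add_const_right _ _ Real.tendsto_exp_atTop
    exact tendsto_atTop_add_const_right _ _ (Real.tendsto_exp_atTop.comp h1)
  have hτ0 : Tendsto τ atTop (𝓝[≠] (0:ℝ)) := by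
    rw [tendsto_nhdsWithin_iff]
    refine ⟨tendsto_inv_atTop_zero.comp (Real.tendsto_sqrt_atTop.comp hinf), ?_⟩
    filter_upwards [eventually_gt_atTop 0] with y hy
    have := Real.sqrt_pos.2 (hpos y hy)
    simp only [hτ, Set.mem_compl_iff, Set.mem_singleton_iff, inv_eq_zero]
    exact this.ne'
  have hval : ∀ y : ℝ, 0 < y → prof (τ y) = Real.sin y := by
    intro y hy
    have h1 := hpos y hy
    have h2 : ((τ y) ^ 2)⁻¹ = Real.exp (Real.exp y - 1) - 1 := by
      simp only [hτ]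
      rw [inv_pow, inv_inv, Real.sq_sqrt h1.le]
    unfold prof
    rw [h2]
    congr 1
    rw [show (1 + (Real.exp (Real.exp y - 1) - 1)) = Real.exp (Real.exp y - 1) by ring,
      Real.log_exp, show (1 + (Real.exp y - 1)) = Real.exp y by ring, Real.log_exp]
  have hsin : Tendsto Real.sin atTop (𝓝 a) := by
    refine (h.comp hτ0).congr' ?_
    filter_upwards [eventually_gt_atTop 0] with y hy
    exact hval y hy
  have hs1 : Tendsto (fun n : ℕ => (n:ℝ) * Real.pi) atTop atTop :=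
    tendsto_natCast_atTop_atTop.atTop_mul_const Real.pi_pos
  have hs2 : Tendsto (fun n : ℕ => Real.pi / 2 + (n:ℝ) * (2 * Real.pi)) atTop atTop :=
    tendsto_atTop_add_const_left _ _
      (tendsto_natCast_atTop_atTop.atTop_mul_const (by positivity))
  have h1 : a = 0 := by
    have h2 := hsin.comp hs1
    have h3 : (Real.sin ∘ fun n : ℕ => (n:ℝ) * Real.pi) = fun _ => (0:ℝ) := by
      funext n
      exact Real.sin_nat_mul_pi n
    rw [h3] at h2
    exact tendsto_nhds_unique h2 tendsto_const_nhds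
  have h2 : a = 1 := by
    have h2 := hsin.comp hs2
    have h3 : (Real.sin ∘ fun n : ℕ => Real.pi / 2 + (n:ℝ) * (2 * Real.pi)) = fun _ => (1:ℝ) := by
      funext n
      simp only [Function.comp]
      rw [Real.sin_add_nat_mul_two_pi, Real.sin_pi_div_two]
    rw [h3] at h2
    exact tendsto_nhds_unique h2 tendsto_const_nhds
  rw [h1] at h2
  exact zero_ne_one h2

theorem no_limit (k : ℕ) {c : ℝ} (hc : c ≠ 0) (a : ℝ) :
    ¬ Tendsto (fun x => (c * Real.sin x ^ k * prof x) / x ^ k) (𝓝[≠] (0:ℝ)) (𝓝 a) := by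
  intro h
  have h1 : Tendsto (fun x : ℝ => Real.sin x / x) (𝓝[≠] (0:ℝ)) (𝓝 1) := by
    have := (hasDerivAt_iff_tendsto_slope.1 (Real.hasDerivAt_sin 0))
    rw [Real.cos_zero] at this
    refine this.congr' ?_
    filter_upwards with x
    simp [slope_def_field]
  have h2 : Tendsto (fun x : ℝ => c * (Real.sin x / x) ^ k) (𝓝[≠] (0:ℝ)) (𝓝 c) := by
    have := (h1.pow k).const_mul c
    simpa using this
  have h3 := h.div h2 hc
  refine prof_no_limit (a / c) (h3.congr' ?_)
  have h4 : ∀ᶠ x in 𝓝[≠] (0:ℝ), c * (Real.sin x / x) ^ k ≠ 0 := h2.eventually_ne hc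
  filter_upwards [h4, eventually_mem_nhdsWithin] with x hx hx0
  have hx0' : x ≠ 0 := hx0
  simp only [Pi.div_apply]
  rw [div_eq_iff hx]
  rw [div_pow]
  field_simp

end Q191
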