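import Pool.Agent.Q191.ConjAct
import Pool.Agent.Q191.OneDim

open Filter Asymptotics Topology
open scoped ContDiff

set_option linter.unusedSectionVars false

namespace Q191

section blk

variable {V E : Type} [NormedAddCommGroup V] [NormedSpace ℝ V] [NormedAddCommGroup E]
  [NormedSpace ℝ E]

/-- the block map `g ⊕ 1` -/
def blk (π : V →L[ℝ] E) (ι : E →L[ℝ] V) (g : E →L[ℝ] E) : V →L[ℝ] V :=
  ContinuousLinearMap.id ℝ V + ι.comp ((g - ContinuousLinearMap.id ℝ E).comp π)

theorem blk_apply (π : V →L[ℝ] E) (ι : E →L[ℝ] V) (g : E →L[ℝ] E) (z : V) :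
    blk π ι g z = z + ι (g (π z) - π z) := rfl

end blk

variable {V E : Type} [NormedAddCommGroup V] [InnerProductSpace ℝ V] [CompleteSpace V]
  [Nontrivial V] [NormedAddCommGroup E] [NormedSpace ℝ E] [Nontrivial E]

theorem not_lin {k : ℕ} (hk : 1 ≤ k) (t : V →L[ℝ] ℝ) (ht : ‖t‖ ≤ 1) {e : V}
    (he : ‖e‖ = 1) (hte : t e = 1) (π : V →L[ℝ] E) (ι : E →L[ℝ] V) (hπι : ∀ x, π (ι x) = x)
    (hπe : π e = 0) (S : Set (E →L[ℝ] E))
    (hS : ∀ u : E, u ≠ 0 → ∃ g ∈ S, ∃ l : ℝ, 0 < l ∧ l < 1 ∧ g u = l • u)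
    (φ : OpenPartialHomeomorph V V) (V₀ : Set V) (hV₀ : IsOpen V₀) (h0 : (0:V) ∈ V₀)
    (hsub : V₀ ⊆ φ.source) (hφ : ContDiffOn ℝ k φ φ.source)
    (hφs : ContDiffOn ℝ k φ.symm φ.target) (hφ0 : φ 0 = 0)
    (heq : ∀ g ∈ S, ∀ x ∈ V₀, φ (beta hk t ht he.le (blk π ι g) x) = blk π ι g (φ x)) :
    False := by
  set Ψ := psi hk t ht he.le with hΨ
  set ψ : V → V := fun z => φ (Ψ.symm z) with hψdef
  have hk0 : (k : WithTop ℕ∞) ≠ 0 := by
    have : k ≠ 0 := by omega
    exact_mod_cast this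
  set V₁ : Set V := Ψ.symm ⁻¹' V₀ with hV₁
  have hV₁o : IsOpen V₁ := hV₀.preimage Ψ.symm.continuous
  have hV₁0 : (0:V) ∈ V₁ := by
    show Ψ.symm 0 ∈ V₀
    rw [hΨ, psi_symm_zero]
    exact h0
  obtain ⟨δ, hδ, hball⟩ := Metric.isOpen_iff.1 hV₁o 0 hV₁0
  -- equivariance of ψ
  have h1 : ∀ g ∈ S, ∀ z ∈ V₁, ψ (blk π ι g z) = blk π ι g (ψ z) := by
    intro g hg z hz
    have h2 := heq g hg (Ψ.symm z) hz
    have h3 : beta hk t ht he.le (blk π ι g) (Ψ.symm z) = Ψ.symm (blk π ι g z) := by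
      simp [beta, hΨ]
    rw [h3] at h2
    exact h2
  set R : V →L[ℝ] V := ContinuousLinearMap.id ℝ V - ι.comp π with hR
  have hRapp : ∀ z, R z = z - ι (π z) := fun z => rfl
  have h2 : ∀ g z, R (blk π ι g z) = R z := by
    intro g z
    rw [hRapp, hRapp, blk_apply, map_add, hπι, map_add, map_sub]
    abel
  have hπR : ∀ z, π (R z) = 0 := by
    intro z
    rw [hRapp, map_sub, hπι, sub_self]
  have hRι : ∀ x, R (ι x) = 0 := by
    intro x
    rw [hRapp, hπι, sub_self]
  have hRe : R e = e := by rw [hRapp, hπe, map_zero, sub_zero]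
  have hsrc : ∀ z ∈ V₁, φ.source ∈ 𝓝 (Ψ.symm z) := fun z hz =>
    φ.open_source.mem_nhds (hsub hz)
  have h3 : ∀ z ∈ V₁, ContinuousAt ψ z := by
    intro z hz
    have h4 : ContinuousAt φ (Ψ.symm z) := φ.continuousAt (hsub hz)
    exact ContinuousAt.comp (f := Ψ.symm) (x := z) h4 Ψ.symm.continuous.continuousAt
  -- R ψ only depends on R z
  have h4 : ∀ z, z ∈ Metric.ball (0:V) δ → R z ∈ Metric.ball (0:V) δ → R (ψ z) = R (ψ (R z)) := by
    intro z hz hRz
    by_cases hx : π z = 0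
    · have : R z = z := by rw [hRapp, hx, map_zero, sub_zero]
      rw [this]
    · obtain ⟨g, hg, l, hl0, hl1, hgl⟩ := hS (π z) hx
      set w : ℕ → V := fun j => R z + (l ^ j) • ι (π z) with hw
      have hzw : z = R z + ι (π z) := by rw [hRapp]; abel
      have hwball : ∀ j, w j ∈ Metric.ball (0:V) δ := by
        intro j
        have h5 : w j = (1 - l ^ j) • R z + l ^ j • z := by
          have h6 : w j = R z + l ^ j • (z - R z) := by
            simp only [hw]
            congr 2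
            rw [hRapp]
            abel
          rw [h6, smul_sub, sub_smul, one_smul]
          abel
        rw [h5]
        exact (convex_ball (0:V) δ) hRz hz (by
          have := pow_le_one₀ (n := j) hl0.le hl1.le
          linarith) (by positivity) (by ring)
      have hstep : ∀ j, blk π ι g (w j) = w (j + 1) := by
        intro j
        have h5 : π (w j) = l ^ j • π z := by
          simp only [hw, map_add, map_smul, hπR, hπι, zero_add]
        rw [blk_apply, h5, map_smul, hgl]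
        simp only [hw, map_sub, map_smul, smul_smul, pow_succ]
        abel
      have hconst : ∀ j, R (ψ (w j)) = R (ψ z) := by
        intro j
        induction j with
        | zero => simp only [hw, pow_zero, one_smul]; rw [← hzw]
        | succ j ih =>
          rw [← hstep j, h1 g hg (w j) (hball (hwball j)), h2, ih]
      have hlim : Tendsto w atTop (𝓝 (R z)) := by
        have h5 : Tendsto (fun j : ℕ => l ^ j) atTop (𝓝 0) :=
          tendsto_pow_atTop_nhds_zero_of_lt_one hl0.le hl1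
        have h6 := (h5.smul_const (ι (π z))).const_add (R z)
        simpa [hw] using h6
      have h7 : Tendsto (fun j => R (ψ (w j))) atTop (𝓝 (R (ψ (R z)))) :=
        (R.continuous.tendsto _).comp ((h3 (R z) (hball hRz)).tendsto.comp hlim)
      have h8 : (fun j => R (ψ (w j))) = fun _ => R (ψ z) := by
        funext j
        exact hconst j
      rw [h8] at h7
      exact tendsto_nhds_unique tendsto_const_nhds h7
  -- a small nonzero vector in the image of ι
  obtain ⟨u, hu⟩ := exists_ne (0:E)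
  have hιu : ι u ≠ 0 := by
    intro h
    apply hu
    rw [← hπι u, h, map_zero]
  obtain ⟨ε, hε, hεδ⟩ : ∃ ε : ℝ, 0 < ε ∧ ε * ‖ι u‖ < δ / 2 := by
    have hpos : 0 < ‖ι u‖ := norm_pos_iff.2 hιu
    refine ⟨δ / (4 * ‖ι u‖), by positivity, ?_⟩
    have : δ / (4 * ‖ι u‖) * ‖ι u‖ = δ / 4 := by field_simp
    rw [this]
    linarith
  set X : V := ε • ι u with hX
  have hX0 : X ≠ 0 := smul_ne_zero hε.ne' hιu
  have hXn : ‖X‖ < δ / 2 := by
    rw [hX, norm_smul, Real.norm_of_nonneg hε.le]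
    exact hεδ
  have hRX : R X = 0 := by rw [hX, map_smul, hRι, smul_zero]
  have h5 : ∀ s : ℝ, |s| < δ / 2 → R (ψ (s • e)) = R (ψ (X + s • e)) := by
    intro s hs
    have hse : ‖s • e‖ < δ / 2 := by rw [norm_smul, he, mul_one]; exact hs
    have hRs : R (X + s • e) = s • e := by rw [map_add, hRX, map_smul, hRe, zero_add]
    have h6 := h4 (X + s • e) (by
      rw [mem_ball_zero_iff]
      exact (norm_add_le _ _).trans_lt (by linarith)) (by
      rw [hRs, mem_ball_zero_iff]
      linarith)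
    rw [h6, hRs]
  -- derivative of φ at 0
  have hφ0' : ContDiffAt ℝ k φ 0 := hφ.contDiffAt (φ.open_source.mem_nhds (hsub h0))
  have h0t : (0:V) ∈ φ.target := by
    have := φ.map_source (hsub h0)
    rwa [hφ0] at this
  have hφs0 : ContDiffAt ℝ k φ.symm 0 := hφs.contDiffAt (φ.open_target.mem_nhds h0t)
  set D : V →L[ℝ] V := fderiv ℝ φ 0 with hD
  have hDd : HasFDerivAt φ D 0 := (hφ0'.differentiableAt hk0).hasFDerivAt
  have hDinj : ∀ v, D v = 0 → v = 0 := by
    intro v hv
    have hs : HasFDerivAt φ.symm (fderiv ℝ φ.symm 0) (φ 0) := by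
      rw [hφ0]
      exact (hφs0.differentiableAt hk0).hasFDerivAt
    have hc := hs.comp (0:V) hDd
    have hid : (φ.symm ∘ φ) =ᶠ[𝓝 (0:V)] id := by
      filter_upwards [φ.open_source.mem_nhds (hsub h0)] with x hx
      exact φ.left_inv hx
    have hid2 : HasFDerivAt (id : V → V) ((fderiv ℝ φ.symm 0).comp D) 0 :=
      hc.congr_of_eventuallyEq hid.symm
    have h6 := hid2.unique (hasFDerivAt_id (0:V))
    have h7 := DFunLike.congr_fun h6 v
    simp only [ContinuousLinearMap.comp_apply, hv, map_zero, ContinuousLinearMap.id_apply] at h7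
    exact h7.symm
  set d : V := D e with hd
  have he0 : e ≠ 0 := by
    intro h
    rw [h, norm_zero] at he
    exact zero_ne_one he
  have hd0 : d ≠ 0 := fun h => he0 (hDinj e h)
  -- q
  set q : ℝ → ℝ := fun τ => pert k t (τ • e) with hq
  have hq1 : ∀ τ, q τ = cst k * Real.sin τ ^ k * prof τ := by
    intro τ
    simp only [hq, pert, map_smul, hte, smul_eq_mul, mul_one, ell, theta, bigL, prof, norm_smul,
      he, Real.norm_eq_abs, sq_abs]
  have hq2 : ∀ τ, |q τ| ≤ |τ| ^ k := by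
    intro τ
    rw [hq1, abs_mul, abs_mul, abs_of_pos (cst_pos k), abs_pow]
    have h6 : |Real.sin τ| ≤ |τ| := Real.abs_sin_le_abs
    have h7 : |prof τ| ≤ 1 := Real.abs_sin_le_one _
    have h8 : cst k ≤ 1 := by
      unfold cst
      rw [div_le_one (by positivity)]
      have : (0:ℝ) ≤ k := Nat.cast_nonneg k
      linarith
    have h9 := cst_pos k
    calc cst k * |Real.sin τ| ^ k * |prof τ| ≤ 1 * |τ| ^ k * 1 := by gcongr
      _ = |τ| ^ k := by ring
  have hqO : q =O[𝓝 (0:ℝ)] fun x => x ^ k := by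
    refine IsBigO.of_bound 1 (Eventually.of_forall fun τ => ?_)
    rw [one_mul, Real.norm_eq_abs, norm_pow, Real.norm_eq_abs]
    exact hq2 τ
  have hψq : ∀ τ, ψ ((τ + q τ) • e) = φ (τ • e) := by
    intro τ
    have h6 : (τ + q τ) • e = Ψ (τ • e) := by
      rw [hΨ, psi_apply, add_smul]
    simp only [hψdef]
    rw [h6, Homeomorph.symm_apply_apply]
  have htend : Tendsto (fun τ => τ + q τ) (𝓝 (0:ℝ)) (𝓝 0) := by
    have h6 : Tendsto (fun τ : ℝ => τ ^ k) (𝓝 (0:ℝ)) (𝓝 0) := by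
      have : Tendsto (fun τ : ℝ => τ ^ k) (𝓝 (0:ℝ)) (𝓝 (0 ^ k)) := (continuous_pow k).tendsto 0
      rwa [zero_pow (by omega)] at this
    have h7 := hqO.trans_tendsto h6
    simpa using (tendsto_id.add h7)
  -- π D e = 0
  have hπd : π d = 0 := by
    have h6 : ∀ s : ℝ, s • e ∈ V₁ → π (ψ (s • e)) = 0 := by
      intro s hs
      by_contra hne
      obtain ⟨g, hg, l, hl0, hl1, hgl⟩ := hS _ hne
      have h7 := h1 g hg (s • e) hs
      have h8 : blk π ι g (s • e) = s • e := by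
        rw [blk_apply, map_smul, hπe, smul_zero, map_zero, sub_zero, map_zero, add_zero]
      rw [h8, blk_apply, hgl] at h7
      have h9 := congrArg π h7
      rw [map_add, hπι] at h9
      have h10 : l • π (ψ (s • e)) = π (ψ (s • e)) := by
        have : π (ψ (s • e)) + (l • π (ψ (s • e)) - π (ψ (s • e))) = l • π (ψ (s • e)) := by abel
        rw [this] at h9
        exact h9.symm
      have h11 : (l - 1) • π (ψ (s • e)) = 0 := by rw [sub_smul, one_smul, h10, sub_self]
      rcases smul_eq_zero.1 h11 with h | h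
      · linarith
      · exact hne h
    have h7 : ∀ᶠ τ in 𝓝 (0:ℝ), π (φ (τ • e)) = 0 := by
      have h8 : Tendsto (fun τ : ℝ => (τ + q τ) • e) (𝓝 0) (𝓝 0) := by
        simpa using htend.smul_const e
      filter_upwards [h8.eventually (hV₁o.mem_nhds hV₁0)] with τ hτ
      rw [← hψq τ]
      exact h6 _ hτ
    have h8 : HasDerivAt (fun τ : ℝ => π (φ (τ • e))) (π (D e)) 0 := by
      have h9 : HasDerivAt (fun τ : ℝ => τ • e) e 0 := by
        simpa using (hasDerivAt_id (0:ℝ)).smul_const e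
      have h10 : HasFDerivAt φ D ((0:ℝ) • e) := by rw [zero_smul]; exact hDd
      have h11 := h10.comp_hasDerivAt (0:ℝ) h9
      exact π.hasFDerivAt.comp_hasDerivAt (0:ℝ) h11
    have h9 : HasDerivAt (fun τ : ℝ => π (φ (τ • e))) 0 0 :=
      (hasDerivAt_const (0:ℝ) (0:E)).congr_of_eventuallyEq h7
    exact h8.unique h9
  -- functional
  set ξ : V →L[ℝ] ℝ := innerSL ℝ d with hξ
  set γ : ℝ → ℝ := fun τ => ξ (R (φ (τ • e))) with hγ
  set β : ℝ → ℝ := fun s => ξ (R (ψ (s • e))) with hβ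
  have hline : ContDiff ℝ ∞ (fun τ : ℝ => τ • e) := contDiff_id.smul contDiff_const
  have hγc : ContDiffAt ℝ k γ 0 := by
    have h6 : ContDiffAt ℝ k φ ((0:ℝ) • e) := by rw [zero_smul]; exact hφ0'
    have h7 : ContDiffAt ℝ k (fun τ : ℝ => φ (τ • e)) 0 :=
      ContDiffAt.comp (0:ℝ) h6 (hline.contDiffAt.of_le (by exact_mod_cast le_top))
    exact (ξ.comp R).contDiff.contDiffAt.comp (0:ℝ) h7
  have hβc : ContDiffAt ℝ k β 0 := by
    have hXV : X + (0:ℝ) • e ∈ V₁ := by
      apply hball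
      rw [zero_smul, add_zero, mem_ball_zero_iff]
      linarith
    have h6 : ContDiffAt ℝ k φ (Ψ.symm (X + (0:ℝ) • e)) :=
      hφ.contDiffAt (hsrc _ hXV)
    have h7 : ContDiffAt ℝ k Ψ.symm (X + (0:ℝ) • e) := by
      have : X + (0:ℝ) • e ≠ 0 := by rw [zero_smul, add_zero]; exact hX0
      exact (psi_symm_contDiffAt hk t ht he.le this).of_le (by exact_mod_cast le_top)
    have h8 : ContDiffAt ℝ k (fun s : ℝ => X + s • e) 0 :=
      (contDiff_const.add hline).contDiffAt.of_le (by exact_mod_cast le_top)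
    have h9 : ContDiffAt ℝ k (fun s : ℝ => Ψ.symm (X + s • e)) 0 := ContDiffAt.comp (0:ℝ) h7 h8
    have h10 : ContDiffAt ℝ k (fun s : ℝ => φ (Ψ.symm (X + s • e))) 0 :=
      ContDiffAt.comp (0:ℝ) h6 h9
    have h11 : ContDiffAt ℝ k (fun s : ℝ => ξ (R (ψ (X + s • e)))) 0 :=
      (ξ.comp R).contDiff.contDiffAt.comp (0:ℝ) h10
    refine h11.congr_of_eventuallyEq ?_
    have hb : ∀ᶠ s in 𝓝 (0:ℝ), |s| < δ / 2 := by
      filter_upwards [Metric.ball_mem_nhds (0:ℝ) (half_pos hδ)] with s hs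
      simpa using hs
    filter_upwards [hb] with s hs
    simp only [hβ]
    rw [h5 s hs]
  have hγ' : deriv γ 0 ≠ 0 := by
    have h9 : HasDerivAt (fun τ : ℝ => τ • e) e 0 := by
      simpa using (hasDerivAt_id (0:ℝ)).smul_const e
    have h10 : HasFDerivAt φ D ((0:ℝ) • e) := by rw [zero_smul]; exact hDd
    have h11 := h10.comp_hasDerivAt (0:ℝ) h9
    have h12 : HasDerivAt γ (ξ (R (D e))) 0 := (ξ.comp R).hasFDerivAt.comp_hasDerivAt (0:ℝ) h11
    rw [h12.deriv, ← hd, hRapp, hπd, map_zero, sub_zero, hξ]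
    have : (innerSL ℝ d) d = ‖d‖ ^ 2 := real_inner_self_eq_norm_sq d
    rw [this]
    have := norm_pos_iff.2 hd0
    positivity
  have hrel : ∀ᶠ τ in 𝓝 (0:ℝ), γ τ = β (τ + q τ) := by
    filter_upwards with τ
    simp only [hγ, hβ]
    rw [hψq τ]
  obtain ⟨a, ha⟩ := oneDim hk hβc hγc hγ' hqO hrel
  refine no_limit k (cst_pos k).ne' a (ha.congr fun τ => ?_)
  rw [hq1]

end Q191
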