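import Mathlib

set_option autoImplicit false

open Set

namespace Q191.QGraph

/-- A compact metric graph: finitely many vertices and edges, loops and multiple edges allowed,
the edge `e` is the interval `[0, len e]` glued to `src e` at `0` and to `dst e` at `len e`. -/
structure MGraph where
  V : Type
  E : Type
  [finV : Fintype V]
  [finE : Fintype E]
  [decV : DecidableEq V]
  [decE : DecidableEq E]
  src : E → V
  dst : E → V
  len : E → ℝ
  len_pos : ∀ e, 0 < len e

attribute [instance] MGraph.finV MGraph.finE MGraph.decV MGraph.decE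

namespace MGraph

variable (G : MGraph)

/-- Two vertices joined by an edge of the set `S`. -/
def Adj (S : Set G.E) (v w : G.V) : Prop := ∃ e ∈ S, G.src e = v ∧ G.dst e = w

/-- The graph with edge set `S` is connected. -/
def ConnectedOn (S : Set G.E) : Prop := ∀ v w : G.V, Relation.EqvGen (G.Adj S) v w

/-- The graph is connected (and nonempty). -/
def Connected : Prop := Nonempty G.V ∧ G.ConnectedOn univ

/-- A bridge: an edge whose removal disconnects the graph. -/
def IsBridge (e : G.E) : Prop := ¬ G.ConnectedOn {e}ᶜ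

/-- The points of the metric graph: vertices and interior points of edges. -/
def Pt : Type := G.V ⊕ (Σ e : G.E, Ioo (0 : ℝ) (G.len e))

/-- The value of a function on the graph, given by its vertex values and its edge functions. -/
def ev (val : G.V → ℝ) (u : G.E → ℝ → ℝ) : G.Pt → ℝ
  | Sum.inl v => val v
  | Sum.inr ⟨e, x⟩ => u e x

/-- `(val, u)` solves `-u'' = mu u` on every edge, is continuous at the vertices and satisfies the
Kirchhoff condition at every vertex (standard vertex conditions); `w e` is the derivative of `u e`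
on the closed edge. -/
def IsEig (mu : ℝ) (val : G.V → ℝ) (u : G.E → ℝ → ℝ) : Prop :=
  (∀ e, u e 0 = val (G.src e)) ∧ (∀ e, u e (G.len e) = val (G.dst e)) ∧
  ∃ w : G.E → ℝ → ℝ,
    (∀ e, ∀ x ∈ Icc (0 : ℝ) (G.len e),
      HasDerivWithinAt (u e) (w e x) (Icc (0 : ℝ) (G.len e)) x) ∧
    (∀ e, ∀ x ∈ Icc (0 : ℝ) (G.len e),
      HasDerivWithinAt (w e) (-mu * u e x) (Icc (0 : ℝ) (G.len e)) x) ∧
    ∀ v : G.V, (∑ e, if G.src e = v then w e 0 else 0)
      - (∑ e, if G.dst e = v then w e (G.len e) else 0) = 0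

/-- `mu` is an eigenvalue of the standard Laplacian. -/
def IsEigenvalue (mu : ℝ) : Prop :=
  ∃ val u, G.IsEig mu val u ∧ ∃ p, G.ev val u p ≠ 0

/-- `mu` is the smallest positive eigenvalue. -/
def IsMuTwo (mu : ℝ) : Prop :=
  0 < mu ∧ G.IsEigenvalue mu ∧ ∀ nu, 0 < nu → G.IsEigenvalue nu → mu ≤ nu

/-- `(val, u)` is a second eigenfunction. -/
def IsSecond (val : G.V → ℝ) (u : G.E → ℝ → ℝ) : Prop :=
  ∃ mu, G.IsMuTwo mu ∧ G.IsEig mu val u ∧ ∃ p, G.ev val u p ≠ 0

/-- The set of points at which some second eigenfunction attains its global maximum or minimum. -/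
def HotSpots : Set G.Pt :=
  {p | ∃ val u, G.IsSecond val u ∧
    ((∀ q, G.ev val u q ≤ G.ev val u p) ∨ (∀ q, G.ev val u p ≤ G.ev val u q))}

end MGraph

/-- Solutions of the edge equation are trigonometric. -/
lemma ode {L k : ℝ} (hk : k ≠ 0) {u w : ℝ → ℝ}
    (hu : ∀ x ∈ Icc (0 : ℝ) L, HasDerivWithinAt u (w x) (Icc (0 : ℝ) L) x)
    (hw : ∀ x ∈ Icc (0 : ℝ) L, HasDerivWithinAt w (-(k ^ 2) * u x) (Icc (0 : ℝ) L) x)
    {x : ℝ} (hx : x ∈ Icc (0 : ℝ) L) :
    u x = u 0 * Real.cos (k * x) + w 0 / k * Real.sin (k * x) ∧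
    w x = k * (-(u 0) * Real.sin (k * x) + w 0 / k * Real.cos (k * x)) := by
  have hL : (0 : ℝ) ∈ Icc (0 : ℝ) L := ⟨le_rfl, hx.1.trans hx.2⟩
  have hc : ∀ y ∈ Icc (0 : ℝ) L,
      HasDerivWithinAt (fun y => Real.cos (k * y)) (-(k * Real.sin (k * y))) (Icc (0 : ℝ) L) y := by
    intro y _
    have h := ((hasDerivAt_id y).const_mul k).cos
    refine (h.congr_deriv ?_).hasDerivWithinAt
    simp; ring
  have hs : ∀ y ∈ Icc (0 : ℝ) L,
      HasDerivWithinAt (fun y => Real.sin (k * y)) (k * Real.cos (k * y)) (Icc (0 : ℝ) L) y := by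
    intro y _
    have h := ((hasDerivAt_id y).const_mul k).sin
    refine (h.congr_deriv ?_).hasDerivWithinAt
    simp; ring
  have hA : ∀ y ∈ Icc (0 : ℝ) L,
      HasDerivWithinAt (fun y => u y * Real.cos (k * y) - w y / k * Real.sin (k * y)) 0
        (Icc (0 : ℝ) L) y := by
    intro y hy
    have h := ((hu y hy).mul (hc y hy)).sub (((hw y hy).div_const k).mul (hs y hy))
    refine h.congr_deriv ?_
    field_simp
    ring
  have hB : ∀ y ∈ Icc (0 : ℝ) L,
      HasDerivWithinAt (fun y => u y * Real.sin (k * y) + w y / k * Real.cos (k * y)) 0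
        (Icc (0 : ℝ) L) y := by
    intro y hy
    have h := ((hu y hy).mul (hs y hy)).add (((hw y hy).div_const k).mul (hc y hy))
    refine h.congr_deriv ?_
    field_simp
    ring
  have hconv : Convex ℝ (Icc (0 : ℝ) L) := convex_Icc _ _
  have constA : ∀ F : ℝ → ℝ, (∀ y ∈ Icc (0 : ℝ) L, HasDerivWithinAt F 0 (Icc (0 : ℝ) L) y) →
      F x = F 0 := by
    intro F hF
    have h := hconv.norm_image_sub_le_of_norm_hasDerivWithin_le (f := F) (f' := fun _ => 0)
      (C := 0) hF (by intro y _; simp) hL hx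
    have h2 : ‖F x - F 0‖ ≤ 0 := by simpa using h
    exact sub_eq_zero.1 (norm_le_zero_iff.1 h2)
  have e1 := constA _ hA
  have e2 := constA _ hB
  simp only [mul_zero, Real.cos_zero, Real.sin_zero, mul_one, sub_zero, zero_add] at e1 e2
  have hsc := Real.sin_sq_add_cos_sq (k * x)
  constructor
  · calc u x = (u x * Real.cos (k * x) - w x / k * Real.sin (k * x)) * Real.cos (k * x)
        + (u x * Real.sin (k * x) + w x / k * Real.cos (k * x)) * Real.sin (k * x) := by
          linear_combination (-(u x)) * hsc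
      _ = _ := by rw [e1, e2]
  · have : w x / k = -(u x * Real.cos (k * x) - w x / k * Real.sin (k * x)) * Real.sin (k * x)
        + (u x * Real.sin (k * x) + w x / k * Real.cos (k * x)) * Real.cos (k * x) := by
          linear_combination (-(w x / k)) * hsc
    rw [e1, e2] at this
    field_simp at this ⊢
    linarith

/-- trigonometric functions solve the edge equation -/
lemma ode_sol (L k A B : ℝ) :
    (∀ x ∈ Icc (0 : ℝ) L, HasDerivWithinAt (fun x => A * Real.cos (k * x) + B * Real.sin (k * x))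
      (k * (-A * Real.sin (k * x) + B * Real.cos (k * x))) (Icc (0 : ℝ) L) x) ∧
    (∀ x ∈ Icc (0 : ℝ) L, HasDerivWithinAt
      (fun x => k * (-A * Real.sin (k * x) + B * Real.cos (k * x)))
      (-(k ^ 2) * (A * Real.cos (k * x) + B * Real.sin (k * x))) (Icc (0 : ℝ) L) x) := by
  constructor
  · intro x _
    have h := (((hasDerivAt_id x).const_mul k).cos.const_mul A).add
      (((hasDerivAt_id x).const_mul k).sin.const_mul B)
    refine (h.congr_deriv ?_).hasDerivWithinAt
    simp; ring
  · intro x _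
    have h := ((((hasDerivAt_id x).const_mul k).sin.const_mul (-A)).add
      (((hasDerivAt_id x).const_mul k).cos.const_mul B)).const_mul k
    refine (h.congr_deriv ?_).hasDerivWithinAt
    simp; ring

end Q191.QGraph
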