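import Pool.Agent.Q191.QGraphLol2

set_option autoImplicit false

open Set

namespace Q191.QGraph

namespace MGraph

variable (G : MGraph)

/-- `(val, u)` solves `-u'' = mu u` on every edge, is continuous at the vertices and satisfies the
delta condition of strength `al v` at every vertex `v`: the sum of the derivatives taken into the
edges is `al v * val v`; `w e` is the derivative of `u e` on the closed edge. -/
def IsEigD (al : G.V → ℝ) (mu : ℝ) (val : G.V → ℝ) (u : G.E → ℝ → ℝ) : Prop :=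
  (∀ e, u e 0 = val (G.src e)) ∧ (∀ e, u e (G.len e) = val (G.dst e)) ∧
  ∃ w : G.E → ℝ → ℝ,
    (∀ e, ∀ x ∈ Icc (0 : ℝ) (G.len e),
      HasDerivWithinAt (u e) (w e x) (Icc (0 : ℝ) (G.len e)) x) ∧
    (∀ e, ∀ x ∈ Icc (0 : ℝ) (G.len e),
      HasDerivWithinAt (w e) (-mu * u e x) (Icc (0 : ℝ) (G.len e)) x) ∧
    ∀ v : G.V, (∑ e, if G.src e = v then w e 0 else 0)
      - (∑ e, if G.dst e = v then w e (G.len e) else 0) = al v * val v

/-- Two functions on the graph are linearly dependent. -/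
def Dep (val : G.V → ℝ) (u : G.E → ℝ → ℝ) (val' : G.V → ℝ) (u' : G.E → ℝ → ℝ) : Prop :=
  ∃ s t : ℝ, (s ≠ 0 ∨ t ≠ 0) ∧ ∀ p, s * G.ev val u p + t * G.ev val' u' p = 0

/-- `lam` is the second eigenvalue counted with multiplicity: any two eigenfunctions with
eigenvalues below `lam` are linearly dependent, and there are two linearly independent
eigenfunctions with eigenvalues at most `lam`. -/
def IsLamTwo (al : G.V → ℝ) (lam : ℝ) : Prop :=
  (∀ mu nu val u val' u', mu < lam → nu < lam → G.IsEigD al mu val u → G.IsEigD al nu val' u' →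
    G.Dep val u val' u') ∧
  ∃ mu nu val u val' u', mu ≤ lam ∧ nu ≤ lam ∧ G.IsEigD al mu val u ∧ G.IsEigD al nu val' u' ∧
    ¬ G.Dep val u val' u'

/-- `(val, u)` is a second eigenfunction. -/
def IsSecondD (al : G.V → ℝ) (val : G.V → ℝ) (u : G.E → ℝ → ℝ) : Prop :=
  ∃ lam, G.IsLamTwo al lam ∧ G.IsEigD al lam val u ∧ ∃ p, G.ev val u p ≠ 0

/-- The set of points at which some second eigenfunction attains its global maximum or minimum. -/
def HotSpotsD (al : G.V → ℝ) : Set G.Pt :=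
  {p | ∃ val u, G.IsSecondD al val u ∧
    ((∀ q, G.ev val u q ≤ G.ev val u p) ∨ (∀ q, G.ev val u p ≤ G.ev val u q))}

end MGraph

open MGraph

lemma lamTwo_unique {G : MGraph} {al : G.V → ℝ} {mu nu : ℝ} (h1 : G.IsLamTwo al mu)
    (h2 : G.IsLamTwo al nu) : mu = nu := by
  have key : ∀ {mu nu : ℝ}, G.IsLamTwo al mu → G.IsLamTwo al nu → mu ≤ nu := by
    intro mu nu h1 h2
    by_contra hcon
    push Not at hcon
    obtain ⟨a, b, val, u, val', u', ha, hb, hE, hE', hd⟩ := h2.2
    exact hd (h1.1 a b val u val' u' (lt_of_le_of_lt ha hcon) (lt_of_le_of_lt hb hcon) hE hE')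
  exact le_antisymm (key h1 h2) (key h2 h1)

/-- lengths -/
noncomputable def circLen : Fin 2 → ℝ
  | 0 => 7 * Real.pi / 4
  | 1 => 3 * Real.pi / 4

lemma circLen_pos : ∀ e, 0 < circLen e := by
  have hpi := Real.pi_pos
  intro e
  fin_cases e
  · show 0 < 7 * Real.pi / 4
    positivity
  · show 0 < 3 * Real.pi / 4
    positivity

/-- A circle of length `5 pi / 2` with two vertices. -/
noncomputable def circ : MGraph where
  V := Fin 2
  E := Fin 2
  src := fun _ => 0
  dst := fun _ => 1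
  len := circLen
  len_pos := circLen_pos

/-- the strengths -/
noncomputable def circAl : circ.V → ℝ := fun _ => 2

lemma circ_connected : circ.Connected := by
  refine ⟨⟨(0 : Fin 2)⟩, ?_⟩
  have h1 : Relation.EqvGen (circ.Adj univ) (0 : Fin 2) (1 : Fin 2) :=
    Relation.EqvGen.rel _ _ ⟨(0 : Fin 2), trivial, rfl, rfl⟩
  have h0 : ∀ i : Fin 2, Relation.EqvGen (circ.Adj univ) (0 : Fin 2) i := by
    intro i
    fin_cases i
    · exact Relation.EqvGen.refl _
    · exact h1
  intro v w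
  exact Relation.EqvGen.trans _ _ _ (Relation.EqvGen.symm _ _ (h0 v)) (h0 w)

/-- The equations satisfied by an eigenfunction. -/
lemma circ_eqs {k : ℝ} (hk : 0 < k) {val : circ.V → ℝ} {u : circ.E → ℝ → ℝ}
    (h : circ.IsEigD circAl (k ^ 2) val u) :
    ∃ a b ca cb : ℝ, val (0 : Fin 2) = a ∧ val (1 : Fin 2) = b ∧
      (∀ x ∈ Icc (0 : ℝ) (7 * Real.pi / 4),
        u (0 : Fin 2) x = a * Real.cos (k * x) + ca * Real.sin (k * x)) ∧
      (∀ x ∈ Icc (0 : ℝ) (3 * Real.pi / 4),
        u (1 : Fin 2) x = a * Real.cos (k * x) + cb * Real.sin (k * x)) ∧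
      b = a * Real.cos (k * (7 * Real.pi / 4)) + ca * Real.sin (k * (7 * Real.pi / 4)) ∧
      b = a * Real.cos (k * (3 * Real.pi / 4)) + cb * Real.sin (k * (3 * Real.pi / 4)) ∧
      k * (ca + cb) = 2 * a ∧
      k * (-(-a * Real.sin (k * (7 * Real.pi / 4)) + ca * Real.cos (k * (7 * Real.pi / 4)))
        - (-a * Real.sin (k * (3 * Real.pi / 4)) + cb * Real.cos (k * (3 * Real.pi / 4))))
        = 2 * b := by
  obtain ⟨h0, h1, w, hu, hw, hK⟩ := h
  have hk' : k ≠ 0 := hk.ne'
  have hpi := Real.pi_pos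
  have m0 : (7 * Real.pi / 4) ∈ Icc (0 : ℝ) (7 * Real.pi / 4) := ⟨by positivity, le_rfl⟩
  have m1 : (3 * Real.pi / 4) ∈ Icc (0 : ℝ) (3 * Real.pi / 4) := ⟨by positivity, le_rfl⟩
  have o0 := fun x (hx : x ∈ Icc (0 : ℝ) (7 * Real.pi / 4)) =>
    ode hk' (hu (0 : Fin 2)) (hw (0 : Fin 2)) hx
  have o1 := fun x (hx : x ∈ Icc (0 : ℝ) (3 * Real.pi / 4)) =>
    ode hk' (hu (1 : Fin 2)) (hw (1 : Fin 2)) hx
  have s0 : u (0 : Fin 2) 0 = val (0 : Fin 2) := h0 (0 : Fin 2)
  have s1 : u (1 : Fin 2) 0 = val (0 : Fin 2) := h0 (1 : Fin 2)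
  have t0 : u (0 : Fin 2) (7 * Real.pi / 4) = val (1 : Fin 2) := h1 (0 : Fin 2)
  have t1 : u (1 : Fin 2) (3 * Real.pi / 4) = val (1 : Fin 2) := h1 (1 : Fin 2)
  have hK' : ∀ v : Fin 2, (∑ e : Fin 2, if (0 : Fin 2) = v then w e 0 else 0)
      - (∑ e : Fin 2, if (1 : Fin 2) = v then w e (circLen e) else 0) = 2 * val v := hK
  have K0 : w (0 : Fin 2) 0 + w (1 : Fin 2) 0 = 2 * val (0 : Fin 2) := by
    have := hK' 0
    simpa [Fin.sum_univ_two, circLen] using this
  have K1 : -(w (0 : Fin 2) (7 * Real.pi / 4) + w (1 : Fin 2) (3 * Real.pi / 4))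
      = 2 * val (1 : Fin 2) := by
    have := hK' 1
    simp only [Fin.sum_univ_two, circLen] at this
    simpa using this
  refine ⟨val (0 : Fin 2), val (1 : Fin 2), w (0 : Fin 2) 0 / k, w (1 : Fin 2) 0 / k, rfl, rfl,
    ?_, ?_, ?_, ?_, ?_, ?_⟩
  · intro x hx
    rw [(o0 x hx).1, s0]
  · intro x hx
    rw [(o1 x hx).1, s1]
  · rw [← s0, ← (o0 _ m0).1, t0]
  · rw [← s1, ← (o1 _ m1).1, t1]
  · rw [← K0]; field_simp
  · have e0 := (o0 _ m0).2
    have e1 := (o1 _ m1).2
    rw [s0] at e0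
    rw [s1] at e1
    rw [e0, e1] at K1
    linear_combination K1

/-- On an edge with `mu ≤ 0`: if `u` vanishes at both ends then `u = 0`; in general the flux
`u w` does not decrease. -/
lemma edge_mono {L mu : ℝ} (hL : 0 < L) (hmu : mu ≤ 0) {u w : ℝ → ℝ}
    (hu : ∀ x ∈ Icc (0 : ℝ) L, HasDerivWithinAt u (w x) (Icc (0 : ℝ) L) x)
    (hw : ∀ x ∈ Icc (0 : ℝ) L, HasDerivWithinAt w (-mu * u x) (Icc (0 : ℝ) L) x) :
    u 0 * w 0 ≤ u L * w L ∧ (u 0 = 0 → u L = 0 → ∀ x ∈ Icc (0 : ℝ) L, u x = 0) := by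
  have hg : ∀ x ∈ Icc (0 : ℝ) L,
      HasDerivWithinAt (fun x => u x * w x) (w x ^ 2 + -mu * u x ^ 2) (Icc (0 : ℝ) L) x := by
    intro x hx
    refine ((hu x hx).mul (hw x hx)).congr_deriv ?_
    ring
  have hcont : ContinuousOn (fun x => u x * w x) (Icc (0 : ℝ) L) :=
    fun x hx => (hg x hx).continuousWithinAt
  have hnn : ∀ x, 0 ≤ w x ^ 2 + -mu * u x ^ 2 := by
    intro x
    have : 0 ≤ -mu := by linarith
    positivity
  have hmono : MonotoneOn (fun x => u x * w x) (Icc (0 : ℝ) L) := by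
    refine monotoneOn_of_hasDerivWithinAt_nonneg (convex_Icc _ _) hcont
      (f' := fun x => w x ^ 2 + -mu * u x ^ 2) ?_ ?_
    · intro x hx
      exact (hg x (interior_subset hx)).mono interior_subset
    · intro x _
      exact hnn x
  have m0 : (0 : ℝ) ∈ Icc (0 : ℝ) L := ⟨le_rfl, hL.le⟩
  have mL : L ∈ Icc (0 : ℝ) L := ⟨hL.le, le_rfl⟩
  refine ⟨hmono m0 mL hL.le, ?_⟩
  intro h0 h1
  have hz : ∀ x ∈ Icc (0 : ℝ) L, u x * w x = 0 := by
    intro x hx
    have l1 := hmono m0 hx hx.1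
    have l2 := hmono hx mL hx.2
    simp only [h0, h1, zero_mul] at l1 l2
    linarith
  have hw0 : ∀ x ∈ Icc (0 : ℝ) L, w x = 0 := by
    intro x hx
    have hd1 := hg x hx
    have hd2 : HasDerivWithinAt (fun x => u x * w x) 0 (Icc (0 : ℝ) L) x := by
      refine (hasDerivWithinAt_const x (Icc (0 : ℝ) L) (0 : ℝ)).congr ?_ ?_
      · intro y hy; exact hz y hy
      · exact hz x hx
    have huniq : UniqueDiffWithinAt ℝ (Icc (0 : ℝ) L) x := uniqueDiffOn_Icc hL x hx
    have := huniq.eq_deriv _ hd1 hd2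
    have h3 : 0 ≤ -mu * u x ^ 2 := by
      have : 0 ≤ -mu := by linarith
      positivity
    have h4 : w x ^ 2 = 0 := by nlinarith [sq_nonneg (w x)]
    exact pow_eq_zero_iff (two_ne_zero) |>.1 h4
  intro x hx
  have h := (convex_Icc (0 : ℝ) L).norm_image_sub_le_of_norm_hasDerivWithin_le (f := u) (f' := w)
      (C := 0) hu (by intro y hy; rw [hw0 y hy]; simp) m0 hx
  have h2 : ‖u x - u 0‖ ≤ 0 := by simpa using h
  rw [← h0]
  exact sub_eq_zero.1 (norm_le_zero_iff.1 h2)

/-- no eigenvalues `≤ 0` -/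
lemma circ_nonpos {mu : ℝ} (hmu : mu ≤ 0) {val : circ.V → ℝ} {u : circ.E → ℝ → ℝ}
    (h : circ.IsEigD circAl mu val u) : ∀ p, circ.ev val u p = 0 := by
  obtain ⟨h0, h1, w, hu, hw, hK⟩ := h
  have e0 := edge_mono (circLen_pos 0) hmu (hu (0 : Fin 2)) (hw (0 : Fin 2))
  have e1 := edge_mono (circLen_pos 1) hmu (hu (1 : Fin 2)) (hw (1 : Fin 2))
  have s0 : u (0 : Fin 2) 0 = val (0 : Fin 2) := h0 (0 : Fin 2)
  have s1 : u (1 : Fin 2) 0 = val (0 : Fin 2) := h0 (1 : Fin 2)
  have t0 : u (0 : Fin 2) (circLen 0) = val (1 : Fin 2) := h1 (0 : Fin 2)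
  have t1 : u (1 : Fin 2) (circLen 1) = val (1 : Fin 2) := h1 (1 : Fin 2)
  have hK' : ∀ v : Fin 2, (∑ e : Fin 2, if (0 : Fin 2) = v then w e 0 else 0)
      - (∑ e : Fin 2, if (1 : Fin 2) = v then w e (circLen e) else 0) = 2 * val v := hK
  have K0 : w (0 : Fin 2) 0 + w (1 : Fin 2) 0 = 2 * val (0 : Fin 2) := by
    have := hK' 0
    simpa [Fin.sum_univ_two] using this
  have K1 : -(w (0 : Fin 2) (circLen 0) + w (1 : Fin 2) (circLen 1)) = 2 * val (1 : Fin 2) := by
    have := hK' 1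
    simp only [Fin.sum_univ_two] at this
    simpa using this
  rw [s0, t0] at e0
  rw [s1, t1] at e1
  have q : 2 * val (0 : Fin 2) ^ 2 + 2 * val (1 : Fin 2) ^ 2 ≤ 0 := by
    have := e0.1
    have := e1.1
    have i1 : val (0 : Fin 2) * (w (0 : Fin 2) 0 + w (1 : Fin 2) 0)
        = val (0 : Fin 2) * (2 * val (0 : Fin 2)) := by rw [K0]
    have i2 : val (1 : Fin 2) * (-(w (0 : Fin 2) (circLen 0) + w (1 : Fin 2) (circLen 1)))
        = val (1 : Fin 2) * (2 * val (1 : Fin 2)) := by rw [K1]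
    nlinarith
  have v0 : val (0 : Fin 2) = 0 := by
    have : val (0 : Fin 2) ^ 2 = 0 := by nlinarith [sq_nonneg (val (0 : Fin 2)), sq_nonneg (val (1 : Fin 2))]
    exact pow_eq_zero_iff (two_ne_zero) |>.1 this
  have v1 : val (1 : Fin 2) = 0 := by
    have : val (1 : Fin 2) ^ 2 = 0 := by nlinarith [sq_nonneg (val (0 : Fin 2)), sq_nonneg (val (1 : Fin 2))]
    exact pow_eq_zero_iff (two_ne_zero) |>.1 this
  have z0 := e0.2 v0 v1
  have z1 := e1.2 v0 v1
  have hv : ∀ v : Fin 2, v = 0 ∨ v = 1 := by decide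
  intro p
  rcases p with v | ⟨e, x, hx⟩
  · show val v = 0
    rcases hv v with h | h
    · rw [h, v0]
    · rw [h, v1]
  · show u e x = 0
    rcases hv e with h | h
    · subst h; exact z0 x ⟨hx.1.le, hx.2.le⟩
    · subst h; exact z1 x ⟨hx.1.le, hx.2.le⟩

lemma cot_lt {x L : ℝ} (h0 : 0 < x) (h1 : x < L) (h2 : L < Real.pi) :
    0 < Real.cos x * Real.sin L - Real.sin x * Real.cos L := by
  have : 0 < Real.sin (L - x) := Real.sin_pos_of_pos_of_lt_pi (by linarith) (by linarith)
  rw [Real.sin_sub] at this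
  linarith

lemma cos38 : Real.cos (3 * Real.pi / 8) = Real.sin (Real.pi / 8) := by
  have : (3 * Real.pi / 8 : ℝ) = Real.pi / 2 - Real.pi / 8 := by ring
  rw [this, Real.cos_pi_div_two_sub]

lemma sin38 : Real.sin (3 * Real.pi / 8) = Real.cos (Real.pi / 8) := by
  have : (3 * Real.pi / 8 : ℝ) = Real.pi / 2 - Real.pi / 8 := by ring
  rw [this, Real.sin_pi_div_two_sub]

lemma cos78 : Real.cos (7 * Real.pi / 8) = -Real.cos (Real.pi / 8) := by
  have : (7 * Real.pi / 8 : ℝ) = Real.pi - Real.pi / 8 := by ring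
  rw [this, Real.cos_pi_sub]

lemma sin78 : Real.sin (7 * Real.pi / 8) = Real.sin (Real.pi / 8) := by
  have : (7 * Real.pi / 8 : ℝ) = Real.pi - Real.pi / 8 := by ring
  rw [this, Real.sin_pi_sub]

/-- the secular function of the symmetric eigenfunctions is monotone -/
lemma secular_mono {k l : ℝ} (hk : 0 < k) (hkl : k < l) (hl : l < 4 / 7) :
    Real.tan (k * (7 * Real.pi / 8)) + Real.tan (k * (3 * Real.pi / 8)) - 2 / k
      < Real.tan (l * (7 * Real.pi / 8)) + Real.tan (l * (3 * Real.pi / 8)) - 2 / l := by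
  have hpi := Real.pi_pos
  have h1 : Real.tan (k * (7 * Real.pi / 8)) < Real.tan (l * (7 * Real.pi / 8)) :=
    Real.tan_lt_tan_of_lt_of_lt_pi_div_two (by nlinarith) (by nlinarith) (by nlinarith)
  have h2 : Real.tan (k * (3 * Real.pi / 8)) < Real.tan (l * (3 * Real.pi / 8)) :=
    Real.tan_lt_tan_of_lt_of_lt_pi_div_two (by nlinarith) (by nlinarith) (by nlinarith)
  have h3 : 2 / l < 2 / k := by
    apply div_lt_div_of_pos_left two_pos hk hkl
  linarith

/-- the symmetric function with parameter `k` -/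
noncomputable def circFn (k : ℝ) : Fin 2 → ℝ → ℝ
  | 0 => fun x => Real.cos (k * x - k * (7 * Real.pi / 8))
  | 1 => fun x => Real.cos (k * (7 * Real.pi / 8)) / Real.cos (k * (3 * Real.pi / 8))
          * Real.cos (k * x - k * (3 * Real.pi / 8))

lemma ineqA {c d cx sx cy sy k : ℝ} (hc : 0 < c) (hd : 0 < d) (hcd : c ^ 2 - d ^ 2 = 2 * d * c)
    (sxp : 0 < sx) (syp : 0 < sy) (hk : 0 < k) (hk1 : k < 1)
    (P3 : 0 < d * cx + c * sx) (P4 : 0 < c * cy - d * sy) :
    0 < k * (cx * sy + sx * cy) + 2 * (sx * sy) := by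
  have h1 : 0 < (d * cx + c * sx) * (c * sy) := mul_pos P3 (mul_pos hc syp)
  have h2 : 0 < (c * cy - d * sy) * (d * sx) := mul_pos P4 (mul_pos hd sxp)
  have h3 : 0 < d * c * (sx * sy) := mul_pos (mul_pos hd hc) (mul_pos sxp syp)
  have e : (c ^ 2 - d ^ 2) * (sx * sy) = 2 * d * c * (sx * sy) := by rw [hcd]
  have h4 : 0 < k * ((d * cx + c * sx) * (c * sy) + (c * cy - d * sy) * (d * sx)) :=
    mul_pos hk (add_pos h1 h2)
  have h6 : 0 < 2 * (1 - k) * (d * c * (sx * sy)) :=
    mul_pos (by linarith) h3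
  have h5 : 0 < d * c * (k * (cx * sy + sx * cy) + 2 * (sx * sy)) := by
    have e2 : k * ((c ^ 2 - d ^ 2) * (sx * sy)) = k * (2 * d * c * (sx * sy)) := by rw [e]
    linarith
  exact (pos_iff_pos_of_mul_pos h5).1 (mul_pos hd hc)

lemma ineqS {c d cx sx cy sy k : ℝ} (hc : 0 < c) (hd : 0 < d) (hcd : c ^ 2 - d ^ 2 = 2 * d * c)
    (hcx : cx ≤ 0) (cyp : 0 < cy) (hk : 0 < k) (hk1 : k < 1)
    (P3 : 0 < d * cx + c * sx) (P4 : 0 < c * cy - d * sy)
    (sec : k * (sx * cy + cx * sy) = 2 * (cx * cy)) : False := by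
  have Q2 : 0 < (c * sx + d * cx) * (d * cy) := mul_pos (by linarith) (mul_pos hd cyp)
  have Q3 : 0 ≤ (-cx) * (c * cy - d * sy) * c :=
    mul_nonneg (mul_nonneg (by linarith) P4.le) hc.le
  have e7 : (c ^ 2 - d ^ 2) * (cx * cy) = 2 * d * c * (cx * cy) := by rw [hcd]
  have e6 : 0 < d * c * (sx * cy + cx * sy - 2 * (cx * cy)) := by linarith
  have e8 := (pos_iff_pos_of_mul_pos e6).1 (mul_pos hd hc)
  have e0 : cx * cy ≤ 0 := mul_nonpos_of_nonpos_of_nonneg hcx cyp.le
  have e4 : sx * cy + cx * sy ≤ 0 := by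
    by_contra hcon
    push Not at hcon
    have := mul_pos hk hcon
    linarith
  have e5 : 0 ≤ (1 - k) * (-(sx * cy + cx * sy)) := mul_nonneg (by linarith) (by linarith)
  linarith

/-- structure of the eigenfunctions with eigenvalue in `(0, 1)` -/
lemma circ_low {k : ℝ} (hk : 0 < k) (hk1 : k < 1) {val : circ.V → ℝ} {u : circ.E → ℝ → ℝ}
    (h : circ.IsEigD circAl (k ^ 2) val u) :
    ∃ m : ℝ, (∀ p, circ.ev val u p = m * circ.ev
      (fun _ => Real.cos (k * (7 * Real.pi / 8)))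
      (circFn k) p) ∧
      (m ≠ 0 → k < 4 / 7 ∧
        Real.tan (k * (7 * Real.pi / 8)) + Real.tan (k * (3 * Real.pi / 8)) - 2 / k = 0) := by
  obtain ⟨a, b, ca, cb, ha, hb, u0, u1, E1, E2, E5, E6⟩ := circ_eqs hk h
  have hpi := Real.pi_pos
  obtain ⟨hc, hd, hcd⟩ := cd_facts
  have hc78 := cos78
  have hs78 := sin78
  have hc38 := cos38
  have hs38 := sin38
  set c := Real.cos (Real.pi / 8) with hcdef
  set d := Real.sin (Real.pi / 8) with hddef
  set x := k * (7 * Real.pi / 8) with hx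
  set y := k * (3 * Real.pi / 8) with hy
  have hx2 : k * (7 * Real.pi / 4) = 2 * x := by rw [hx]; ring
  have hy2 : k * (3 * Real.pi / 4) = 2 * y := by rw [hy]; ring
  rw [hx2] at E1 E6
  rw [hy2] at E2 E6
  have hxpos : 0 < x := by positivity
  have hxlt : x < 7 * Real.pi / 8 := by rw [hx]; nlinarith
  have hypos : 0 < y := by positivity
  have hylt : y < 3 * Real.pi / 8 := by rw [hy]; nlinarith
  have sx : 0 < Real.sin x := Real.sin_pos_of_pos_of_lt_pi hxpos (by linarith)
  have sy : 0 < Real.sin y := Real.sin_pos_of_pos_of_lt_pi hypos (by linarith)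
  have cy : 0 < Real.cos y := Real.cos_pos_of_mem_Ioo ⟨by linarith, by linarith⟩
  -- cot x > - c / d, cot y > d / c
  have P3 : 0 < d * Real.cos x + c * Real.sin x := by
    have := cot_lt hxpos hxlt (by linarith)
    rw [hc78, hs78] at this
    linarith
  have P4 : 0 < c * Real.cos y - d * Real.sin y := by
    have := cot_lt hypos hylt (by linarith)
    rw [hc38, hs38] at this
    linarith
  rw [Real.cos_two_mul', Real.sin_two_mul] at E1 E2
  rw [Real.cos_two_mul', Real.sin_two_mul, Real.cos_two_mul', Real.sin_two_mul] at E6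
  have qx := Real.sin_sq_add_cos_sq x
  have qy := Real.sin_sq_add_cos_sq y
  obtain ⟨ma, hma⟩ : ∃ ma, ma = a * Real.cos x + ca * Real.sin x := ⟨_, rfl⟩
  obtain ⟨na, hna⟩ : ∃ na, na = a * Real.sin x - ca * Real.cos x := ⟨_, rfl⟩
  obtain ⟨mb, hmb⟩ : ∃ mb, mb = a * Real.cos y + cb * Real.sin y := ⟨_, rfl⟩
  obtain ⟨nb, hnb⟩ : ∃ nb, nb = a * Real.sin y - cb * Real.cos y := ⟨_, rfl⟩
  have r1 : a + b = 2 * (ma * Real.cos x) := by
    rw [hma]; linear_combination E1 - a * qx
  have r2 : a + b = 2 * (mb * Real.cos y) := by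
    rw [hmb]; linear_combination E2 - a * qy
  have r3 : a - b = 2 * (na * Real.sin x) := by
    rw [hna]; linear_combination -E1 - a * qx
  have r4 : a - b = 2 * (nb * Real.sin y) := by
    rw [hnb]; linear_combination -E2 - a * qy
  have K1 : k * (ma * Real.sin x - na * Real.cos x + mb * Real.sin y - nb * Real.cos y)
      = 2 * a := by
    rw [hma, hna, hmb, hnb]
    linear_combination E5 + k * ca * qx + k * cb * qy
  have K2 : k * (ma * Real.sin x + na * Real.cos x + mb * Real.sin y + nb * Real.cos y)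
      = 2 * b := by
    rw [hma, hna, hmb, hnb]
    linear_combination E6
  have S1 : k * (ma * Real.sin x + mb * Real.sin y) = 2 * (ma * Real.cos x) := by
    linear_combination (1 / 2) * K1 + (1 / 2) * K2 + r1
  have D1 : k * (na * Real.cos x + nb * Real.cos y) + 2 * (na * Real.sin x) = 0 := by
    linear_combination (1 / 2) * K2 - (1 / 2) * K1 - r3
  have r5 : na * Real.sin x = nb * Real.sin y := by linarith
  have r6 : ma * Real.cos x = mb * Real.cos y := by linarith
  -- antisymmetric part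
  have H : 0 < k * (Real.cos x * Real.sin y + Real.sin x * Real.cos y)
      + 2 * (Real.sin x * Real.sin y) := ineqA hc hd hcd sx sy hk hk1 P3 P4
  have hna0 : na = 0 := by
    have : na * (k * (Real.cos x * Real.sin y + Real.sin x * Real.cos y)
      + 2 * (Real.sin x * Real.sin y)) = 0 := by
      linear_combination Real.sin y * D1 + k * Real.cos y * r5
    rcases mul_eq_zero.1 this with h | h
    · exact h
    · exact absurd h H.ne'
  have hnb0 : nb = 0 := by
    rw [hna0] at r5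
    have : nb * Real.sin y = 0 := by linarith
    rcases mul_eq_zero.1 this with h | h
    · exact h
    · exact absurd h sy.ne'
  have hmb : mb = ma * (Real.cos x / Real.cos y) := by
    field_simp; linarith
  -- formulas
  have ha' : a = ma * Real.cos x := by rw [hna0] at r3; linarith
  have hb' : b = ma * Real.cos x := by rw [hna0] at r3; linarith
  have hca' : ca = ma * Real.sin x := by
    have e1 : ca = ma * Real.sin x - na * Real.cos x := by
      rw [hma, hna]; linear_combination (-ca) * qx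
    rw [e1, hna0]; ring
  have hcb' : cb = mb * Real.sin y := by
    have e1 : cb = mb * Real.sin y - nb * Real.cos y := by
      rw [‹mb = a * Real.cos y + cb * Real.sin y›, hnb]; linear_combination (-cb) * qy
    rw [e1, hnb0]; ring
  refine ⟨ma, ?_, ?_⟩
  · have hv : ∀ v : Fin 2, v = 0 ∨ v = 1 := by decide
    intro p
    rcases p with v | ⟨e, t, ht⟩
    · show val v = ma * Real.cos x
      rcases hv v with h | h
      · rw [h, ha, ha']
      · rw [h, hb, hb']
    · rcases hv e with h | h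
      · subst h
        show u (0 : Fin 2) t = ma * Real.cos (k * t - x)
        rw [u0 t ⟨ht.1.le, ht.2.le⟩, ha', hca', Real.cos_sub]; ring
      · subst h
        show u (1 : Fin 2) t = ma * (Real.cos x / Real.cos y * Real.cos (k * t - y))
        rw [u1 t ⟨ht.1.le, ht.2.le⟩, hcb', Real.cos_sub]
        have : a = mb * Real.cos y := by rw [ha']; exact r6
        rw [this, hmb]; ring
  · intro hm
    -- the secular equation
    have sec : k * (Real.sin x * Real.cos y + Real.cos x * Real.sin y)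
        = 2 * (Real.cos x * Real.cos y) := by
      have : ma * (k * (Real.sin x * Real.cos y + Real.cos x * Real.sin y)
        - 2 * (Real.cos x * Real.cos y)) = 0 := by
        linear_combination Real.cos y * S1 + k * Real.sin y * r6
      rcases mul_eq_zero.1 this with h | h
      · exact absurd h hm
      · linarith
    have hlt : x < Real.pi / 2 := by
      by_contra hcon
      push Not at hcon
      have cx : Real.cos x ≤ 0 := Real.cos_nonpos_of_pi_div_two_le_of_le hcon (by linarith)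
      -- (-cos x) c > ... : tan x < - d / c
      exact ineqS hc hd hcd cx cy hk hk1 P3 P4 sec
    have cx : 0 < Real.cos x := Real.cos_pos_of_mem_Ioo ⟨by linarith, hlt⟩
    constructor
    · rw [hx] at hlt
      by_contra hcon
      push Not at hcon
      have := mul_le_mul_of_nonneg_right hcon (show (0 : ℝ) ≤ 7 * Real.pi / 8 by positivity)
      linarith
    · rw [Real.tan_eq_sin_div_cos, Real.tan_eq_sin_div_cos]
      field_simp
      linarith

end Q191.QGraph
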