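import Pool.Agent.Q191.QGraphDelta

set_option autoImplicit false

open Set

namespace Q191.QGraph

open MGraph

/-- edge functions of the second eigenfunctions -/
noncomputable def circU (A B : ℝ) : Fin 2 → ℝ → ℝ
  | 0 => fun x => A * Real.sin (Real.pi / 8) * Real.cos (x - 7 * Real.pi / 8)
      + B * Real.cos (Real.pi / 8) * Real.sin (x - 7 * Real.pi / 8)
  | 1 => fun x => -A * Real.cos (Real.pi / 8) * Real.cos (x - 3 * Real.pi / 8)
      + B * Real.sin (Real.pi / 8) * Real.sin (x - 3 * Real.pi / 8)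

/-- their derivatives -/
noncomputable def circW (A B : ℝ) : Fin 2 → ℝ → ℝ
  | 0 => fun x => -(A * Real.sin (Real.pi / 8) * Real.sin (x - 7 * Real.pi / 8))
      + B * Real.cos (Real.pi / 8) * Real.cos (x - 7 * Real.pi / 8)
  | 1 => fun x => A * Real.cos (Real.pi / 8) * Real.sin (x - 3 * Real.pi / 8)
      + B * Real.sin (Real.pi / 8) * Real.cos (x - 3 * Real.pi / 8)

/-- vertex values -/
noncomputable def circVal (A B : ℝ) : Fin 2 → ℝ
  | 0 => -(Real.cos (Real.pi / 8) * Real.sin (Real.pi / 8) * (A + B))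
  | 1 => -(Real.cos (Real.pi / 8) * Real.sin (Real.pi / 8) * (A - B))

lemma circU_deriv (A B : ℝ) (e : Fin 2) (x : ℝ) : HasDerivAt (circU A B e) (circW A B e x) x := by
  have hv : ∀ v : Fin 2, v = 0 ∨ v = 1 := by decide
  rcases hv e with rfl | rfl
  · have h := (((hasDerivAt_id x).sub_const (7 * Real.pi / 8)).cos.const_mul
      (A * Real.sin (Real.pi / 8))).add (((hasDerivAt_id x).sub_const (7 * Real.pi / 8)).sin.const_mul
      (B * Real.cos (Real.pi / 8)))
    refine h.congr_deriv ?_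
    simp [circW]
  · have h := (((hasDerivAt_id x).sub_const (3 * Real.pi / 8)).cos.const_mul
      (-A * Real.cos (Real.pi / 8))).add (((hasDerivAt_id x).sub_const (3 * Real.pi / 8)).sin.const_mul
      (B * Real.sin (Real.pi / 8)))
    refine h.congr_deriv ?_
    simp [circW]

lemma circW_deriv (A B : ℝ) (e : Fin 2) (x : ℝ) :
    HasDerivAt (circW A B e) (-1 * circU A B e x) x := by
  have hv : ∀ v : Fin 2, v = 0 ∨ v = 1 := by decide
  rcases hv e with rfl | rfl
  · have h := (((hasDerivAt_id x).sub_const (7 * Real.pi / 8)).sin.const_mul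
      (A * Real.sin (Real.pi / 8))).neg.add
      (((hasDerivAt_id x).sub_const (7 * Real.pi / 8)).cos.const_mul (B * Real.cos (Real.pi / 8)))
    refine h.congr_deriv ?_
    simp [circU]; ring
  · have h := (((hasDerivAt_id x).sub_const (3 * Real.pi / 8)).sin.const_mul
      (A * Real.cos (Real.pi / 8))).add (((hasDerivAt_id x).sub_const (3 * Real.pi / 8)).cos.const_mul
      (B * Real.sin (Real.pi / 8)))
    refine h.congr_deriv ?_
    simp [circU]; ring

lemma circ_isEigD (A B : ℝ) : circ.IsEigD circAl 1 (circVal A B) (circU A B) := by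
  obtain ⟨hc, hd, hcd⟩ := cd_facts
  have hv : ∀ v : Fin 2, v = 0 ∨ v = 1 := by decide
  have e1 : (7 * Real.pi / 4 - 7 * Real.pi / 8 : ℝ) = 7 * Real.pi / 8 := by ring
  have e2 : (3 * Real.pi / 4 - 3 * Real.pi / 8 : ℝ) = 3 * Real.pi / 8 := by ring
  refine ⟨?_, ?_, circW A B, ?_, ?_, ?_⟩
  · intro (e : Fin 2)
    show circU A B e 0 = circVal A B 0
    rcases hv e with rfl | rfl
    · simp only [circU, circVal, zero_sub, Real.cos_neg, Real.sin_neg, cos78, sin78]; ring
    · simp only [circU, circVal, zero_sub, Real.cos_neg, Real.sin_neg, cos38, sin38]; ring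
  · intro (e : Fin 2)
    show circU A B e (circLen e) = circVal A B 1
    rcases hv e with rfl | rfl
    · simp only [circU, circVal, circLen, e1, cos78, sin78]; ring
    · simp only [circU, circVal, circLen, e2, cos38, sin38]; ring
  · intro e x _
    exact (circU_deriv A B e x).hasDerivWithinAt
  · intro e x _
    exact (circW_deriv A B e x).hasDerivWithinAt
  · intro (v : Fin 2)
    show (∑ e : Fin 2, if (0 : Fin 2) = v then circW A B e 0 else 0)
      - (∑ e : Fin 2, if (1 : Fin 2) = v then circW A B e (circLen e) else 0) = 2 * circVal A B v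
    have d1 : ((0 : Fin 2) = 1) = False := by decide
    have d2 : ((1 : Fin 2) = 0) = False := by decide
    rcases hv v with rfl | rfl
    · simp only [Fin.sum_univ_two, circW, circVal, d2, if_true,
        if_false, zero_sub, Real.sin_neg, Real.cos_neg, cos78, sin78, cos38, sin38]
      linear_combination (-(A + B)) * hcd
    · simp only [Fin.sum_univ_two, circW, circVal, circLen, d1, if_true,
        if_false, e1, e2, cos78, sin78, cos38, sin38]
      linear_combination (-(A - B)) * hcd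

/-- the point at distance `t` from the source of the edge `e` -/
def circPt (e : Fin 2) (t : ℝ) (h : t ∈ Ioo (0 : ℝ) (circLen e)) : circ.Pt := Sum.inr ⟨e, ⟨t, h⟩⟩

lemma circ_lamTwo : circ.IsLamTwo circAl 1 := by
  obtain ⟨hc, hd, hcd⟩ := cd_facts
  constructor
  · intro mu nu val u val' u' hmu hnu hE hE'
    rcases le_or_gt mu 0 with h0 | h0
    · exact ⟨1, 0, Or.inl one_ne_zero, fun p => by rw [circ_nonpos h0 hE]; ring⟩
    rcases le_or_gt nu 0 with h0' | h0'
    · exact ⟨0, 1, Or.inr one_ne_zero, fun p => by rw [circ_nonpos h0' hE']; ring⟩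
    have hk : Real.sqrt mu ^ 2 = mu := Real.sq_sqrt h0.le
    have hl : Real.sqrt nu ^ 2 = nu := Real.sq_sqrt h0'.le
    have hk0 := Real.sqrt_pos.2 h0
    have hl0 := Real.sqrt_pos.2 h0'
    rw [← hk] at hE hmu
    rw [← hl] at hE' hnu
    have hk1 : Real.sqrt mu < 1 := lt_of_pow_lt_pow_left₀ 2 one_pos.le (by simpa using hmu)
    have hl1 : Real.sqrt nu < 1 := lt_of_pow_lt_pow_left₀ 2 one_pos.le (by simpa using hnu)
    obtain ⟨m, hm1, hm2⟩ := circ_low hk0 hk1 hE
    obtain ⟨n, hn1, hn2⟩ := circ_low hl0 hl1 hE'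
    by_cases hm : m = 0
    · exact ⟨1, 0, Or.inl one_ne_zero, fun p => by rw [hm1, hm]; ring⟩
    by_cases hn : n = 0
    · exact ⟨0, 1, Or.inr one_ne_zero, fun p => by rw [hn1, hn]; ring⟩
    obtain ⟨a1, a2⟩ := hm2 hm
    obtain ⟨b1, b2⟩ := hn2 hn
    have heq : Real.sqrt mu = Real.sqrt nu := by
      rcases lt_trichotomy (Real.sqrt mu) (Real.sqrt nu) with h | h | h
      · have := secular_mono hk0 h b1
        linarith
      · exact h
      · have := secular_mono hl0 h a1
        linarith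
    refine ⟨n, -m, Or.inl hn, fun p => ?_⟩
    rw [hm1, hn1, heq]; ring
  · refine ⟨1, 1, circVal 1 0, circU 1 0, circVal 0 1, circU 0 1, le_rfl, le_rfl, circ_isEigD 1 0,
      circ_isEigD 0 1, ?_⟩
    rintro ⟨s, t, hst, h⟩
    have h0 : s * circVal 1 0 0 + t * circVal 0 1 0 = 0 := h (Sum.inl (0 : Fin 2))
    have h1 : s * circVal 1 0 1 + t * circVal 0 1 1 = 0 := h (Sum.inl (1 : Fin 2))
    simp only [circVal] at h0 h1
    have hcd' := mul_pos hc hd
    have i0 : (Real.cos (Real.pi / 8) * Real.sin (Real.pi / 8)) * s = 0 := by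
      linear_combination (-1 / 2) * h0 + (-1 / 2) * h1
    have i1 : (Real.cos (Real.pi / 8) * Real.sin (Real.pi / 8)) * t = 0 := by
      linear_combination (-1 / 2) * h0 - (-1 / 2) * h1
    rcases hst with h | h
    · rcases mul_eq_zero.1 i0 with h' | h'
      · exact absurd h' hcd'.ne'
      · exact h h'
    · rcases mul_eq_zero.1 i1 with h' | h'
      · exact absurd h' hcd'.ne'
      · exact h h'

/-- every point of the edge `0` at distance less than `pi / 2` from its midpoint is a hot spot -/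
lemma circ_hot {s : ℝ} (hs1 : -(Real.pi / 2) < s) (hs2 : s < Real.pi / 2)
    (h : 7 * Real.pi / 8 + s ∈ Ioo (0 : ℝ) (circLen 0)) :
    circPt 0 (7 * Real.pi / 8 + s) h ∈ circ.HotSpotsD circAl := by
  obtain ⟨hc, hd, hcd⟩ := cd_facts
  have hpi := Real.pi_pos
  set c := Real.cos (Real.pi / 8) with hcdef
  set d := Real.sin (Real.pi / 8) with hddef
  have hA : Real.cos s / d * d = Real.cos s := by field_simp
  have hB : Real.sin s / c * c = Real.sin s := by field_simp
  have hval : circ.ev (circVal (Real.cos s / d) (Real.sin s / c))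
      (circU (Real.cos s / d) (Real.sin s / c)) (circPt 0 (7 * Real.pi / 8 + s) h) = 1 := by
    show circU (Real.cos s / d) (Real.sin s / c) 0 (7 * Real.pi / 8 + s) = 1
    simp only [circU, add_sub_cancel_left, ← hcdef, ← hddef, hA, hB]
    have := Real.sin_sq_add_cos_sq s
    linear_combination this
  refine ⟨circVal (Real.cos s / d) (Real.sin s / c), circU (Real.cos s / d) (Real.sin s / c),
    ⟨1, circ_lamTwo, circ_isEigD _ _, _, by rw [hval]; exact one_ne_zero⟩, Or.inl ?_⟩
  intro q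
  rw [hval]
  have hcs : 0 ≤ Real.cos s := Real.cos_nonneg_of_mem_Icc ⟨by linarith, by linarith⟩
  have ea : c * d * (Real.cos s / d + Real.sin s / c) = Real.cos (Real.pi / 8 - s) := by
    rw [Real.cos_sub, ← hcdef, ← hddef]; field_simp
  have eb : c * d * (Real.cos s / d - Real.sin s / c) = Real.cos (Real.pi / 8 + s) := by
    rw [Real.cos_add, ← hcdef, ← hddef]; field_simp
  have hv : ∀ v : Fin 2, v = 0 ∨ v = 1 := by decide
  rcases q with v | ⟨e, x, hx⟩
  · show circVal (Real.cos s / d) (Real.sin s / c) v ≤ 1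
    rcases hv v with h | h
    · subst h
      simp only [circVal, ← hcdef, ← hddef, ea]
      linarith [Real.neg_one_le_cos (Real.pi / 8 - s)]
    · subst h
      simp only [circVal, ← hcdef, ← hddef, eb]
      linarith [Real.neg_one_le_cos (Real.pi / 8 + s)]
  · show circU (Real.cos s / d) (Real.sin s / c) e x ≤ 1
    rcases hv e with h | h
    · subst h
      simp only [circU, ← hcdef, ← hddef, hA, hB]
      have := Real.cos_sub (x - 7 * Real.pi / 8) s
      have h2 := Real.cos_le_one (x - 7 * Real.pi / 8 - s)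
      linarith
    · subst h
      have hx2 : x < 3 * Real.pi / 4 := hx.2
      have hx1 : 0 < x := hx.1
      simp only [circU, ← hcdef, ← hddef]
      have g1 : 0 ≤ Real.cos (x - 3 * Real.pi / 8) :=
        Real.cos_nonneg_of_mem_Icc ⟨by linarith, by linarith⟩
      have g2 : Real.sin (x - 3 * Real.pi / 8) ≤ c := by
        rw [hcdef, ← sin38]
        exact Real.sin_le_sin_of_le_of_le_pi_div_two (by linarith) (by linarith) (by linarith)
      have g3 : -c ≤ Real.sin (x - 3 * Real.pi / 8) := by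
        rw [hcdef, ← sin38, ← Real.sin_neg]
        exact Real.sin_le_sin_of_le_of_le_pi_div_two (by linarith) (by linarith) (by linarith)
      have g4 : |Real.sin s / c * d * Real.sin (x - 3 * Real.pi / 8)| ≤ 1 := by
        rw [abs_mul, abs_mul, abs_div, abs_of_pos hd, abs_of_pos hc]
        have h1 : |Real.sin (x - 3 * Real.pi / 8)| ≤ c := abs_le.2 ⟨g3, g2⟩
        have h2 : |Real.sin s| ≤ 1 := Real.abs_sin_le_one s
        have h3 : d ≤ 1 := Real.sin_le_one _
        calc |Real.sin s| / c * d * |Real.sin (x - 3 * Real.pi / 8)|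
            ≤ 1 / c * 1 * c := by gcongr
          _ = 1 := by field_simp
      have g5 := (abs_le.1 g4).2
      have g6 : 0 ≤ Real.cos s / d * c * Real.cos (x - 3 * Real.pi / 8) := by positivity
      linarith

/-- infinitely many hot spots -/
lemma circ_infinite : (circ.HotSpotsD circAl).Infinite := by
  have hpi := Real.pi_pos
  have hmem : ∀ s : Ioo (-(Real.pi / 2)) (Real.pi / 2),
      7 * Real.pi / 8 + s.1 ∈ Ioo (0 : ℝ) (circLen 0) := by
    rintro ⟨s, h1, h2⟩
    exact ⟨by simp only; linarith, by show 7 * Real.pi / 8 + s < 7 * Real.pi / 4; linarith⟩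
  have : Infinite (Ioo (-(Real.pi / 2)) (Real.pi / 2)) :=
    (Ioo_infinite (by linarith)).to_subtype
  refine infinite_of_injective_forall_mem
    (f := fun s : Ioo (-(Real.pi / 2)) (Real.pi / 2) => circPt 0 (7 * Real.pi / 8 + s.1) (hmem s))
    ?_ ?_
  · intro s t hst
    have h1 := Sum.inr.inj hst
    have h2 := eq_of_heq (Sigma.mk.inj h1).2
    have h3 := Subtype.mk.inj h2
    exact Subtype.ext (by linarith)
  · intro s
    exact circ_hot s.2.1 s.2.2 (hmem s)

/-- sign analysis at the vertex `0` -/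
lemma circ_core {a b ca cb c d : ℝ} (hc : 0 < c) (hd : 0 < d)
    (r1 : a + b = 2 * (-(a * c) + ca * d) * (-c)) (r2 : a + b = 2 * (a * d + cb * c) * d)
    (hcb : ca + cb = 2 * a)
    (g0 : a * (Real.sqrt 2 / 2) + ca * (Real.sqrt 2 / 2) ≤ a)
    (g1 : a * (Real.sqrt 2 / 2) + cb * (Real.sqrt 2 / 2) ≤ a)
    (g2 : -(a * c) + ca * d ≤ a) (_g3 : a * d + cb * c ≤ a) (g4 : b ≤ a) :
    a = 0 ∧ b = 0 ∧ ca = 0 ∧ cb = 0 := by
  have s2 : (1 : ℝ) < Real.sqrt 2 := by
    rw [show (1 : ℝ) = Real.sqrt 1 by simp]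
    exact Real.sqrt_lt_sqrt (by norm_num) (by norm_num)
  have ha : a ≤ 0 := by
    have : a * (Real.sqrt 2) + (ca + cb) * (Real.sqrt 2 / 2) ≤ 2 * a := by linarith
    rw [hcb] at this
    have h2 : 2 * a * (Real.sqrt 2 - 1) ≤ 0 := by linarith
    by_contra hcon
    push Not at hcon
    have : 0 < 2 * a * (Real.sqrt 2 - 1) := mul_pos (by linarith) (by linarith)
    linarith
  have hb : b ≤ 0 := by linarith
  obtain ⟨ma, hma⟩ : ∃ ma, ma = -(a * c) + ca * d := ⟨_, rfl⟩
  obtain ⟨mb, hmb⟩ : ∃ mb, mb = a * d + cb * c := ⟨_, rfl⟩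
  rw [← hma] at r1 g2
  rw [← hmb] at r2
  have hma0 : ma ≤ 0 := by linarith
  have hs : a + b = 0 := by
    have h1 : 0 ≤ 2 * ma * (-c) := by
      have := mul_nonneg (neg_nonneg.2 hma0) hc.le
      linarith
    linarith
  have ha0 : a = 0 := by linarith
  have hb0 : b = 0 := by linarith
  have hma1 : ma = 0 := by
    rw [hs] at r1
    have : c * ma = 0 := by linarith
    rcases mul_eq_zero.1 this with h | h
    · exact absurd h hc.ne'
    · exact h
  have hmb1 : mb = 0 := by
    rw [hs] at r2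
    have : d * mb = 0 := by linarith
    rcases mul_eq_zero.1 this with h | h
    · exact absurd h hd.ne'
    · exact h
  refine ⟨ha0, hb0, ?_, ?_⟩
  · rw [hma1, ha0] at hma
    have : d * ca = 0 := by linarith
    rcases mul_eq_zero.1 this with h | h
    · exact absurd h hd.ne'
    · exact h
  · rw [hmb1, ha0] at hmb
    have : c * cb = 0 := by linarith
    rcases mul_eq_zero.1 this with h | h
    · exact absurd h hc.ne'
    · exact h

/-- the vertex `0` is not a hot spot -/
lemma circ_not_hot : (Sum.inl (0 : Fin 2) : circ.Pt) ∉ circ.HotSpotsD circAl := by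
  rintro ⟨val, u, ⟨lam, hlam, hE, p, hp⟩, hext⟩
  have hmu1 : lam = 1 ^ 2 := by rw [one_pow]; exact lamTwo_unique hlam circ_lamTwo
  rw [hmu1] at hE
  obtain ⟨a, b, ca, cb, ha, hb, u0, u1, E1, E2, E5, E6⟩ := circ_eqs one_pos hE
  have hpi := Real.pi_pos
  obtain ⟨hc, hd, hcd⟩ := cd_facts
  simp only [one_mul] at *
  have e74 : (7 * Real.pi / 4 : ℝ) = 2 * (7 * Real.pi / 8) := by ring
  have e34 : (3 * Real.pi / 4 : ℝ) = 2 * (3 * Real.pi / 8) := by ring
  have hsc : Real.sin (Real.pi / 8) ^ 2 + Real.cos (Real.pi / 8) ^ 2 = 1 :=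
    Real.sin_sq_add_cos_sq _
  have hmb : u (1 : Fin 2) (3 * Real.pi / 8)
      = a * Real.sin (Real.pi / 8) + cb * Real.cos (Real.pi / 8) := by
    rw [u1 _ ⟨by positivity, by linarith⟩, cos38, sin38]
  have hma : u (0 : Fin 2) (7 * Real.pi / 8)
      = -(a * Real.cos (Real.pi / 8)) + ca * Real.sin (Real.pi / 8) := by
    rw [u0 _ ⟨by positivity, by linarith⟩, cos78, sin78]; ring
  have hq0 : u (0 : Fin 2) (Real.pi / 4) = a * (Real.sqrt 2 / 2) + ca * (Real.sqrt 2 / 2) := by
    rw [u0 _ ⟨by positivity, by linarith⟩, Real.cos_pi_div_four, Real.sin_pi_div_four]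
  have hq1 : u (1 : Fin 2) (Real.pi / 4) = a * (Real.sqrt 2 / 2) + cb * (Real.sqrt 2 / 2) := by
    rw [u1 _ ⟨by positivity, by linarith⟩, Real.cos_pi_div_four, Real.sin_pi_div_four]
  rw [e74, Real.cos_two_mul', Real.sin_two_mul, cos78, sin78] at E1
  rw [e34, Real.cos_two_mul', Real.sin_two_mul, cos38, sin38] at E2
  have r1 : a + b = 2 * (-(a * Real.cos (Real.pi / 8)) + ca * Real.sin (Real.pi / 8))
      * (-Real.cos (Real.pi / 8)) := by linear_combination E1 - a * hsc
  have r2 : a + b = 2 * (a * Real.sin (Real.pi / 8) + cb * Real.cos (Real.pi / 8))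
      * Real.sin (Real.pi / 8) := by linear_combination E2 - a * hsc
  have m0 : 7 * Real.pi / 8 ∈ Ioo (0 : ℝ) (circLen 0) :=
    ⟨by positivity, by show 7 * Real.pi / 8 < 7 * Real.pi / 4; linarith⟩
  have m1 : 3 * Real.pi / 8 ∈ Ioo (0 : ℝ) (circLen 1) :=
    ⟨by positivity, by show 3 * Real.pi / 8 < 3 * Real.pi / 4; linarith⟩
  have q0 : Real.pi / 4 ∈ Ioo (0 : ℝ) (circLen 0) :=
    ⟨by positivity, by show Real.pi / 4 < 7 * Real.pi / 4; linarith⟩
  have q1 : Real.pi / 4 ∈ Ioo (0 : ℝ) (circLen 1) :=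
    ⟨by positivity, by show Real.pi / 4 < 3 * Real.pi / 4; linarith⟩
  have hall : a = 0 ∧ b = 0 ∧ ca = 0 ∧ cb = 0 := by
    rcases hext with hext | hext
    · have i1 : u (0 : Fin 2) (7 * Real.pi / 8) ≤ val (0 : Fin 2) := hext (circPt 0 _ m0)
      have i2 : u (1 : Fin 2) (3 * Real.pi / 8) ≤ val (0 : Fin 2) := hext (circPt 1 _ m1)
      have i3 : u (0 : Fin 2) (Real.pi / 4) ≤ val (0 : Fin 2) := hext (circPt 0 _ q0)
      have i4 : u (1 : Fin 2) (Real.pi / 4) ≤ val (0 : Fin 2) := hext (circPt 1 _ q1)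
      have i5 : val (1 : Fin 2) ≤ val (0 : Fin 2) := hext (Sum.inl (1 : Fin 2))
      rw [ha] at i1 i2 i3 i4 i5
      rw [hma] at i1
      rw [hmb] at i2
      rw [hq0] at i3
      rw [hq1] at i4
      rw [hb] at i5
      exact circ_core hc hd r1 r2 E5 i3 i4 i1 i2 i5
    · have i1 : val (0 : Fin 2) ≤ u (0 : Fin 2) (7 * Real.pi / 8) := hext (circPt 0 _ m0)
      have i2 : val (0 : Fin 2) ≤ u (1 : Fin 2) (3 * Real.pi / 8) := hext (circPt 1 _ m1)
      have i3 : val (0 : Fin 2) ≤ u (0 : Fin 2) (Real.pi / 4) := hext (circPt 0 _ q0)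
      have i4 : val (0 : Fin 2) ≤ u (1 : Fin 2) (Real.pi / 4) := hext (circPt 1 _ q1)
      have i5 : val (0 : Fin 2) ≤ val (1 : Fin 2) := hext (Sum.inl (1 : Fin 2))
      rw [ha] at i1 i2 i3 i4 i5
      rw [hma] at i1
      rw [hmb] at i2
      rw [hq0] at i3
      rw [hq1] at i4
      rw [hb] at i5
      have := circ_core (a := -a) (b := -b) (ca := -ca) (cb := -cb) hc hd
        (by linear_combination -r1) (by linear_combination -r2) (by linear_combination -E5)
        (by linarith) (by linarith) (by linarith) (by linarith) (by linarith)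
      obtain ⟨j1, j2, j3, j4⟩ := this
      exact ⟨by linarith, by linarith, by linarith, by linarith⟩
  obtain ⟨z1, z2, z3, z4⟩ := hall
  apply hp
  have hv : ∀ v : Fin 2, v = 0 ∨ v = 1 := by decide
  rcases p with v | ⟨e, t, ht⟩
  · show val v = 0
    rcases hv v with h | h
    · rw [h, ha, z1]
    · rw [h, hb, z2]
  · show u e t = 0
    rcases hv e with h | h
    · subst h
      rw [u0 t ⟨ht.1.le, ht.2.le⟩, z1, z3]; ring
    · subst h
      rw [u1 t ⟨ht.1.le, ht.2.le⟩, z1, z4]; ring

end Q191.QGraph
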