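import Pool.Agent.Q191.QGraph

set_option autoImplicit false

open Set

namespace Q191.QGraph

open MGraph

/-- lengths of the four edges -/
noncomputable def lolLen : Fin 4 → ℝ
  | 0 => 5 * Real.pi / 4
  | 1 => Real.pi / 4
  | 2 => Real.arctan 2
  | 3 => Real.arctan 2

/-- sources -/
def lolSrc : Fin 4 → Fin 4
  | 0 => 0
  | 1 => 0
  | 2 => 0
  | 3 => 1

/-- targets -/
def lolDst : Fin 4 → Fin 4
  | 0 => 1
  | 1 => 1
  | 2 => 2
  | 3 => 3

lemma arctan_two_pos : 0 < Real.arctan 2 := by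
  rw [← Real.arctan_zero]
  exact Real.arctan_strictMono (by norm_num)

lemma lolLen_pos : ∀ e, 0 < lolLen e := by
  have hpi := Real.pi_pos
  intro e
  fin_cases e
  · show 0 < 5 * Real.pi / 4
    positivity
  · show 0 < Real.pi / 4
    positivity
  · exact arctan_two_pos
  · exact arctan_two_pos

/-- A cycle of length `3 pi / 2` with two pendant edges of length `arctan 2`: the edges `0` and `1`
join the vertices `0` and `1` and have lengths `5 pi / 4` and `pi / 4`, the pendant edges `2` and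
`3` join `0` to `2` and `1` to `3`. -/
noncomputable def lol : MGraph where
  V := Fin 4
  E := Fin 4
  src := lolSrc
  dst := lolDst
  len := lolLen
  len_pos := lolLen_pos

lemma lol_connected : lol.Connected := by
  refine ⟨⟨(0 : Fin 4)⟩, ?_⟩
  have h1 : Relation.EqvGen (lol.Adj univ) (0 : Fin 4) (1 : Fin 4) :=
    Relation.EqvGen.rel _ _ ⟨(0 : Fin 4), trivial, rfl, rfl⟩
  have h2 : Relation.EqvGen (lol.Adj univ) (0 : Fin 4) (2 : Fin 4) :=
    Relation.EqvGen.rel _ _ ⟨(2 : Fin 4), trivial, rfl, rfl⟩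
  have h3 : Relation.EqvGen (lol.Adj univ) (1 : Fin 4) (3 : Fin 4) :=
    Relation.EqvGen.rel _ _ ⟨(3 : Fin 4), trivial, rfl, rfl⟩
  have h0 : ∀ i : Fin 4, Relation.EqvGen (lol.Adj univ) (0 : Fin 4) i := by
    intro i
    fin_cases i
    · exact Relation.EqvGen.refl _
    · exact h1
    · exact h2
    · exact Relation.EqvGen.trans _ _ _ h1 h3
  intro v w
  exact Relation.EqvGen.trans _ _ _ (Relation.EqvGen.symm _ _ (h0 v)) (h0 w)

/-- the pendant edge `2` is a bridge -/
lemma lol_bridge : lol.IsBridge (2 : Fin 4) := by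
  intro h
  have key : ∀ v w : lol.V, Relation.EqvGen (lol.Adj {(2 : Fin 4)}ᶜ) v w →
      (v = (2 : Fin 4) ↔ w = (2 : Fin 4)) := by
    intro v w hvw
    induction hvw with
    | rel v w h =>
      obtain ⟨e, he, hs, hd⟩ := h
      rw [← hs, ← hd]
      have : ∀ e : Fin 4, e ≠ 2 → (lolSrc e = 2 ↔ lolDst e = 2) := by decide
      exact this e he
    | refl _ => rfl
    | symm _ _ _ ih => exact ih.symm
    | trans _ _ _ _ _ ih1 ih2 => exact ih1.trans ih2
  have h2 := (key (2 : Fin 4) (0 : Fin 4) (h _ _)).1 rfl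
  have h3 : ¬ ((0 : Fin 4) = 2) := by decide
  exact h3 h2

/-- The equations satisfied by an eigenfunction. -/
lemma lol_eqs {k : ℝ} (hk : 0 < k) {val : lol.V → ℝ} {u : lol.E → ℝ → ℝ}
    (h : lol.IsEig (k ^ 2) val u) :
    ∃ a b ca cb pa pb : ℝ, val (0 : Fin 4) = a ∧ val (1 : Fin 4) = b ∧
      (∀ x ∈ Icc (0 : ℝ) (5 * Real.pi / 4),
        u (0 : Fin 4) x = a * Real.cos (k * x) + ca * Real.sin (k * x)) ∧
      (∀ x ∈ Icc (0 : ℝ) (Real.pi / 4),
        u (1 : Fin 4) x = a * Real.cos (k * x) + cb * Real.sin (k * x)) ∧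
      (∀ x ∈ Icc (0 : ℝ) (Real.arctan 2),
        u (2 : Fin 4) x = a * Real.cos (k * x) + pa * Real.sin (k * x)) ∧
      (∀ x ∈ Icc (0 : ℝ) (Real.arctan 2),
        u (3 : Fin 4) x = b * Real.cos (k * x) + pb * Real.sin (k * x)) ∧
      val (2 : Fin 4) = a * Real.cos (k * Real.arctan 2) + pa * Real.sin (k * Real.arctan 2) ∧
      val (3 : Fin 4) = b * Real.cos (k * Real.arctan 2) + pb * Real.sin (k * Real.arctan 2) ∧
      b = a * Real.cos (k * (5 * Real.pi / 4)) + ca * Real.sin (k * (5 * Real.pi / 4)) ∧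
      b = a * Real.cos (k * (Real.pi / 4)) + cb * Real.sin (k * (Real.pi / 4)) ∧
      -a * Real.sin (k * Real.arctan 2) + pa * Real.cos (k * Real.arctan 2) = 0 ∧
      -b * Real.sin (k * Real.arctan 2) + pb * Real.cos (k * Real.arctan 2) = 0 ∧
      ca + cb + pa = 0 ∧
      -(-a * Real.sin (k * (5 * Real.pi / 4)) + ca * Real.cos (k * (5 * Real.pi / 4)))
        - (-a * Real.sin (k * (Real.pi / 4)) + cb * Real.cos (k * (Real.pi / 4))) + pb = 0 := by
  obtain ⟨h0, h1, w, hu, hw, hK⟩ := h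
  have hk' : k ≠ 0 := hk.ne'
  have hpi := Real.pi_pos
  have hat := arctan_two_pos
  have m0 : (5 * Real.pi / 4) ∈ Icc (0 : ℝ) (5 * Real.pi / 4) := ⟨by positivity, le_rfl⟩
  have m1 : (Real.pi / 4) ∈ Icc (0 : ℝ) (Real.pi / 4) := ⟨by positivity, le_rfl⟩
  have m2 : (Real.arctan 2) ∈ Icc (0 : ℝ) (Real.arctan 2) := ⟨hat.le, le_rfl⟩
  have o0 := fun x (hx : x ∈ Icc (0 : ℝ) (5 * Real.pi / 4)) =>
    ode hk' (hu (0 : Fin 4)) (hw (0 : Fin 4)) hx
  have o1 := fun x (hx : x ∈ Icc (0 : ℝ) (Real.pi / 4)) =>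
    ode hk' (hu (1 : Fin 4)) (hw (1 : Fin 4)) hx
  have o2 := fun x (hx : x ∈ Icc (0 : ℝ) (Real.arctan 2)) =>
    ode hk' (hu (2 : Fin 4)) (hw (2 : Fin 4)) hx
  have o3 := fun x (hx : x ∈ Icc (0 : ℝ) (Real.arctan 2)) =>
    ode hk' (hu (3 : Fin 4)) (hw (3 : Fin 4)) hx
  have s0 : u (0 : Fin 4) 0 = val (0 : Fin 4) := h0 (0 : Fin 4)
  have s1 : u (1 : Fin 4) 0 = val (0 : Fin 4) := h0 (1 : Fin 4)
  have s2 : u (2 : Fin 4) 0 = val (0 : Fin 4) := h0 (2 : Fin 4)
  have s3 : u (3 : Fin 4) 0 = val (1 : Fin 4) := h0 (3 : Fin 4)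
  have t0 : u (0 : Fin 4) (5 * Real.pi / 4) = val (1 : Fin 4) := h1 (0 : Fin 4)
  have t1 : u (1 : Fin 4) (Real.pi / 4) = val (1 : Fin 4) := h1 (1 : Fin 4)
  have t2 : u (2 : Fin 4) (Real.arctan 2) = val (2 : Fin 4) := h1 (2 : Fin 4)
  have t3 : u (3 : Fin 4) (Real.arctan 2) = val (3 : Fin 4) := h1 (3 : Fin 4)
  have hK' : ∀ v : Fin 4, (∑ e : Fin 4, if lolSrc e = v then w e 0 else 0)
      - (∑ e : Fin 4, if lolDst e = v then w e (lolLen e) else 0) = 0 := hK
  have K0 : w (0 : Fin 4) 0 + w (1 : Fin 4) 0 + w (2 : Fin 4) 0 = 0 := by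
    have := hK' 0
    simpa [Fin.sum_univ_four, lolSrc, lolDst, lolLen] using this
  have K1 : w (3 : Fin 4) 0 - (w (0 : Fin 4) (5 * Real.pi / 4) + w (1 : Fin 4) (Real.pi / 4)) = 0 := by
    have := hK' 1
    simpa [Fin.sum_univ_four, lolSrc, lolDst, lolLen] using this
  have K2 : w (2 : Fin 4) (Real.arctan 2) = 0 := by
    have := hK' 2
    simpa [Fin.sum_univ_four, lolSrc, lolDst, lolLen] using this
  have K3 : w (3 : Fin 4) (Real.arctan 2) = 0 := by
    have := hK' 3
    simpa [Fin.sum_univ_four, lolSrc, lolDst, lolLen] using this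
  refine ⟨val (0 : Fin 4), val (1 : Fin 4), w (0 : Fin 4) 0 / k, w (1 : Fin 4) 0 / k,
    w (2 : Fin 4) 0 / k, w (3 : Fin 4) 0 / k, rfl, rfl, ?_, ?_, ?_, ?_, ?_, ?_, ?_, ?_, ?_, ?_, ?_,
    ?_⟩
  · intro x hx
    rw [(o0 x hx).1, s0]
  · intro x hx
    rw [(o1 x hx).1, s1]
  · intro x hx
    rw [(o2 x hx).1, s2]
  · intro x hx
    rw [(o3 x hx).1, s3]
  · rw [← t2, (o2 _ m2).1, s2]
  · rw [← t3, (o3 _ m2).1, s3]
  · rw [← s0, ← (o0 _ m0).1, t0]
  · rw [← s1, ← (o1 _ m1).1, t1]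
  · have := (o2 _ m2).2
    rw [K2, s2] at this
    rcases mul_eq_zero.1 this.symm with h | h
    · exact absurd h hk'
    · exact h
  · have := (o3 _ m2).2
    rw [K3, s3] at this
    rcases mul_eq_zero.1 this.symm with h | h
    · exact absurd h hk'
    · exact h
  · have : (w (0 : Fin 4) 0 / k + w (1 : Fin 4) 0 / k + w (2 : Fin 4) 0 / k)
        = (w (0 : Fin 4) 0 + w (1 : Fin 4) 0 + w (2 : Fin 4) 0) / k := by ring
    rw [this, K0, zero_div]
  · have e0 := (o0 _ m0).2
    have e1 := (o1 _ m1).2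
    rw [s0] at e0
    rw [s1] at e1
    rw [e0, e1] at K1
    have : k * (-(-(val (0 : Fin 4)) * Real.sin (k * (5 * Real.pi / 4))
        + w (0 : Fin 4) 0 / k * Real.cos (k * (5 * Real.pi / 4)))
        - (-(val (0 : Fin 4)) * Real.sin (k * (Real.pi / 4))
        + w (1 : Fin 4) 0 / k * Real.cos (k * (Real.pi / 4))) + w (3 : Fin 4) 0 / k) = 0 := by
      have e5 : k * (w (3 : Fin 4) 0 / k) = w (3 : Fin 4) 0 := by field_simp
      linear_combination K1 + e5
    rcases mul_eq_zero.1 this with h | h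
    · exact absurd h hk'
    · exact h

/-- elementary trigonometry at `pi / 8` -/
lemma cd_facts : 0 < Real.cos (Real.pi / 8) ∧ 0 < Real.sin (Real.pi / 8) ∧
    Real.cos (Real.pi / 8) ^ 2 - Real.sin (Real.pi / 8) ^ 2
      = 2 * Real.sin (Real.pi / 8) * Real.cos (Real.pi / 8) := by
  have hpi := Real.pi_pos
  refine ⟨Real.cos_pos_of_mem_Ioo ⟨by linarith, by linarith⟩,
    Real.sin_pos_of_pos_of_lt_pi (by positivity) (by linarith), ?_⟩
  rw [← Real.sin_two_mul, ← Real.cos_two_mul']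
  have : (2 * (Real.pi / 8) : ℝ) = Real.pi / 4 := by ring
  rw [this, Real.cos_pi_div_four, Real.sin_pi_div_four]

lemma ineqG {c d cx sx cy sy T : ℝ} (hc : 0 < c) (hd : 0 < d) (hcd : c ^ 2 - d ^ 2 = 2 * d * c)
    (sxp : 0 < sx) (cyp : 0 < cy) (syp : 0 < sy) (hT0 : 0 < T) (hT2 : T < 2)
    (P3 : 0 < c * cx + d * sx) (P4 : 0 < d * cy - c * sy) :
    0 < sx * cy + cx * (sy + T * cy) := by
  rcases le_or_gt 0 cx with h | h
  · have := mul_pos sxp cyp
    have h2 : 0 ≤ cx * (sy + T * cy) := by positivity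
    linarith
  · have h1 : c * sy + c * T * cy < (d + 2 * c) * cy := by
      have h0 : c * T < c * 2 := mul_lt_mul_of_pos_left hT2 hc
      have : c * T * cy < c * 2 * cy := mul_lt_mul_of_pos_right h0 cyp
      linarith
    have h2 : cx * ((d + 2 * c) * cy) < cx * (c * sy + c * T * cy) :=
      mul_lt_mul_of_neg_left h1 h
    have h3 : -(c * cx) < d * sx := by linarith
    have h4 : -(c * cx) * (c * cy) < d * sx * (c * cy) :=
      mul_lt_mul_of_pos_right h3 (mul_pos hc cyp)
    have h6 := mul_lt_mul_of_pos_left h2 hd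
    have e : (c ^ 2 - d ^ 2) * (cx * cy) = 2 * d * c * (cx * cy) := by rw [hcd]
    have h5 : 0 < d * c * (sx * cy + cx * (sy + T * cy)) := by
      linarith
    exact (pos_iff_pos_of_mul_pos h5).1 (mul_pos hd hc)

lemma ineqH {c d cx sx cy sy T : ℝ} (hc : 0 < c) (hd : 0 < d) (hcd : c ^ 2 - d ^ 2 = 2 * d * c)
    (sxp : 0 < sx) (syp : 0 < sy) (hT2 : T < 2)
    (P3 : 0 < c * cx + d * sx) (P4 : 0 < d * cy - c * sy) :
    0 < cx * sy + sx * cy - T * sx * sy := by
  have h1 : 0 < (c * cx + d * sx) * (d * sy) := mul_pos P3 (mul_pos hd syp)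
  have h2 : 0 < (d * cy - c * sy) * (c * sx) := mul_pos P4 (mul_pos hc sxp)
  have h3 : T * (c * d * (sx * sy)) < 2 * (c * d * (sx * sy)) :=
    mul_lt_mul_of_pos_right hT2 (mul_pos (mul_pos hc hd) (mul_pos sxp syp))
  have e : (c ^ 2 - d ^ 2) * (sx * sy) = 2 * d * c * (sx * sy) := by rw [hcd]
  have h5 : 0 < d * c * (cx * sy + sx * cy - T * sx * sy) := by
    linarith
  exact (pos_iff_pos_of_mul_pos h5).1 (mul_pos hd hc)

/-- below `1` there is no positive eigenvalue -/
lemma lol_no_small {k : ℝ} (hk : 0 < k) (hk1 : k < 1) : ¬ lol.IsEigenvalue (k ^ 2) := by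
  rintro ⟨val, u, hE, p, hp⟩
  obtain ⟨a, b, ca, cb, pa, pb, ha, hb, u0, u1, u2, u3, v2, v3, E1, E2, E3, E4, E5, E6⟩ :=
    lol_eqs hk hE
  have hpi := Real.pi_pos
  obtain ⟨hc, hd, hcd⟩ := cd_facts
  set c := Real.cos (Real.pi / 8) with hcdef
  set d := Real.sin (Real.pi / 8) with hddef
  set x := k * (5 * Real.pi / 8) with hx
  set y := k * (Real.pi / 8) with hy
  have hx2 : k * (5 * Real.pi / 4) = 2 * x := by rw [hx]; ring
  have hy2 : k * (Real.pi / 4) = 2 * y := by rw [hy]; ring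
  rw [hx2] at E1 E6
  rw [hy2] at E2 E6
  have hxpos : 0 < x := by positivity
  have hxlt : x < 5 * Real.pi / 8 := by
    rw [hx]; nlinarith
  have hypos : 0 < y := by positivity
  have hylt : y < Real.pi / 8 := by
    rw [hy]; nlinarith
  have sx : 0 < Real.sin x := Real.sin_pos_of_pos_of_lt_pi hxpos (by linarith)
  have sy : 0 < Real.sin y := Real.sin_pos_of_pos_of_lt_pi hypos (by linarith)
  have cy : 0 < Real.cos y := Real.cos_pos_of_mem_Ioo ⟨by linarith, by linarith⟩
  have P3 : 0 < c * Real.cos x + d * Real.sin x := by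
    have : 0 < Real.cos (x - Real.pi / 8) := Real.cos_pos_of_mem_Ioo ⟨by linarith, by linarith⟩
    rw [Real.cos_sub] at this
    linarith
  have P4 : 0 < d * Real.cos y - c * Real.sin y := by
    have : 0 < Real.sin (Real.pi / 8 - y) := Real.sin_pos_of_pos_of_lt_pi (by linarith) (by linarith)
    rw [Real.sin_sub] at this
    linarith
  have hat := arctan_two_pos
  have hat2 := Real.arctan_lt_pi_div_two 2
  have hkl : k * Real.arctan 2 < Real.arctan 2 := by nlinarith
  have hkl0 : 0 < k * Real.arctan 2 := by positivity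
  have cl : 0 < Real.cos (k * Real.arctan 2) :=
    Real.cos_pos_of_mem_Ioo ⟨by linarith, by linarith⟩
  set T := Real.tan (k * Real.arctan 2) with hT
  have hT2 : T < 2 := by
    have : Real.tan (k * Real.arctan 2) < Real.tan (Real.arctan 2) :=
      Real.tan_lt_tan_of_lt_of_lt_pi_div_two (by linarith) hat2 hkl
    rwa [Real.tan_arctan] at this
  have hT0 : 0 < T := Real.tan_pos_of_pos_of_lt_pi_div_two hkl0 (by linarith)
  have hTc : T * Real.cos (k * Real.arctan 2) = Real.sin (k * Real.arctan 2) :=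
    Real.tan_mul_cos cl.ne'
  have hpa : pa = a * T := by
    have : (pa - a * T) * Real.cos (k * Real.arctan 2) = 0 := by
      linear_combination E3 - a * hTc
    rcases mul_eq_zero.1 this with h | h
    · linarith
    · exact absurd h cl.ne'
  have hpb : pb = b * T := by
    have : (pb - b * T) * Real.cos (k * Real.arctan 2) = 0 := by
      linear_combination E4 - b * hTc
    rcases mul_eq_zero.1 this with h | h
    · linarith
    · exact absurd h cl.ne'
  rw [Real.cos_two_mul', Real.sin_two_mul] at E1 E2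
  rw [Real.cos_two_mul', Real.sin_two_mul, Real.cos_two_mul', Real.sin_two_mul] at E6
  have qx := Real.sin_sq_add_cos_sq x
  have qy := Real.sin_sq_add_cos_sq y
  obtain ⟨ma, hma⟩ : ∃ ma, ma = a * Real.cos x + ca * Real.sin x := ⟨_, rfl⟩
  obtain ⟨na, hna⟩ : ∃ na, na = a * Real.sin x - ca * Real.cos x := ⟨_, rfl⟩
  obtain ⟨mb, hmb⟩ : ∃ mb, mb = a * Real.cos y + cb * Real.sin y := ⟨_, rfl⟩
  obtain ⟨nb, hnb⟩ : ∃ nb, nb = a * Real.sin y - cb * Real.cos y := ⟨_, rfl⟩
  have r1 : a + b = 2 * (ma * Real.cos x) := by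
    rw [hma]; linear_combination E1 - a * qx
  have r2 : a + b = 2 * (mb * Real.cos y) := by
    rw [hmb]; linear_combination E2 - a * qy
  have r3 : a - b = 2 * (na * Real.sin x) := by
    rw [hna]; linear_combination -E1 - a * qx
  have r4 : a - b = 2 * (nb * Real.sin y) := by
    rw [hnb]; linear_combination -E2 - a * qy
  -- the two Kirchhoff equations
  have K1 : ma * Real.sin x - na * Real.cos x + mb * Real.sin y - nb * Real.cos y + a * T = 0 := by
    rw [hma, hna, hmb, hnb]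
    rw [hpa] at E5
    linear_combination E5 + ca * qx + cb * qy
  have K2 : ma * Real.sin x + na * Real.cos x + mb * Real.sin y + nb * Real.cos y + b * T = 0 := by
    rw [hma, hna, hmb, hnb]
    rw [hpb] at E6
    linear_combination E6
  have S1 : ma * Real.sin x + mb * Real.sin y + T * (ma * Real.cos x) = 0 := by
    linear_combination (1 / 2) * K1 + (1 / 2) * K2 - (T / 2) * r1
  have D1 : na * Real.cos x + nb * Real.cos y - T * (na * Real.sin x) = 0 := by
    linear_combination (1 / 2) * K2 - (1 / 2) * K1 + (T / 2) * r3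
  have G : 0 < Real.sin x * Real.cos y + Real.cos x * (Real.sin y + T * Real.cos y) :=
    ineqG hc hd hcd sx cy sy hT0 hT2 P3 P4
  have H : 0 < Real.cos x * Real.sin y + Real.sin x * Real.cos y
      - T * Real.sin x * Real.sin y :=
    ineqH hc hd hcd sx sy hT2 P3 P4
  have hma0 : ma = 0 := by
    have : ma * (Real.sin x * Real.cos y + Real.cos x * (Real.sin y + T * Real.cos y)) = 0 := by
      have r5 : ma * Real.cos x = mb * Real.cos y := by linarith
      linear_combination Real.cos y * S1 + Real.sin y * r5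
    rcases mul_eq_zero.1 this with h | h
    · exact h
    · exact absurd h G.ne'
  have hna0 : na = 0 := by
    have : na * (Real.cos x * Real.sin y + Real.sin x * Real.cos y
      - T * Real.sin x * Real.sin y) = 0 := by
      have r5 : na * Real.sin x = nb * Real.sin y := by linarith
      linear_combination Real.sin y * D1 + Real.cos y * r5
    rcases mul_eq_zero.1 this with h | h
    · exact h
    · exact absurd h H.ne'
  have hmb0 : mb = 0 := by
    rw [hma0] at r1
    have : mb * Real.cos y = 0 := by linarith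
    rcases mul_eq_zero.1 this with h | h
    · exact h
    · exact absurd h cy.ne'
  have hnb0 : nb = 0 := by
    rw [hna0] at r3
    have : nb * Real.sin y = 0 := by linarith
    rcases mul_eq_zero.1 this with h | h
    · exact h
    · exact absurd h sy.ne'
  have ha0 : a = 0 := by
    rw [hma0] at r1; rw [hna0] at r3; linarith
  have hb0 : b = 0 := by
    rw [hma0] at r1; rw [hna0] at r3; linarith
  have hca : ca = 0 := by
    have h1 : ca * Real.sin x = 0 := by
      rw [hma0, ha0] at hma; linarith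
    rcases mul_eq_zero.1 h1 with h | h
    · exact h
    · exact absurd h sx.ne'
  have hcb : cb = 0 := by
    have h1 : cb * Real.sin y = 0 := by
      rw [hmb0, ha0] at hmb; linarith
    rcases mul_eq_zero.1 h1 with h | h
    · exact h
    · exact absurd h sy.ne'
  have hpa0 : pa = 0 := by rw [hpa, ha0, zero_mul]
  have hpb0 : pb = 0 := by rw [hpb, hb0, zero_mul]
  apply hp
  rcases p with v | ⟨e, t, ht⟩
  · show val v = 0
    have hv : ∀ v : Fin 4, v = 0 ∨ v = 1 ∨ v = 2 ∨ v = 3 := by decide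
    rcases hv v with h | h | h | h
    · rw [h, ha, ha0]
    · rw [h, hb, hb0]
    · rw [h, v2, ha0, hpa0]; ring
    · rw [h, v3, hb0, hpb0]; ring
  · show u e t = 0
    have hv : ∀ v : Fin 4, v = 0 ∨ v = 1 ∨ v = 2 ∨ v = 3 := by decide
    rcases hv e with h | h | h | h
    · subst h
      rw [u0 t ⟨ht.1.le, ht.2.le⟩, ha0, hca]; ring
    · subst h
      rw [u1 t ⟨ht.1.le, ht.2.le⟩, ha0, hcb]; ring
    · subst h
      rw [u2 t ⟨ht.1.le, ht.2.le⟩, ha0, hpa0]; ring
    · subst h
      rw [u3 t ⟨ht.1.le, ht.2.le⟩, hb0, hpb0]; ring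

end Q191.QGraph
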