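import Pool.Agent.Q191.QGraphLol

set_option autoImplicit false

open Set

namespace Q191.QGraph

open MGraph

lemma cos58 : Real.cos (5 * Real.pi / 8) = -Real.sin (Real.pi / 8) := by
  have : (5 * Real.pi / 8 : ℝ) = Real.pi / 8 + Real.pi / 2 := by ring
  rw [this, Real.cos_add_pi_div_two]

lemma sin58 : Real.sin (5 * Real.pi / 8) = Real.cos (Real.pi / 8) := by
  have : (5 * Real.pi / 8 : ℝ) = Real.pi / 8 + Real.pi / 2 := by ring
  rw [this, Real.sin_add_pi_div_two]

lemma sin_arctan_two : Real.sin (Real.arctan 2) = 2 * Real.cos (Real.arctan 2) := by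
  have h := Real.tan_mul_cos (x := Real.arctan 2) (Real.cos_arctan_pos 2).ne'
  rw [Real.tan_arctan] at h
  exact h.symm

/-- edge functions of the second eigenfunctions -/
noncomputable def lolU (A B : ℝ) : Fin 4 → ℝ → ℝ
  | 0 => fun x => A * Real.cos (Real.pi / 8) * Real.cos (x - 5 * Real.pi / 8)
      + B * Real.sin (Real.pi / 8) * Real.sin (x - 5 * Real.pi / 8)
  | 1 => fun x => -A * Real.sin (Real.pi / 8) * Real.cos (x - Real.pi / 8)
      + B * Real.cos (Real.pi / 8) * Real.sin (x - Real.pi / 8)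
  | 2 => fun x => -(Real.cos (Real.pi / 8) * Real.sin (Real.pi / 8) * (A + B))
      * (Real.cos x + 2 * Real.sin x)
  | 3 => fun x => -(Real.cos (Real.pi / 8) * Real.sin (Real.pi / 8) * (A - B))
      * (Real.cos x + 2 * Real.sin x)

/-- their derivatives -/
noncomputable def lolW (A B : ℝ) : Fin 4 → ℝ → ℝ
  | 0 => fun x => -(A * Real.cos (Real.pi / 8) * Real.sin (x - 5 * Real.pi / 8))
      + B * Real.sin (Real.pi / 8) * Real.cos (x - 5 * Real.pi / 8)
  | 1 => fun x => A * Real.sin (Real.pi / 8) * Real.sin (x - Real.pi / 8)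
      + B * Real.cos (Real.pi / 8) * Real.cos (x - Real.pi / 8)
  | 2 => fun x => -(Real.cos (Real.pi / 8) * Real.sin (Real.pi / 8) * (A + B))
      * (-Real.sin x + 2 * Real.cos x)
  | 3 => fun x => -(Real.cos (Real.pi / 8) * Real.sin (Real.pi / 8) * (A - B))
      * (-Real.sin x + 2 * Real.cos x)

/-- vertex values -/
noncomputable def lolVal (A B : ℝ) : Fin 4 → ℝ
  | 0 => -(Real.cos (Real.pi / 8) * Real.sin (Real.pi / 8) * (A + B))
  | 1 => -(Real.cos (Real.pi / 8) * Real.sin (Real.pi / 8) * (A - B))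
  | 2 => -(Real.cos (Real.pi / 8) * Real.sin (Real.pi / 8) * (A + B))
      * (Real.cos (Real.arctan 2) + 2 * Real.sin (Real.arctan 2))
  | 3 => -(Real.cos (Real.pi / 8) * Real.sin (Real.pi / 8) * (A - B))
      * (Real.cos (Real.arctan 2) + 2 * Real.sin (Real.arctan 2))

lemma lolU_deriv (A B : ℝ) (e : Fin 4) (x : ℝ) : HasDerivAt (lolU A B e) (lolW A B e x) x := by
  have hv : ∀ v : Fin 4, v = 0 ∨ v = 1 ∨ v = 2 ∨ v = 3 := by decide
  rcases hv e with rfl | rfl | rfl | rfl
  · have h := (((hasDerivAt_id x).sub_const (5 * Real.pi / 8)).cos.const_mul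
      (A * Real.cos (Real.pi / 8))).add (((hasDerivAt_id x).sub_const (5 * Real.pi / 8)).sin.const_mul
      (B * Real.sin (Real.pi / 8)))
    refine h.congr_deriv ?_
    simp [lolW]
  · have h := (((hasDerivAt_id x).sub_const (Real.pi / 8)).cos.const_mul
      (-A * Real.sin (Real.pi / 8))).add (((hasDerivAt_id x).sub_const (Real.pi / 8)).sin.const_mul
      (B * Real.cos (Real.pi / 8)))
    refine h.congr_deriv ?_
    simp [lolW]
  · have h := ((Real.hasDerivAt_cos x).add ((Real.hasDerivAt_sin x).const_mul 2)).const_mul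
      (-(Real.cos (Real.pi / 8) * Real.sin (Real.pi / 8) * (A + B)))
    exact h
  · have h := ((Real.hasDerivAt_cos x).add ((Real.hasDerivAt_sin x).const_mul 2)).const_mul
      (-(Real.cos (Real.pi / 8) * Real.sin (Real.pi / 8) * (A - B)))
    exact h

lemma lolW_deriv (A B : ℝ) (e : Fin 4) (x : ℝ) :
    HasDerivAt (lolW A B e) (-1 * lolU A B e x) x := by
  have hv : ∀ v : Fin 4, v = 0 ∨ v = 1 ∨ v = 2 ∨ v = 3 := by decide
  rcases hv e with rfl | rfl | rfl | rfl
  · have h := (((hasDerivAt_id x).sub_const (5 * Real.pi / 8)).sin.const_mul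
      (A * Real.cos (Real.pi / 8))).neg.add
      (((hasDerivAt_id x).sub_const (5 * Real.pi / 8)).cos.const_mul (B * Real.sin (Real.pi / 8)))
    refine h.congr_deriv ?_
    simp [lolU]; ring
  · have h := (((hasDerivAt_id x).sub_const (Real.pi / 8)).sin.const_mul
      (A * Real.sin (Real.pi / 8))).add (((hasDerivAt_id x).sub_const (Real.pi / 8)).cos.const_mul
      (B * Real.cos (Real.pi / 8)))
    refine h.congr_deriv ?_
    simp [lolU]; ring
  · have h := ((Real.hasDerivAt_sin x).neg.add ((Real.hasDerivAt_cos x).const_mul 2)).const_mul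
      (-(Real.cos (Real.pi / 8) * Real.sin (Real.pi / 8) * (A + B)))
    refine h.congr_deriv ?_
    simp [lolU]; ring
  · have h := ((Real.hasDerivAt_sin x).neg.add ((Real.hasDerivAt_cos x).const_mul 2)).const_mul
      (-(Real.cos (Real.pi / 8) * Real.sin (Real.pi / 8) * (A - B)))
    refine h.congr_deriv ?_
    simp [lolU]; ring

lemma lol_isEig (A B : ℝ) : lol.IsEig 1 (lolVal A B) (lolU A B) := by
  obtain ⟨hc, hd, hcd⟩ := cd_facts
  have hv : ∀ v : Fin 4, v = 0 ∨ v = 1 ∨ v = 2 ∨ v = 3 := by decide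
  refine ⟨?_, ?_, lolW A B, ?_, ?_, ?_⟩
  · intro (e : Fin 4)
    show lolU A B e 0 = lolVal A B (lolSrc e)
    rcases hv e with rfl | rfl | rfl | rfl
    · simp only [lolU, lolVal, lolSrc, zero_sub, Real.cos_neg, Real.sin_neg, cos58, sin58]; ring
    · simp only [lolU, lolVal, lolSrc, zero_sub, Real.cos_neg, Real.sin_neg]; ring
    · simp [lolU, lolVal, lolSrc]
    · simp [lolU, lolVal, lolSrc]
  · intro (e : Fin 4)
    show lolU A B e (lolLen e) = lolVal A B (lolDst e)
    rcases hv e with rfl | rfl | rfl | rfl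
    · have : (5 * Real.pi / 4 - 5 * Real.pi / 8 : ℝ) = 5 * Real.pi / 8 := by ring
      simp only [lolU, lolVal, lolDst, lolLen, this, cos58, sin58]; ring
    · have : (Real.pi / 4 - Real.pi / 8 : ℝ) = Real.pi / 8 := by ring
      simp only [lolU, lolVal, lolDst, lolLen, this]; ring
    · simp only [lolU, lolVal, lolDst, lolLen]
    · simp only [lolU, lolVal, lolDst, lolLen]
  · intro e x _
    exact (lolU_deriv A B e x).hasDerivWithinAt
  · intro e x _
    exact (lolW_deriv A B e x).hasDerivWithinAt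
  · intro (v : Fin 4)
    show (∑ e : Fin 4, if lolSrc e = v then lolW A B e 0 else 0)
      - (∑ e : Fin 4, if lolDst e = v then lolW A B e (lolLen e) else 0) = 0
    have e1 : (5 * Real.pi / 4 - 5 * Real.pi / 8 : ℝ) = 5 * Real.pi / 8 := by ring
    have e2 : (Real.pi / 4 - Real.pi / 8 : ℝ) = Real.pi / 8 := by ring
    have d1 : ((0 : Fin 4) = 1) = False := by decide
    have d2 : ((0 : Fin 4) = 2) = False := by decide
    have d3 : ((0 : Fin 4) = 3) = False := by decide
    have d4 : ((1 : Fin 4) = 0) = False := by decide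
    have d5 : ((1 : Fin 4) = 2) = False := by decide
    have d6 : ((1 : Fin 4) = 3) = False := by decide
    have d7 : ((2 : Fin 4) = 0) = False := by decide
    have d8 : ((2 : Fin 4) = 1) = False := by decide
    have d9 : ((2 : Fin 4) = 3) = False := by decide
    have d10 : ((3 : Fin 4) = 0) = False := by decide
    have d11 : ((3 : Fin 4) = 1) = False := by decide
    have d12 : ((3 : Fin 4) = 2) = False := by decide
    rcases hv v with rfl | rfl | rfl | rfl
    · simp only [Fin.sum_univ_four, lolSrc, lolDst, lolLen, lolW, d4, d7, d10, if_true,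
        if_false, zero_sub, Real.sin_neg, Real.cos_neg, cos58, sin58, Real.sin_zero, Real.cos_zero]
      linear_combination (A + B) * hcd
    · simp only [Fin.sum_univ_four, lolSrc, lolDst, lolLen, lolW, d1, d8, d11, if_true,
        if_false, e1, e2, cos58, sin58, Real.sin_zero, Real.cos_zero]
      linear_combination (A - B) * hcd
    · simp only [Fin.sum_univ_four, lolSrc, lolDst, lolLen, lolW, d2, d5, d12, if_true,
        if_false, sin_arctan_two]
      ring
    · simp only [Fin.sum_univ_four, lolSrc, lolDst, lolLen, lolW, d3, d6, d9, if_true,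
        if_false, sin_arctan_two]
      ring

/-- the point at distance `t` from the source of the edge `e` -/
def lolPt (e : Fin 4) (t : ℝ) (h : t ∈ Ioo (0 : ℝ) (lolLen e)) : lol.Pt := Sum.inr ⟨e, ⟨t, h⟩⟩

lemma lol_muTwo : lol.IsMuTwo 1 := by
  obtain ⟨hc, hd, hcd⟩ := cd_facts
  refine ⟨one_pos, ⟨lolVal 1 0, lolU 1 0, lol_isEig 1 0, Sum.inl (0 : Fin 4), ?_⟩, ?_⟩
  · show lolVal 1 0 0 ≠ 0
    simp only [lolVal, add_zero, mul_one]
    exact neg_ne_zero.2 (mul_pos hc hd).ne'
  · intro nu hnu h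
    by_contra hcon
    push Not at hcon
    have hs : Real.sqrt nu ^ 2 = nu := Real.sq_sqrt hnu.le
    rw [← hs] at h hcon
    refine lol_no_small (Real.sqrt_pos.2 hnu) ?_ h
    exact lt_of_pow_lt_pow_left₀ 2 (by positivity) (by simpa using hcon)

lemma muTwo_unique {mu nu : ℝ} {G : MGraph} (h1 : G.IsMuTwo mu) (h2 : G.IsMuTwo nu) : mu = nu :=
  le_antisymm (h1.2.2 nu h2.1 h2.2.1) (h2.2.2 mu h1.1 h1.2.1)

/-- every point of the edge `0` at distance less than `pi / 8` from its midpoint is a hot spot -/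
lemma lol_hot {s : ℝ} (hs1 : -(Real.pi / 8) < s) (hs2 : s < Real.pi / 8)
    (h : 5 * Real.pi / 8 + s ∈ Ioo (0 : ℝ) (lolLen 0)) :
    lolPt 0 (5 * Real.pi / 8 + s) h ∈ lol.HotSpots := by
  obtain ⟨hc, hd, hcd⟩ := cd_facts
  have hpi := Real.pi_pos
  set c := Real.cos (Real.pi / 8) with hcdef
  set d := Real.sin (Real.pi / 8) with hddef
  have hA : Real.cos s / c * c = Real.cos s := by field_simp
  have hB : Real.sin s / d * d = Real.sin s := by field_simp
  have hval : lol.ev (lolVal (Real.cos s / c) (Real.sin s / d)) (lolU (Real.cos s / c) (Real.sin s / d))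
      (lolPt 0 (5 * Real.pi / 8 + s) h) = 1 := by
    show lolU (Real.cos s / c) (Real.sin s / d) 0 (5 * Real.pi / 8 + s) = 1
    simp only [lolU, add_sub_cancel_left, ← hcdef, ← hddef, hA, hB]
    have := Real.sin_sq_add_cos_sq s
    linear_combination this
  refine ⟨lolVal (Real.cos s / c) (Real.sin s / d), lolU (Real.cos s / c) (Real.sin s / d),
    ⟨1, lol_muTwo, lol_isEig _ _, _, by rw [hval]; exact one_ne_zero⟩, Or.inl ?_⟩
  intro q
  rw [hval]
  have hcs : 0 ≤ Real.cos s := Real.cos_nonneg_of_mem_Icc ⟨by linarith, by linarith⟩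
  have ea : c * d * (Real.cos s / c + Real.sin s / d) = Real.sin (Real.pi / 8 + s) := by
    rw [Real.sin_add, ← hcdef, ← hddef]; field_simp
  have eb : c * d * (Real.cos s / c - Real.sin s / d) = Real.sin (Real.pi / 8 - s) := by
    rw [Real.sin_sub, ← hcdef, ← hddef]; field_simp
  have pa : 0 ≤ Real.sin (Real.pi / 8 + s) :=
    Real.sin_nonneg_of_nonneg_of_le_pi (by linarith) (by linarith)
  have pb : 0 ≤ Real.sin (Real.pi / 8 - s) :=
    Real.sin_nonneg_of_nonneg_of_le_pi (by linarith) (by linarith)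
  have hca := Real.cos_arctan_pos 2
  have hat := arctan_two_pos
  have hat2 := Real.arctan_lt_pi_div_two 2
  have hv : ∀ v : Fin 4, v = 0 ∨ v = 1 ∨ v = 2 ∨ v = 3 := by decide
  rcases q with v | ⟨e, x, hx⟩
  · show lolVal (Real.cos s / c) (Real.sin s / d) v ≤ 1
    rcases hv v with h | h | h | h
    · subst h
      simp only [lolVal, ← hcdef, ← hddef, ea]; linarith
    · subst h
      simp only [lolVal, ← hcdef, ← hddef, eb]; linarith
    · subst h
      simp only [lolVal, ← hcdef, ← hddef, ea, sin_arctan_two]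
      nlinarith [mul_nonneg pa hca.le]
    · subst h
      simp only [lolVal, ← hcdef, ← hddef, eb, sin_arctan_two]
      nlinarith [mul_nonneg pb hca.le]
  · show lolU (Real.cos s / c) (Real.sin s / d) e x ≤ 1
    rcases hv e with h | h | h | h
    · subst h
      simp only [lolU, ← hcdef, ← hddef, hA, hB]
      have := Real.cos_sub (x - 5 * Real.pi / 8) s
      have h2 := Real.cos_le_one (x - 5 * Real.pi / 8 - s)
      linarith
    · subst h
      have hx2 : x < Real.pi / 4 := hx.2
      have hx1 : 0 < x := hx.1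
      simp only [lolU, ← hcdef, ← hddef]
      have g1 : 0 ≤ Real.cos (x - Real.pi / 8) :=
        Real.cos_nonneg_of_mem_Icc ⟨by linarith, by linarith⟩
      have g2 : Real.sin (x - Real.pi / 8) ≤ d :=
        Real.sin_le_sin_of_le_of_le_pi_div_two (by linarith) (by linarith) (by linarith)
      have g3 : -d ≤ Real.sin (x - Real.pi / 8) := by
        rw [hddef, ← Real.sin_neg]
        exact Real.sin_le_sin_of_le_of_le_pi_div_two (by linarith) (by linarith) (by linarith)
      have g4 : |Real.sin s / d * c * Real.sin (x - Real.pi / 8)| ≤ 1 := by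
        rw [abs_mul, abs_mul, abs_div, abs_of_pos hd, abs_of_pos hc]
        have h1 : |Real.sin (x - Real.pi / 8)| ≤ d := abs_le.2 ⟨g3, g2⟩
        have h2 : |Real.sin s| ≤ 1 := Real.abs_sin_le_one s
        have h3 : c ≤ 1 := Real.cos_le_one _
        calc |Real.sin s| / d * c * |Real.sin (x - Real.pi / 8)|
            ≤ 1 / d * 1 * d := by gcongr
          _ = 1 := by field_simp
      have g5 := (abs_le.1 g4).2
      have g6 : 0 ≤ Real.cos s / c * d * Real.cos (x - Real.pi / 8) := by positivity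
      linarith
    · subst h
      have hx2 : x < Real.arctan 2 := hx.2
      have hx1 : 0 < x := hx.1
      have g1 : 0 ≤ Real.cos x := Real.cos_nonneg_of_mem_Icc ⟨by linarith, by linarith⟩
      have g2 : 0 ≤ Real.sin x := Real.sin_nonneg_of_nonneg_of_le_pi (by linarith) (by linarith)
      simp only [lolU, ← hcdef, ← hddef, ea]
      nlinarith [mul_nonneg pa g1, mul_nonneg pa g2]
    · subst h
      have hx2 : x < Real.arctan 2 := hx.2
      have hx1 : 0 < x := hx.1
      have g1 : 0 ≤ Real.cos x := Real.cos_nonneg_of_mem_Icc ⟨by linarith, by linarith⟩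
      have g2 : 0 ≤ Real.sin x := Real.sin_nonneg_of_nonneg_of_le_pi (by linarith) (by linarith)
      simp only [lolU, ← hcdef, ← hddef, eb]
      nlinarith [mul_nonneg pb g1, mul_nonneg pb g2]

/-- infinitely many hot spots -/
lemma lol_infinite : lol.HotSpots.Infinite := by
  have hpi := Real.pi_pos
  have hmem : ∀ s : Ioo (-(Real.pi / 8)) (Real.pi / 8),
      5 * Real.pi / 8 + s.1 ∈ Ioo (0 : ℝ) (lolLen 0) := by
    rintro ⟨s, h1, h2⟩
    exact ⟨by simp only; linarith, by show 5 * Real.pi / 8 + s < 5 * Real.pi / 4; linarith⟩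
  have : Infinite (Ioo (-(Real.pi / 8)) (Real.pi / 8)) :=
    (Ioo_infinite (by linarith)).to_subtype
  refine infinite_of_injective_forall_mem
    (f := fun s : Ioo (-(Real.pi / 8)) (Real.pi / 8) => lolPt 0 (5 * Real.pi / 8 + s.1) (hmem s))
    ?_ ?_
  · intro s t hst
    have h1 := Sum.inr.inj hst
    have h2 := eq_of_heq (Sigma.mk.inj h1).2
    have h3 := Subtype.mk.inj h2
    exact Subtype.ext (by linarith)
  · intro s
    exact lol_hot s.2.1 s.2.2 (hmem s)

lemma core {a b ma mb c d r : ℝ} (hc : 0 < c) (hd : 0 < d) (hr : 0 < r) (hrc : 1 < r * c)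
    (h1 : a + b = 2 * c * mb) (h2 : a + b = -(2 * d * ma)) (g1 : ma ≤ mb) (g2 : r * a ≤ mb)
    (g3 : r * b ≤ mb) : a = 0 ∧ b = 0 := by
  have s1 : 0 ≤ a + b := by
    have e : (a + b) * (c + d) = 2 * (c * d) * (mb - ma) := by
      linear_combination d * h1 + c * h2
    have : 0 ≤ (a + b) * (c + d) := by
      rw [e]; have := mul_pos hc hd; have := sub_nonneg.2 g1; positivity
    exact nonneg_of_mul_nonneg_left this (by linarith)
  have s2 : (a + b) * (r * c - 1) ≤ 0 := by
    have : r * (a + b) * c ≤ 2 * mb * c := by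
      have : r * (a + b) ≤ 2 * mb := by linarith
      exact mul_le_mul_of_nonneg_right this hc.le
    linarith
  have s3 : a + b ≤ 0 := by
    by_contra hcon
    push Not at hcon
    have := mul_pos hcon (sub_pos.2 hrc)
    linarith
  have s4 : a + b = 0 := le_antisymm s3 s1
  have s5 : mb = 0 := by
    rw [s4] at h1
    rcases mul_eq_zero.1 h1.symm with h | h
    · linarith
    · exact h
  rw [s5] at g2 g3
  have s6 : a ≤ 0 := by
    by_contra hcon; push Not at hcon
    have := mul_pos hr hcon; linarith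
  have s7 : b ≤ 0 := by
    by_contra hcon; push Not at hcon
    have := mul_pos hr hcon; linarith
  constructor <;> linarith

/-- the midpoint of the edge `1` is not a hot spot -/
lemma lol_not_hot (h : Real.pi / 8 ∈ Ioo (0 : ℝ) (lolLen 1)) :
    lolPt 1 (Real.pi / 8) h ∉ lol.HotSpots := by
  rintro ⟨val, u, ⟨mu, hmu, hE, p, hp⟩, hext⟩
  have hmu1 : mu = 1 ^ 2 := by rw [one_pow]; exact muTwo_unique hmu lol_muTwo
  rw [hmu1] at hE
  obtain ⟨a, b, ca, cb, pa, pb, ha, hb, u0, u1, u2, u3, v2, v3, E1, E2, E3, E4, E5, E6⟩ :=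
    lol_eqs one_pos hE
  have hpi := Real.pi_pos
  obtain ⟨hc, hd, hcd⟩ := cd_facts
  have hca := Real.cos_arctan_pos 2
  have hsq := Real.sin_sq_add_cos_sq (Real.arctan 2)
  simp only [one_mul] at *
  set c := Real.cos (Real.pi / 8) with hcdef
  set d := Real.sin (Real.pi / 8) with hddef
  have e54 : (5 * Real.pi / 4 : ℝ) = 2 * (5 * Real.pi / 8) := by ring
  have e14 : (Real.pi / 4 : ℝ) = 2 * (Real.pi / 8) := by ring
  have hsc : d ^ 2 + c ^ 2 = 1 := Real.sin_sq_add_cos_sq _
  have hmb : u (1 : Fin 4) (Real.pi / 8) = a * c + cb * d := by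
    rw [u1 _ ⟨by positivity, by linarith⟩]
  have hma : u (0 : Fin 4) (5 * Real.pi / 8) = -(a * d) + ca * c := by
    rw [u0 _ ⟨by positivity, by linarith⟩, cos58, sin58]; ring
  rw [e54, Real.cos_two_mul', Real.sin_two_mul, cos58, sin58] at E1
  rw [e14, Real.cos_two_mul', Real.sin_two_mul] at E2
  simp only [← hcdef, ← hddef] at E1 E2
  have h1 : a + b = 2 * c * (a * c + cb * d) := by linear_combination E2 - a * hsc
  have h2 : a + b = -(2 * d * (-(a * d) + ca * c)) := by linear_combination E1 - a * hsc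
  rw [sin_arctan_two] at E3 E4 v2 v3 hsq
  have hpa : pa = 2 * a := by
    have : (pa - 2 * a) * Real.cos (Real.arctan 2) = 0 := by linear_combination E3
    rcases mul_eq_zero.1 this with h | h
    · linarith
    · exact absurd h hca.ne'
  have hpb : pb = 2 * b := by
    have : (pb - 2 * b) * Real.cos (Real.arctan 2) = 0 := by linear_combination E4
    rcases mul_eq_zero.1 this with h | h
    · linarith
    · exact absurd h hca.ne'
  obtain ⟨r, hr⟩ : ∃ r, r = 5 * Real.cos (Real.arctan 2) := ⟨_, rfl⟩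
  have hrpos : 0 < r := by rw [hr]; positivity
  have hr2 : r ^ 2 = 5 := by rw [hr]; linear_combination 5 * hsq
  have hrc : 1 < r * c := by
    have h3 : 1 / 2 < c ^ 2 := by nlinarith [mul_pos hc hd]
    have h4 : 1 < (r * c) ^ 2 := by rw [mul_pow, hr2]; linarith
    by_contra hcon
    push Not at hcon
    have := pow_le_one₀ (n := 2) (mul_pos hrpos hc).le hcon
    linarith
  have w2 : val (2 : Fin 4) = r * a := by rw [v2, hpa, hr]; ring
  have w3 : val (3 : Fin 4) = r * b := by rw [v3, hpb, hr]; ring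
  have hm0 : 5 * Real.pi / 8 ∈ Ioo (0 : ℝ) (lolLen 0) :=
    ⟨by positivity, by show 5 * Real.pi / 8 < 5 * Real.pi / 4; linarith⟩
  have hab : a = 0 ∧ b = 0 := by
    rcases hext with hext | hext
    · have i1 : u (0 : Fin 4) (5 * Real.pi / 8) ≤ u (1 : Fin 4) (Real.pi / 8) :=
        hext (lolPt 0 (5 * Real.pi / 8) hm0)
      have i2 : val (2 : Fin 4) ≤ u (1 : Fin 4) (Real.pi / 8) := hext (Sum.inl (2 : Fin 4))
      have i3 : val (3 : Fin 4) ≤ u (1 : Fin 4) (Real.pi / 8) := hext (Sum.inl (3 : Fin 4))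
      rw [hmb] at i1 i2 i3
      rw [hma] at i1
      rw [w2] at i2
      rw [w3] at i3
      exact core hc hd hrpos hrc h1 h2 i1 i2 i3
    · have i1 : u (1 : Fin 4) (Real.pi / 8) ≤ u (0 : Fin 4) (5 * Real.pi / 8) :=
        hext (lolPt 0 (5 * Real.pi / 8) hm0)
      have i2 : u (1 : Fin 4) (Real.pi / 8) ≤ val (2 : Fin 4) := hext (Sum.inl (2 : Fin 4))
      have i3 : u (1 : Fin 4) (Real.pi / 8) ≤ val (3 : Fin 4) := hext (Sum.inl (3 : Fin 4))
      rw [hmb] at i1 i2 i3
      rw [hma] at i1
      rw [w2] at i2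
      rw [w3] at i3
      have := core (a := -a) (b := -b) (ma := -(-(a * d) + ca * c)) (mb := -(a * c + cb * d))
        hc hd hrpos hrc (by linear_combination -h1) (by linear_combination -h2)
        (by linarith) (by linarith) (by linarith)
      exact ⟨by linarith [this.1], by linarith [this.2]⟩
  obtain ⟨ha0, hb0⟩ := hab
  have hca0 : ca = 0 := by
    rw [ha0, hb0] at h2
    have : d * c * ca = 0 := by linear_combination (1 / 2) * h2
    rcases mul_eq_zero.1 this with h | h
    · exact absurd h (mul_pos hd hc).ne'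
    · exact h
  have hcb0 : cb = 0 := by
    rw [ha0, hb0] at h1
    have : d * c * cb = 0 := by linear_combination (-1 / 2) * h1
    rcases mul_eq_zero.1 this with h | h
    · exact absurd h (mul_pos hd hc).ne'
    · exact h
  have hpa0 : pa = 0 := by rw [hpa, ha0, mul_zero]
  have hpb0 : pb = 0 := by rw [hpb, hb0, mul_zero]
  apply hp
  have hv : ∀ v : Fin 4, v = 0 ∨ v = 1 ∨ v = 2 ∨ v = 3 := by decide
  rcases p with v | ⟨e, t, ht⟩
  · show val v = 0
    rcases hv v with h | h | h | h
    · rw [h, ha, ha0]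
    · rw [h, hb, hb0]
    · rw [h, w2, ha0, mul_zero]
    · rw [h, w3, hb0, mul_zero]
  · show u e t = 0
    rcases hv e with h | h | h | h
    · subst h
      rw [u0 t ⟨ht.1.le, ht.2.le⟩, ha0, hca0]; ring
    · subst h
      rw [u1 t ⟨ht.1.le, ht.2.le⟩, ha0, hcb0]; ring
    · subst h
      rw [u2 t ⟨ht.1.le, ht.2.le⟩, ha0, hpa0]; ring
    · subst h
      rw [u3 t ⟨ht.1.le, ht.2.le⟩, hb0, hpb0]; ring

end Q191.QGraph
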