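import Pool.Agent.Q191.QGraph

set_option autoImplicit false

open Set

namespace Q191.QGraph

namespace MGraph

/-- Isomorphism of metric graphs: bijections of vertices and edges preserving the lengths and the
incidence, where an edge may be reversed. -/
def Isom (G H : MGraph) : Prop :=
  ∃ (f : G.V ≃ H.V) (g : G.E ≃ H.E), ∀ e, H.len (g e) = G.len e ∧
    ((H.src (g e) = f (G.src e) ∧ H.dst (g e) = f (G.dst e)) ∨
     (H.src (g e) = f (G.dst e) ∧ H.dst (g e) = f (G.src e)))

/-- sources of the edges of the subdivision -/
def subSrc (G : MGraph) : Option G.E → Option G.V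
  | none => none
  | some e => some (G.src e)

/-- targets of the edges of the subdivision -/
def subDst (G : MGraph) (e0 : G.E) : Option G.E → Option G.V
  | none => some (G.dst e0)
  | some e => if e = e0 then none else some (G.dst e)

/-- Insertion of a new vertex (`none`, of degree 2) on the edge `e0` at distance `t` from its
source; the edge `e0` becomes two edges, `some e0` and `none`. -/
def subdivide (G : MGraph) (e0 : G.E) (t : ℝ) (h0 : 0 < t) (h1 : t < G.len e0) : MGraph where
  V := Option G.V
  E := Option G.E
  src := G.subSrc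
  dst := G.subDst e0
  len := fun e => match e with
    | none => G.len e0 - t
    | some e => if e = e0 then t else G.len e
  len_pos := by
    intro e
    rcases e with _ | e
    · simpa using h1
    · by_cases h : e = e0
      · simpa [h] using h0
      · simpa [h] using G.len_pos e

/-- One elementary step: an isomorphism or the insertion of a vertex of degree 2. -/
def Step (G H : MGraph) : Prop :=
  Isom G H ∨ ∃ (e0 : G.E) (t : ℝ) (h0 : 0 < t) (h1 : t < G.len e0), Isom (G.subdivide e0 t h0 h1) H

/-- Two graphs are the same if they are related by isomorphisms and by inserting and removing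
vertices of degree 2. -/
def Same : MGraph → MGraph → Prop := Relation.EqvGen Step

/-- The degree of a vertex (a loop counts twice). -/
def deg (G : MGraph) (v : G.V) : ℕ :=
  (∑ e, if G.src e = v then 1 else 0) + (∑ e, if G.dst e = v then 1 else 0)

/-- The number of vertices of degree 4. -/
def cnt (G : MGraph) : ℕ := ∑ v, if G.deg v = 4 then 1 else 0

lemma deg_isom {G H : MGraph} (f : G.V ≃ H.V) (g : G.E ≃ H.E)
    (h : ∀ e, H.len (g e) = G.len e ∧
    ((H.src (g e) = f (G.src e) ∧ H.dst (g e) = f (G.dst e)) ∨
     (H.src (g e) = f (G.dst e) ∧ H.dst (g e) = f (G.src e)))) (v : G.V) :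
    H.deg (f v) = G.deg v := by
  unfold deg
  rw [← Equiv.sum_comp g, ← Equiv.sum_comp g, ← Finset.sum_add_distrib, ← Finset.sum_add_distrib]
  refine Finset.sum_congr rfl fun e _ => ?_
  rcases (h e).2 with ⟨h1, h2⟩ | ⟨h1, h2⟩
  · simp only [h1, h2, f.injective.eq_iff]
  · simp only [h1, h2, f.injective.eq_iff]
    rw [add_comm]

lemma cnt_isom {G H : MGraph} (h : Isom G H) : H.cnt = G.cnt := by
  obtain ⟨f, g, h⟩ := h
  unfold cnt
  rw [← Equiv.sum_comp f]
  refine Finset.sum_congr rfl fun v _ => ?_
  rw [deg_isom f g h]

lemma cnt_subdivide (G : MGraph) (e0 : G.E) (t : ℝ) (h0 : 0 < t) (h1 : t < G.len e0) :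
    (G.subdivide e0 t h0 h1).cnt = G.cnt := by
  have hold : ∀ v : G.V, (G.subdivide e0 t h0 h1).deg (some v) = G.deg v := by
    intro v
    show (∑ e : Option G.E, if G.subSrc e = some v then 1 else 0)
      + (∑ e : Option G.E, if G.subDst e0 e = some v then 1 else 0) = G.deg v
    rw [Fintype.sum_option, Fintype.sum_option]
    have a1 : (if G.subSrc none = some v then 1 else 0) = 0 := by
      simp [subSrc, subDst]
    have a2 : ∀ e : G.E, (if G.subSrc (some e) = some v then 1 else 0)
        = if G.src e = v then 1 else 0 := by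
      intro e; simp [subSrc, subDst]
    have a3 : (if G.subDst e0 none = some v then 1 else 0)
        = if G.dst e0 = v then 1 else 0 := by
      simp [subSrc, subDst]
    have a4 : ∀ e : G.E, (if G.subDst e0 (some e) = some v then 1 else 0)
        = if e = e0 then 0 else if G.dst e = v then 1 else 0 := by
      intro e
      by_cases he : e = e0
      · simp [subSrc, subDst, he]
      · simp [subSrc, subDst, he]
    rw [a1, a3]
    simp only [a2, a4]
    unfold deg
    have a5 : (∑ e, if G.dst e = v then 1 else 0)
        = (if G.dst e0 = v then 1 else 0) + ∑ e, if e = e0 then 0 else if G.dst e = v then 1 else 0 := by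
      rw [← Finset.add_sum_erase _ _ (Finset.mem_univ e0)]
      congr 1
      rw [← Finset.add_sum_erase (Finset.univ) (fun e => if e = e0 then 0 else if G.dst e = v then 1 else 0) (Finset.mem_univ e0)]
      simp only [if_true, zero_add]
      refine Finset.sum_congr rfl fun e he => ?_
      rw [if_neg (Finset.ne_of_mem_erase he)]
    rw [a5]; ring
  have hnew : (G.subdivide e0 t h0 h1).deg none = 2 := by
    show (∑ e : Option G.E, if G.subSrc e = none then 1 else 0)
      + (∑ e : Option G.E, if G.subDst e0 e = none then 1 else 0) = 2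
    rw [Fintype.sum_option, Fintype.sum_option]
    have a1 : (if G.subSrc none = none then 1 else 0) = 1 := by
      simp [subSrc, subDst]
    have a2 : ∀ e : G.E, (if G.subSrc (some e) = none then 1 else 0) = 0 := by
      intro e; simp [subSrc, subDst]
    have a3 : (if G.subDst e0 none = none then 1 else 0) = 0 := by
      simp [subSrc, subDst]
    have a4 : ∀ e : G.E, (if G.subDst e0 (some e) = none then 1 else 0)
        = if e = e0 then 1 else 0 := by
      intro e
      by_cases he : e = e0
      · simp [subSrc, subDst, he]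
      · simp [subSrc, subDst, he]
    rw [a1, a3]
    simp only [a2, a4]
    simp
  show (∑ v : Option G.V, if (G.subdivide e0 t h0 h1).deg v = 4 then 1 else 0) = G.cnt
  rw [Fintype.sum_option, hnew]
  simp only [hold]
  unfold cnt
  simp

lemma cnt_step {G H : MGraph} (h : Step G H) : H.cnt = G.cnt := by
  rcases h with h | ⟨e0, t, h0, h1, h⟩
  · exact cnt_isom h
  · rw [cnt_isom h, cnt_subdivide]

lemma cnt_same {G H : MGraph} (h : Same G H) : H.cnt = G.cnt := by
  induction h with
  | rel _ _ h => exact cnt_step h
  | refl _ => rfl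
  | symm _ _ _ ih => exact ih.symm
  | trans _ _ _ _ _ ih1 ih2 => exact ih2.trans ih1

/-- The equilateral pumpkin with `k` edges of length `l`. -/
def pumpkin (k : ℕ) (l : ℝ) (hl : 0 < l) : MGraph where
  V := Fin 2
  E := Fin k
  src := fun _ => 0
  dst := fun _ => 1
  len := fun _ => l
  len_pos := fun _ => hl

/-- The equilateral complete graph on `n` vertices with edges of length `l`. -/
def complete (n : ℕ) (l : ℝ) (hl : 0 < l) : MGraph where
  V := Fin n
  E := {p : Fin n × Fin n // p.1 < p.2}
  src := fun e => e.1.1
  dst := fun e => e.1.2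
  len := fun _ => l
  len_pos := fun _ => hl

lemma cnt_pumpkin (k : ℕ) (l : ℝ) (hl : 0 < l) : (pumpkin k l hl).cnt ≠ 3 := by
  have h : (pumpkin k l hl).cnt ≤ 2 := by
    unfold cnt
    calc (∑ v, if (pumpkin k l hl).deg v = 4 then 1 else 0) ≤ ∑ v : Fin 2, 1 := by
          refine Finset.sum_le_sum fun v _ => ?_
          split_ifs <;> simp
      _ = 2 := by simp
  omega

lemma deg_complete (n : ℕ) (l : ℝ) (hl : 0 < l) (v : Fin n) :
    (complete n l hl).deg v = n - 1 := by
  have h1 : (∑ e : {p : Fin n × Fin n // p.1 < p.2}, if e.1.1 = v then 1 else 0)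
      = (Finset.Ioi v).card := by
    rw [← Finset.card_filter]
    refine Finset.card_bij (fun e _ => e.1.2) ?_ ?_ ?_
    · rintro ⟨⟨i, j⟩, hij⟩ he
      simp only [Finset.mem_filter, Finset.mem_univ, true_and] at he
      simpa [← he] using hij
    · rintro ⟨⟨i, j⟩, hij⟩ he ⟨⟨i', j'⟩, hij'⟩ he' hh
      simp only [Finset.mem_filter, Finset.mem_univ, true_and] at he he'
      simp only at hh
      subst he; subst hh; simp_all
    · intro j hj
      exact ⟨⟨(v, j), by simpa using hj⟩, by simp, rfl⟩
  have h2 : (∑ e : {p : Fin n × Fin n // p.1 < p.2}, if e.1.2 = v then 1 else 0)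
      = (Finset.Iio v).card := by
    rw [← Finset.card_filter]
    refine Finset.card_bij (fun e _ => e.1.1) ?_ ?_ ?_
    · rintro ⟨⟨i, j⟩, hij⟩ he
      simp only [Finset.mem_filter, Finset.mem_univ, true_and] at he
      simpa [← he] using hij
    · rintro ⟨⟨i, j⟩, hij⟩ he ⟨⟨i', j'⟩, hij'⟩ he' hh
      simp only [Finset.mem_filter, Finset.mem_univ, true_and] at he he'
      simp only at hh
      subst he; subst hh; simp_all
    · intro j hj
      exact ⟨⟨(j, v), by simpa using hj⟩, by simp, rfl⟩
  show (∑ e : {p : Fin n × Fin n // p.1 < p.2}, if e.1.1 = v then 1 else 0)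
    + (∑ e : {p : Fin n × Fin n // p.1 < p.2}, if e.1.2 = v then 1 else 0) = n - 1
  rw [h1, h2, Fin.card_Ioi, Fin.card_Iio]
  have := v.2
  omega

lemma cnt_complete (n : ℕ) (l : ℝ) (hl : 0 < l) : (complete n l hl).cnt ≠ 3 := by
  have h : (complete n l hl).cnt = ∑ v : Fin n, if n - 1 = 4 then 1 else 0 := by
    unfold cnt
    refine Finset.sum_congr rfl fun v _ => ?_
    have h3 : (complete n l hl).deg v = n - 1 := deg_complete n l hl v
    rw [h3]
  rw [h]
  by_cases hn : n - 1 = 4
  · simp [hn]; omega
  · simp [hn]

end MGraph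

end Q191.QGraph
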