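import Pool.Agent.Q191.NotLin

open Filter Asymptotics Topology Matrix
open scoped ContDiff

set_option linter.unusedSectionVars false

namespace Q191

/-! ### elements of `SL(n, ℝ)` near `1` contracting a given vector -/

variable {n : ℕ}

/-- auxiliary matrix -/
noncomputable def ctr (u : Fin n → ℝ) (i j : Fin n) (s : ℝ) : Matrix (Fin n) (Fin n) ℝ :=
  1 + (Real.exp (-s) - 1) • vecMulVec u (Pi.single i (u i)⁻¹) +
    (Real.exp s - 1) • vecMulVec (Pi.single j 1) (Pi.single j 1 - (u j / u i) • Pi.single i 1)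

theorem ctr_mulVec (u : Fin n → ℝ) {i j : Fin n} (hu : u i ≠ 0) (s : ℝ) :
    (ctr u i j s).mulVec u = Real.exp (-s) • u := by
  unfold ctr
  rw [add_mulVec, add_mulVec, one_mulVec, smul_mulVec, smul_mulVec, vecMulVec_mulVec,
    vecMulVec_mulVec]
  have h1 : (Pi.single i (u i)⁻¹ : Fin n → ℝ) ⬝ᵥ u = 1 := by
    rw [single_dotProduct, inv_mul_cancel₀ hu]
  have h2 : (Pi.single j 1 - (u j / u i) • Pi.single i 1 : Fin n → ℝ) ⬝ᵥ u = 0 := by
    rw [sub_dotProduct, smul_dotProduct, single_dotProduct, single_dotProduct]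
    simp only [one_mul, smul_eq_mul]
    field_simp
    ring
  rw [h1, h2]
  ext l
  simp
  ring

theorem ctr_det (u : Fin n → ℝ) {i j : Fin n} (hij : j ≠ i) (hu : u i ≠ 0) (s : ℝ) :
    (ctr u i j s).det = 1 := by
  set v : Fin n → ℝ := Pi.single i (u i)⁻¹ with hv
  set w : Fin n → ℝ := Pi.single j 1 - (u j / u i) • Pi.single i 1 with hw
  set U : Matrix (Fin n) (Fin 2) ℝ := Matrix.of (fun l a =>
    if a = 0 then (Real.exp (-s) - 1) * u l else (Real.exp s - 1) * (Pi.single j 1 : Fin n → ℝ) l)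
    with hU
  set W : Matrix (Fin 2) (Fin n) ℝ := Matrix.of (fun a l => if a = 0 then v l else w l) with hW
  have h1 : ctr u i j s = 1 + U * W := by
    ext a b
    simp only [ctr, hU, hW, Matrix.add_apply, Matrix.mul_apply, Fin.sum_univ_two, of_apply,
      Matrix.smul_apply, vecMulVec_apply, smul_eq_mul]
    simp only [if_true, one_ne_zero, if_false, ← hv, ← hw, Fin.isValue]
    ring
  have hvu : v ⬝ᵥ u = 1 := by
    rw [hv, single_dotProduct, inv_mul_cancel₀ hu]
  have hwu : w ⬝ᵥ u = 0 := by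
    rw [hw, sub_dotProduct, smul_dotProduct, single_dotProduct, single_dotProduct]
    simp only [one_mul, smul_eq_mul]
    field_simp
    ring
  have hvj : v j = 0 := by
    rw [hv, Pi.single_eq_of_ne hij]
  have hwj : w j = 1 := by
    rw [hw]
    simp [Pi.single_eq_of_ne hij]
  have h2 : W * U = !![Real.exp (-s) - 1, 0; 0, Real.exp s - 1] := by
    ext a b
    fin_cases a <;> fin_cases b
    · simp only [hU, hW, mul_apply, of_apply, if_true, Fin.zero_eta, Fin.isValue]
      have : ∑ x, v x * ((Real.exp (-s) - 1) * u x) = (Real.exp (-s) - 1) * (v ⬝ᵥ u) := by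
        rw [dotProduct, Finset.mul_sum]
        exact Finset.sum_congr rfl fun x _ => by ring
      rw [this, hvu]
      simp
    · simp only [hU, hW, mul_apply, of_apply, if_true, Fin.zero_eta, Fin.isValue, Fin.mk_one,
        one_ne_zero, if_false]
      have : ∑ x, v x * ((Real.exp s - 1) * (Pi.single j 1 : Fin n → ℝ) x)
          = (Real.exp s - 1) * (v ⬝ᵥ (Pi.single j 1 : Fin n → ℝ)) := by
        rw [dotProduct, Finset.mul_sum]
        exact Finset.sum_congr rfl fun x _ => by ring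
      rw [this, dotProduct_single, hvj]
      simp
    · simp only [hU, hW, mul_apply, of_apply, if_true, Fin.zero_eta, Fin.isValue, Fin.mk_one,
        one_ne_zero, if_false]
      have : ∑ x, w x * ((Real.exp (-s) - 1) * u x) = (Real.exp (-s) - 1) * (w ⬝ᵥ u) := by
        rw [dotProduct, Finset.mul_sum]
        exact Finset.sum_congr rfl fun x _ => by ring
      rw [this, hwu]
      simp
    · simp only [hU, hW, mul_apply, of_apply, Fin.isValue, Fin.mk_one,
        one_ne_zero, if_false]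
      have : ∑ x, w x * ((Real.exp s - 1) * (Pi.single j 1 : Fin n → ℝ) x)
          = (Real.exp s - 1) * (w ⬝ᵥ (Pi.single j 1 : Fin n → ℝ)) := by
        rw [dotProduct, Finset.mul_sum]
        exact Finset.sum_congr rfl fun x _ => by ring
      rw [this, dotProduct_single, hwj]
      simp
  rw [h1, det_one_add_mul_comm, h2]
  have h3 : (1 : Matrix (Fin 2) (Fin 2) ℝ) + !![Real.exp (-s) - 1, 0; 0, Real.exp s - 1] =
      !![Real.exp (-s), 0; 0, Real.exp s] := by
    ext a b
    fin_cases a <;> fin_cases b <;> simp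
  rw [h3, det_fin_two_of, ← Real.exp_add]
  simp

theorem ctr_zero (u : Fin n → ℝ) (i j : Fin n) : ctr u i j 0 = 1 := by
  simp [ctr]

theorem ctr_continuous (u : Fin n → ℝ) (i j : Fin n) : Continuous (ctr u i j) := by
  unfold ctr
  fun_prop

theorem exists_contracting (hn : 2 ≤ n) {N : Set (SpecialLinearGroup (Fin n) ℝ)} (hN : N ∈ 𝓝 1)
    (u : Fin n → ℝ) (hu : u ≠ 0) :
    ∃ g ∈ N, ∃ l : ℝ, 0 < l ∧ l < 1 ∧ (g : Matrix (Fin n) (Fin n) ℝ).mulVec u = l • u := by
  obtain ⟨i, hi⟩ := Function.ne_iff.1 hu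
  have hi' : u i ≠ 0 := hi
  obtain ⟨j, hj⟩ : ∃ j : Fin n, j ≠ i := by
    have : Nontrivial (Fin n) := Fin.nontrivial_iff_two_le.2 hn
    exact exists_ne i
  set G : ℝ → SpecialLinearGroup (Fin n) ℝ := fun s => ⟨ctr u i j s, ctr_det u hj hi' s⟩ with hG
  have hGc : Continuous G :=
    (SpecialLinearGroup.isClosedEmbedding_val).isInducing.continuous_iff.2 (ctr_continuous u i j)
  have hG0 : G 0 = 1 := by
    apply Subtype.ext
    exact ctr_zero u i j
  have h1 : ∀ᶠ s in 𝓝 (0:ℝ), G s ∈ N := by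
    have := hGc.tendsto 0
    rw [hG0] at this
    exact this.eventually hN
  have h2 : ∀ᶠ s in 𝓝[>] (0:ℝ), G s ∈ N ∧ 0 < s :=
    (h1.filter_mono nhdsWithin_le_nhds).and eventually_mem_nhdsWithin
  obtain ⟨s, hs, hs0⟩ := h2.exists
  refine ⟨G s, hs, Real.exp (-s), Real.exp_pos _, ?_, ctr_mulVec u hi' s⟩
  rw [Real.exp_lt_one_iff]
  linarith

/-! ### the concrete spaces -/

/-- The linear map of `ℝ^n` given by a matrix -/
noncomputable def mat (g : SpecialLinearGroup (Fin n) ℝ) :
    EuclideanSpace ℝ (Fin n) →L[ℝ] EuclideanSpace ℝ (Fin n) :=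
  Matrix.toEuclideanCLM (𝕜 := ℝ) (g : Matrix (Fin n) (Fin n) ℝ)

theorem mat_one : mat (1 : SpecialLinearGroup (Fin n) ℝ) = ContinuousLinearMap.id ℝ _ := by
  exact map_one (Matrix.toEuclideanCLM (𝕜 := ℝ) (n := Fin n))

theorem mat_mul (g h : SpecialLinearGroup (Fin n) ℝ) : mat (g * h) = (mat g).comp (mat h) := by
  exact map_mul (Matrix.toEuclideanCLM (𝕜 := ℝ) (n := Fin n)) _ _

theorem mat_apply (g : SpecialLinearGroup (Fin n) ℝ) (x : EuclideanSpace ℝ (Fin n)) :
    mat g x = WithLp.toLp 2 ((g : Matrix (Fin n) (Fin n) ℝ).mulVec x.ofLp) := rfl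

variable {m : ℕ} (hm : n < m)

/-- projection to the first `n` coordinates -/
noncomputable def prj : EuclideanSpace ℝ (Fin m) →L[ℝ] EuclideanSpace ℝ (Fin n) :=
  LinearMap.toContinuousLinearMap
    { toFun := fun z => WithLp.toLp 2 (fun i => z (Fin.castLE hm.le i))
      map_add' := fun _ _ => rfl
      map_smul' := fun _ _ => rfl }

/-- extension by zero -/
noncomputable def inj : EuclideanSpace ℝ (Fin n) →L[ℝ] EuclideanSpace ℝ (Fin m) :=
  LinearMap.toContinuousLinearMap
    { toFun := fun x => WithLp.toLp 2 (fun i : Fin m => if h : i.1 < n then x ⟨i.1, h⟩ else 0)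
      map_add' := fun x y => by
        ext i
        by_cases h : i.1 < n <;> simp [h]
      map_smul' := fun c x => by
        ext i
        by_cases h : i.1 < n <;> simp [h] }

theorem prj_apply (z : EuclideanSpace ℝ (Fin m)) (i : Fin n) :
    prj hm z i = z (Fin.castLE hm.le i) := rfl

theorem inj_apply (x : EuclideanSpace ℝ (Fin n)) (i : Fin m) :
    inj (m := m) x i = if h : i.1 < n then x ⟨i.1, h⟩ else 0 := rfl

theorem prj_inj (x : EuclideanSpace ℝ (Fin n)) : prj hm (inj (m := m) x) = x := by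
  ext i
  simp [prj_apply, inj_apply]

/-- the vertical vector -/
noncomputable def ve : EuclideanSpace ℝ (Fin m) := EuclideanSpace.single ⟨n, hm⟩ 1

/-- the vertical coordinate -/
noncomputable def vt : EuclideanSpace ℝ (Fin m) →L[ℝ] ℝ := EuclideanSpace.proj ⟨n, hm⟩

theorem ve_norm : ‖ve hm‖ = 1 := by simp [ve]

theorem vt_norm : ‖vt hm‖ ≤ 1 := by
  refine ContinuousLinearMap.opNorm_le_bound _ zero_le_one fun z => ?_
  rw [one_mul]
  exact PiLp.norm_apply_le z _

theorem vt_ve : vt hm (ve hm) = 1 := by simp [vt, ve]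

theorem prj_ve : prj hm (ve hm) = 0 := by
  ext i
  have : Fin.castLE hm.le i ≠ ⟨n, hm⟩ := by
    intro h
    have := congrArg Fin.val h
    have h2 := i.2
    simp at this
    omega
  rw [prj_apply]
  simp [ve, this]

theorem vt_inj (x : EuclideanSpace ℝ (Fin n)) : vt hm (inj (m := m) x) = 0 := by
  show inj (m := m) x ⟨n, hm⟩ = 0
  simp [inj_apply]

/-- the linear representation `g ⊕ 1` -/
noncomputable def rep (g : SpecialLinearGroup (Fin n) ℝ) :
    EuclideanSpace ℝ (Fin m) →L[ℝ] EuclideanSpace ℝ (Fin m) := blk (prj hm) inj (mat g)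

theorem rep_one : rep hm 1 = ContinuousLinearMap.id ℝ _ := by
  ext1 z
  rw [rep, blk_apply, mat_one]
  simp

theorem rep_mul (g h : SpecialLinearGroup (Fin n) ℝ) :
    rep hm (g * h) = (rep hm g).comp (rep hm h) := by
  ext1 z
  rw [ContinuousLinearMap.comp_apply, rep, rep, rep, blk_apply, blk_apply, blk_apply, mat_mul,
    map_add, prj_inj]
  simp only [ContinuousLinearMap.comp_apply, map_sub, add_sub_cancel]
  abel

theorem rep_low (g : SpecialLinearGroup (Fin n) ℝ) :
    ∃ c : ℝ, 0 < c ∧ ∀ z, c * ‖z‖ ≤ ‖rep hm g z‖ := by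
  have hpos : 0 < ‖rep hm g⁻¹‖ + 1 := by positivity
  refine ⟨(‖rep hm g⁻¹‖ + 1)⁻¹, by positivity, fun z => ?_⟩
  have h1 : rep hm g⁻¹ (rep hm g z) = z := by
    have := rep_mul hm g⁻¹ g
    rw [inv_mul_cancel, rep_one] at this
    exact (DFunLike.congr_fun this z).symm
  have h2 := (rep hm g⁻¹).le_opNorm (rep hm g z)
  rw [h1] at h2
  rw [inv_mul_le_iff₀ hpos]
  have := norm_nonneg (rep hm g z)
  nlinarith

theorem rep_ve (g : SpecialLinearGroup (Fin n) ℝ) : rep hm g (ve hm) = ve hm := by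
  rw [rep, blk_apply, prj_ve]
  simp

theorem vt_rep (g : SpecialLinearGroup (Fin n) ℝ) (z : EuclideanSpace ℝ (Fin m)) :
    vt hm (rep hm g z) = vt hm z := by
  rw [rep, blk_apply, map_add, vt_inj, add_zero]

theorem rep_continuous :
    Continuous fun p : SpecialLinearGroup (Fin n) ℝ × EuclideanSpace ℝ (Fin m) =>
      rep hm p.1 p.2 := by
  have h1 : Continuous fun p : SpecialLinearGroup (Fin n) ℝ × EuclideanSpace ℝ (Fin m) =>
      mat p.1 (prj hm p.2) := by
    simp only [mat_apply]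
    refine (PiLp.continuous_toLp 2 _).comp ?_
    refine Continuous.matrix_mulVec (continuous_subtype_val.comp continuous_fst) ?_
    exact (PiLp.continuous_ofLp 2 _).comp ((prj hm).continuous.comp continuous_snd)
  simp only [rep, blk_apply]
  exact continuous_snd.add (inj.continuous.comp
    (h1.sub ((prj hm).continuous.comp continuous_snd)))

end Q191
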