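import Mathlib

open Filter Topology Metric

set_option linter.unusedSectionVars false

namespace Q191.SL

section

variable {W : Type*} [NormedAddCommGroup W] [NormedSpace ℝ W]

open Classical in
/-- distance-like function to a closed set (equal to `1` if the set is empty) -/
noncomputable def fn (D : Set W) (y : W) : ℝ := if D = ∅ then 1 else min 1 (infDist y D)

theorem fn_nonneg (D : Set W) (y : W) : 0 ≤ fn D y := by
  unfold fn
  split_ifs
  · exact zero_le_one
  · exact le_min zero_le_one infDist_nonneg

theorem fn_lip (D : Set W) (x y : W) : |fn D x - fn D y| ≤ ‖x - y‖ := by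
  unfold fn
  split_ifs
  · simp
  · have h1 : |min 1 (infDist x D) - min 1 (infDist y D)| ≤ |infDist x D - infDist y D| := by
      have := abs_min_sub_min_le_max 1 (infDist x D) 1 (infDist y D)
      simpa using this
    refine h1.trans ?_
    rw [← dist_eq_norm, ← Real.dist_eq]
    have := (lipschitz_infDist_pt D).dist_le_mul x y
    simpa using this

theorem fn_continuous (D : Set W) : Continuous (fn D) := by
  have : LipschitzWith 1 (fn D) := LipschitzWith.of_dist_le_mul fun x y => by
    rw [Real.dist_eq, dist_eq_norm, NNReal.coe_one, one_mul]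
    exact fn_lip D x y
  exact this.continuous

theorem fn_eq_zero {D : Set W} (hD : IsClosed D) {y : W} : fn D y = 0 ↔ y ∈ D := by
  unfold fn
  split_ifs with h
  · simp [h]
  · have hne : D.Nonempty := Set.nonempty_iff_ne_empty.2 h
    rw [hD.mem_iff_infDist_zero hne]
    constructor
    · intro h1
      rcases min_choice 1 (infDist y D) with h2 | h2
      · rw [h2] at h1
        exact absurd h1 one_ne_zero
      · rw [h2] at h1
        exact h1
    · intro h1
      rw [h1]
      simp

/-- the pushing map -/
noncomputable def push (D : Set W) (u : W) (y : W) : W := y + ((1/2) * fn D y) • u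

variable [CompleteSpace W] [Nontrivial W]

theorem push_approx (D : Set W) {u : W} (hu : ‖u‖ = 1) : ApproximatesLinearOn (push D u)
    ((ContinuousLinearEquiv.refl ℝ W : W ≃L[ℝ] W) : W →L[ℝ] W) Set.univ (1/2) := by
  intro x _ y _
  have h1 : push D u x - push D u y -
      ((ContinuousLinearEquiv.refl ℝ W : W ≃L[ℝ] W) : W →L[ℝ] W) (x - y)
      = ((1/2) * (fn D x - fn D y)) • u := by
    simp only [push, ContinuousLinearEquiv.coe_refl, ContinuousLinearMap.id_apply, sub_smul,
      mul_sub]
    abel
  rw [h1, norm_smul, Real.norm_eq_abs, hu, mul_one, abs_mul]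
  have h2 := fn_lip D x y
  have h3 : ((1/2 : NNReal) : ℝ) = 1/2 := by norm_num
  rw [h3, abs_of_pos (by norm_num : (0:ℝ) < 1/2)]
  gcongr

theorem half_lt : (1/2 : NNReal) <
    ‖(((ContinuousLinearEquiv.refl ℝ W : W ≃L[ℝ] W).symm : W ≃L[ℝ] W) : W →L[ℝ] W)‖₊⁻¹ := by
  have : ‖(((ContinuousLinearEquiv.refl ℝ W : W ≃L[ℝ] W).symm : W ≃L[ℝ] W) : W →L[ℝ] W)‖₊ = 1 := by
    simp
  rw [this, inv_one]
  exact NNReal.half_lt_self one_ne_zero

/-- the pushing homeomorphism -/
noncomputable def pushHomeo (D : Set W) {u : W} (hu : ‖u‖ = 1) : W ≃ₜ W :=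
  (push_approx D hu).toHomeomorph _ (Or.inr half_lt)

theorem pushHomeo_apply (D : Set W) {u : W} (hu : ‖u‖ = 1) (y : W) :
    pushHomeo D hu y = y + ((1/2) * fn D y) • u := rfl

/-- iterates of a homeomorphism -/
noncomputable def iter {X : Type*} [TopologicalSpace X] (h : X ≃ₜ X) : ℕ → (X ≃ₜ X)
  | 0 => Homeomorph.refl X
  | (k+1) => (iter h k).trans h

theorem iter_succ {X : Type*} [TopologicalSpace X] (h : X ≃ₜ X) (k : ℕ) (x : X) :
    iter h (k+1) x = h (iter h k x) := rfl

/-- heights of the orbit -/
noncomputable def ht (D : Set W) (u y : W) : ℕ → ℝ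
  | 0 => 0
  | (k+1) => ht D u y k + (1/2) * fn D (y + ht D u y k • u)

theorem iter_eq (D : Set W) {u : W} (hu : ‖u‖ = 1) (y : W) (k : ℕ) :
    iter (pushHomeo D hu) k y = y + ht D u y k • u := by
  induction k with
  | zero => simp [iter, ht]
  | succ k ih =>
    rw [iter_succ, ih, pushHomeo_apply, ht, add_smul, add_assoc]

theorem ht_mono (D : Set W) (u y : W) : Monotone (ht D u y) := by
  refine monotone_nat_of_le_succ fun k => ?_
  rw [ht]
  have := fn_nonneg D (y + ht D u y k • u)
  linarith

theorem orbit_dichotomy {D : Set W} (hD : IsClosed D) {u : W} (hu : ‖u‖ = 1) (y : W) :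
    (∃ z ∈ D, Tendsto (fun k => iter (pushHomeo D hu) k y) atTop (𝓝 z)) ∨
      Tendsto (fun k => ‖iter (pushHomeo D hu) k y‖) atTop atTop := by
  rcases tendsto_atTop_of_monotone (ht_mono D u y) with h | ⟨s, hs⟩
  · right
    have h1 : ∀ k, ht D u y k - ‖y‖ ≤ ‖iter (pushHomeo D hu) k y‖ := by
      intro k
      rw [iter_eq]
      have h2 : ‖ht D u y k • u‖ ≤ ‖y + ht D u y k • u‖ + ‖y‖ := by
        have := norm_sub_le (y + ht D u y k • u) y
        rwa [add_sub_cancel_left] at this
      have h3 : ht D u y k ≤ ‖ht D u y k • u‖ := by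
        rw [norm_smul, hu, mul_one]
        exact le_abs_self _
      linarith
    exact tendsto_atTop_mono h1 (tendsto_atTop_add_const_right _ _ h)
  · left
    refine ⟨y + s • u, ?_, ?_⟩
    · rw [← fn_eq_zero hD]
      have h1 : Tendsto (fun k => ht D u y (k+1)) atTop (𝓝 s) := hs.comp (tendsto_add_atTop_nat 1)
      have h2 : Tendsto (fun k => ht D u y k + (1/2) * fn D (y + ht D u y k • u)) atTop
          (𝓝 (s + (1/2) * fn D (y + s • u))) := by
        refine hs.add (Tendsto.const_mul _ ?_)
        exact ((fn_continuous D).tendsto _).comp ((hs.smul_const u).const_add y)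
      have h3 := tendsto_nhds_unique h1 h2
      linarith
    · have : (fun k => iter (pushHomeo D hu) k y) = fun k => y + ht D u y k • u := by
        funext k
        exact iter_eq D hu y k
      rw [this]
      exact (hs.smul_const u).const_add y

theorem iter_fixed {D : Set W} (hD : IsClosed D) {u : W} (hu : ‖u‖ = 1) {y : W} (hy : y ∈ D)
    (k : ℕ) : iter (pushHomeo D hu) k y = y := by
  induction k with
  | zero => rfl
  | succ k ih =>
    rw [iter_succ, ih, pushHomeo_apply, (fn_eq_zero hD).2 hy]
    simp

theorem onePoint_main [ProperSpace W] (D : Set (OnePoint W)) (hD : IsClosed D)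
    (hinf : (OnePoint.infty : OnePoint W) ∈ D) :
    ∃ H : ℕ → (OnePoint W ≃ₜ OnePoint W),
      (∀ p, ∃ q ∈ D, Tendsto (fun k => H k p) atTop (𝓝 q)) ∧
      (∀ q ∈ D, Tendsto (fun k => H k q) atTop (𝓝 q)) := by
  obtain ⟨u0, hu0⟩ := exists_ne (0:W)
  set u : W := ‖u0‖⁻¹ • u0 with hudef
  have hu : ‖u‖ = 1 := by
    rw [hudef, norm_smul, norm_inv, norm_norm, inv_mul_cancel₀ (norm_ne_zero_iff.2 hu0)]
  set D' : Set W := (fun y : W => (y : OnePoint W)) ⁻¹' D with hD'
  have hD'c : IsClosed D' := hD.preimage OnePoint.continuous_coe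
  refine ⟨fun k => (iter (pushHomeo D' hu) k).onePointCongr, ?_, ?_⟩
  · intro p
    induction p using OnePoint.rec with
    | infty => exact ⟨OnePoint.infty, hinf, by simp⟩
    | coe y =>
      rcases orbit_dichotomy hD'c hu y with ⟨z, hz, hlim⟩ | hlim
      · refine ⟨(z : OnePoint W), hz, ?_⟩
        exact (OnePoint.continuous_coe.tendsto z).comp hlim
      · refine ⟨OnePoint.infty, hinf, ?_⟩
        have h1 : Tendsto (fun k => iter (pushHomeo D' hu) k y) atTop
            (coclosedCompact W) := by
          rw [coclosedCompact_eq_cocompact, ← Metric.cobounded_eq_cocompact]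
          exact tendsto_norm_atTop_iff_cobounded.1 hlim
        exact OnePoint.tendsto_coe_infty.comp h1
  · intro q hq
    induction q using OnePoint.rec with
    | infty => simp
    | coe y =>
      have h1 : ∀ k, (iter (pushHomeo D' hu) k).onePointCongr (y : OnePoint W) = y := by
        intro k
        show ((iter (pushHomeo D' hu) k y : W) : OnePoint W) = y
        rw [iter_fixed hD'c hu hq]
      simp only [h1]
      exact tendsto_const_nhds

end

end Q191.SL
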